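import Mathlib
import Pool.Agent.Y790.TR.Def4

/-!
# Trees with an `α`-labelling: integer form and simply sequential labellings
-/

set_option autoImplicit false

namespace Pool.Agent.Y790.TG.AlphZ

open Pool.Agent.Y790.TR

/-- the difference of the labels of the ends of an edge -/
def dif {V : Type} (f : V → ℕ) : Sym2 V → ℕ :=
  Sym2.lift ⟨fun u w => ((f u : ℤ) - (f w : ℤ)).natAbs, fun u w => by
    dsimp only
    omega⟩

theorem dif_mk {V : Type} (f : V → ℕ) (u w : V) :
    dif f s(u, w) = ((f u : ℤ) - (f w : ℤ)).natAbs := rfl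

theorem card_eq {V : Type} [Fintype V] {G : SimpleGraph V} (hG : G.IsTree) :
    Fintype.card V = G.edgeSet.ncard + 1 := by
  classical
  have h := hG.card_edgeFinset
  rw [← SimpleGraph.coe_edgeFinset, Set.ncard_coe_finset]
  exact h.symm

theorem image_dif {V : Type} {G : SimpleGraph V} {f : V → ℕ}
    (h : {d : ℕ | ∃ u w : V, G.Adj u w ∧ d = Int.natAbs ((f u : ℤ) - (f w : ℤ))} =
      Set.Icc 1 G.edgeSet.ncard) : dif f '' G.edgeSet = Set.Icc 1 G.edgeSet.ncard := by
  rw [← h]
  ext d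
  constructor
  · rintro ⟨e, he, rfl⟩
    induction e using Sym2.ind with
    | _ u w => exact ⟨u, w, he, rfl⟩
  · rintro ⟨u, w, huw, rfl⟩
    exact ⟨s(u, w), huw, rfl⟩

theorem injOn_dif {V : Type} [Finite V] {G : SimpleGraph V} {f : V → ℕ}
    (h : {d : ℕ | ∃ u w : V, G.Adj u w ∧ d = Int.natAbs ((f u : ℤ) - (f w : ℤ))} =
      Set.Icc 1 G.edgeSet.ncard) : Set.InjOn (dif f) G.edgeSet := by
  have hfin : G.edgeSet.Finite := Set.toFinite _
  refine Set.injOn_of_ncard_image_eq ?_ hfin
  rw [image_dif h, Set.ncard_eq_toFinset_card', Set.toFinset_Icc, Nat.card_Icc]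
  omega

end Pool.Agent.Y790.TG.AlphZ

namespace Pool.Agent.Y790.TG

open Pool.Agent.Y790.TR
open Pool.Agent.Y790.TG.AlphZ

theorem alphZ : AlphZStm := by
  rintro V _ G hG hV ⟨f, p, hinj, hle, hd, hp⟩
  have hcard := card_eq hG
  have hm : 1 ≤ G.edgeSet.ncard := by omega
  obtain ⟨u0, w0, h0, -⟩ : 1 ∈ {d : ℕ | ∃ u w : V, G.Adj u w ∧
      d = Int.natAbs ((f u : ℤ) - (f w : ℤ))} := by
    rw [hd]
    exact ⟨le_refl 1, hm⟩
  have hI := injOn_dif hd
  refine ⟨fun v => (f v : ℤ), fun a b hab => hinj (Int.ofNat_inj.mp hab), fun v => ?_, ?_,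
    (p : ℤ) - 1, ?_, ?_, ?_⟩
  · have := hle v
    dsimp only
    omega
  · intro u v w x huv hwx h
    dsimp only at h
    have h1 : dif f s(u, v) = dif f s(w, x) := by
      rw [dif_mk, dif_mk]
      rw [Int.abs_eq_natAbs, Int.abs_eq_natAbs] at h
      exact_mod_cast h
    have h2 := hI (show s(u, v) ∈ G.edgeSet from huv) (show s(w, x) ∈ G.edgeSet from hwx) h1
    exact Sym2.eq_iff.mp h2
  · rcases hp u0 w0 h0 with h | h <;> omega
  · have h1 := hle u0
    have h2 := hle w0
    rcases hp u0 w0 h0 with h | h <;> omega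
  · intro u v huv
    dsimp only
    rcases hp u v huv with h | h <;> omega

theorem seq : SeqStm := by
  rintro V _ G hG hV ⟨f, p, hinj, hle, hd, hp⟩
  classical
  have hcard := card_eq hG
  have hI := injOn_dif hd
  have hND : Nat.card G.edgeSet = G.edgeSet.ncard := Nat.card_coe_set_eq _
  let F : V ⊕ G.edgeSet → ℕ := Sum.elim (fun u => 2 * f u + 1) (fun e => 2 * dif f e.1)
  have hFinj : Function.Injective F := by
    rintro (a | a) (b | b) hab
    · change 2 * f a + 1 = 2 * f b + 1 at hab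
      rw [hinj (by omega : f a = f b)]
    · change 2 * f a + 1 = 2 * dif f b.1 at hab
      omega
    · change 2 * dif f a.1 = 2 * f b + 1 at hab
      omega
    · change 2 * dif f a.1 = 2 * dif f b.1 at hab
      rw [Subtype.ext (hI a.2 b.2 (by omega))]
  refine ⟨F, hFinj, ?_, ?_⟩
  · intro e u v he
    change 2 * dif f e.1 = (((2 * f u + 1 : ℕ) : ℤ) - ((2 * f v + 1 : ℕ) : ℤ)).natAbs
    rw [he, dif_mk]
    omega
  · have hsub : Set.range F ⊆ Set.Icc 1 (Fintype.card V + Nat.card G.edgeSet) := by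
      rintro _ ⟨a | a, rfl⟩
      · change 2 * f a + 1 ∈ _
        have := hle a
        rw [Set.mem_Icc]
        omega
      · change 2 * dif f a.1 ∈ _
        have h1 : dif f a.1 ∈ Set.Icc 1 G.edgeSet.ncard := by
          rw [← image_dif hd]
          exact ⟨a.1, a.2, rfl⟩
        rw [Set.mem_Icc] at h1 ⊢
        omega
    refine Set.eq_of_subset_of_ncard_le hsub ?_ (Set.finite_Icc _ _)
    rw [Set.ncard_eq_toFinset_card', Set.toFinset_Icc, Nat.card_Icc,
      show (Set.range F).ncard = Nat.card (V ⊕ G.edgeSet) from by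
        rw [← Nat.card_coe_set_eq]
        exact (Nat.card_congr (Equiv.ofInjective F hFinj)).symm,
      Nat.card_sum]
    have h3 : Nat.card V = Fintype.card V := Nat.card_eq_fintype_card
    omega

end Pool.Agent.Y790.TG
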