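import Pool.Agent.Y790.TR.Def5
import Pool.Agent.Y790.TG.AlphZ

/-!
# Trees with an `α`-labelling are super edge-magic
-/

set_option autoImplicit false

namespace Pool.Agent.Y790.TG

open Pool.Agent.Y790.TR
open Pool.Agent.Y790.TG.AlphZ

theorem sem : SemStm := by
  rintro V _ G hG hV ⟨f, p, hinj, hle, hd, hp⟩
  classical
  have hcard := card_eq hG
  have hI := injOn_dif hd
  have hND : Nat.card G.edgeSet = G.edgeSet.ncard := Nat.card_coe_set_eq _
  have hdr : ∀ e : G.edgeSet, 1 ≤ dif f e.1 ∧ dif f e.1 ≤ G.edgeSet.ncard := by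
    intro e
    have h1 : dif f e.1 ∈ Set.Icc 1 G.edgeSet.ncard := by
      rw [← image_dif hd]
      exact ⟨e.1, e.2, rfl⟩
    exact h1
  -- there is an edge
  obtain ⟨e0⟩ : Nonempty G.edgeSet := by
    have h1 : 0 < Nat.card G.edgeSet := by omega
    exact (Nat.card_pos_iff.1 h1).1
  have hpb : 1 ≤ p ∧ p ≤ G.edgeSet.ncard := by
    obtain ⟨e, he⟩ := e0
    induction e with
    | h u w =>
      have h1 := hle u
      have h2 := hle w
      rcases hp u w he with h | h <;> omega
  let g : V → ℕ := fun u => if f u < p then p - f u else f u + 1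
  have hgl : ∀ u, f u < p → g u = p - f u := fun u hu => if_pos hu
  have hgh : ∀ u, ¬ f u < p → g u = f u + 1 := fun u hu => if_neg hu
  have hgb : ∀ u, 1 ≤ g u ∧ g u ≤ Fintype.card V := by
    intro u
    have h1 := hle u
    by_cases hu : f u < p
    · rw [hgl u hu]
      omega
    · rw [hgh u hu]
      omega
  let F : V ⊕ G.edgeSet → ℕ := Sum.elim g (fun e => 2 * G.edgeSet.ncard + 2 - dif f e.1)
  have hFinj : Function.Injective F := by
    rintro (a | a) (b | b) hab
    · change g a = g b at hab
      have h1 : f a = f b := by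
        by_cases ha : f a < p <;> by_cases hb : f b < p
        · rw [hgl a ha, hgl b hb] at hab
          omega
        · rw [hgl a ha, hgh b hb] at hab
          omega
        · rw [hgh a ha, hgl b hb] at hab
          omega
        · rw [hgh a ha, hgh b hb] at hab
          omega
      rw [hinj h1]
    · change g a = 2 * G.edgeSet.ncard + 2 - dif f b.1 at hab
      have h1 := hgb a
      have h2 := hdr b
      omega
    · change 2 * G.edgeSet.ncard + 2 - dif f a.1 = g b at hab
      have h1 := hgb b
      have h2 := hdr a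
      omega
    · change 2 * G.edgeSet.ncard + 2 - dif f a.1 = 2 * G.edgeSet.ncard + 2 - dif f b.1 at hab
      have h1 := hdr a
      have h2 := hdr b
      rw [Subtype.ext (hI a.2 b.2 (by omega))]
  refine ⟨F, p + 1 + (2 * G.edgeSet.ncard + 2), hFinj, ?_, fun v => (hgb v).2, ?_⟩
  · have hsub : Set.range F ⊆ Set.Icc 1 (Fintype.card V + Nat.card G.edgeSet) := by
      rintro _ ⟨a | a, rfl⟩
      · change g a ∈ _
        have := hgb a
        rw [Set.mem_Icc]
        omega
      · change 2 * G.edgeSet.ncard + 2 - dif f a.1 ∈ _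
        have := hdr a
        rw [Set.mem_Icc]
        omega
    refine Set.eq_of_subset_of_ncard_le hsub ?_ (Set.finite_Icc _ _)
    rw [Set.ncard_eq_toFinset_card', Set.toFinset_Icc, Nat.card_Icc,
      show (Set.range F).ncard = Nat.card (V ⊕ G.edgeSet) from by
        rw [← Nat.card_coe_set_eq]
        exact (Nat.card_congr (Equiv.ofInjective F hFinj)).symm,
      Nat.card_sum]
    have h3 : Nat.card V = Fintype.card V := Nat.card_eq_fintype_card
    omega
  · intro e u v he
    change g u + (2 * G.edgeSet.ncard + 2 - dif f e.1) + g v = _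
    have h1 := hdr e
    have h2 : G.Adj u v := by
      have := e.2
      rw [he] at this
      exact this
    have h3 := hle u
    have h4 := hle v
    rw [he, dif_mk] at h1 ⊢
    rcases hp u v h2 with h | h
    · rw [hgl u h.1, hgh v (not_lt.2 h.2)]
      omega
    · rw [hgl v h.1, hgh u (not_lt.2 h.2)]
      omega

end Pool.Agent.Y790.TG
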