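import Pool.Agent.Y790.TR.Def4

/-!
# Trees with an `α`-labelling are bigraceful (helper258)
-/

set_option autoImplicit false

namespace Pool.Agent.Y790.TG.Bigr

variable {V : Type} {G : SimpleGraph V}

/-- the two sides of the labelling are the two classes of the colouring -/
lemma side (c : G.Coloring Bool) (f : V → ℕ) (p : ℕ)
    (hE : ∀ u w : V, G.Adj u w → (f u < p ∧ p ≤ f w) ∨ (f w < p ∧ p ≤ f u)) {u v : V}
    (w : G.Walk u v) : ((c u = false ↔ f u < p) ↔ (c v = false ↔ f v < p)) := by
  induction w with
  | nil => exact Iff.rfl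
  | cons h q ih =>
    rename_i a b d
    refine Iff.trans ?_ ih
    have h1 : c a ≠ c b := c.valid h
    have h2 := hE _ _ h
    cases ha : c a <;> cases hb : c b
    · exact absurd (ha.trans hb.symm) h1
    · simp only [true_iff, reduceCtorEq, false_iff]
      omega
    · simp only [true_iff, reduceCtorEq, false_iff]
      omega
    · exact absurd (ha.trans hb.symm) h1

/-- the difference of the labels of the ends of an edge -/
def df (f : V → ℕ) : Sym2 V → ℕ :=
  Sym2.lift ⟨fun u w => Int.natAbs ((f u : ℤ) - (f w : ℤ)), fun u w => by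
    simp only
    omega⟩

/-- different edges have different differences -/
lemma df_inj [Fintype V] (f : V → ℕ)
    (hd : {d : ℕ | ∃ u w : V, G.Adj u w ∧ d = Int.natAbs ((f u : ℤ) - (f w : ℤ))} =
      Set.Icc 1 G.edgeSet.ncard) : Set.InjOn (df f) G.edgeSet := by
  have h1 : df f '' G.edgeSet = Set.Icc 1 G.edgeSet.ncard := by
    rw [← hd]
    ext d
    constructor
    · rintro ⟨e, he, rfl⟩
      induction e with
      | _ u w => exact ⟨u, w, he, rfl⟩
    · rintro ⟨u, w, h, rfl⟩
      exact ⟨s(u, w), h, rfl⟩
  refine Set.injOn_of_ncard_image_eq ?_ (Set.toFinite _)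
  rw [h1, ← Finset.coe_Icc, Set.ncard_coe_finset, Nat.card_Icc]
  omega

end Pool.Agent.Y790.TG.Bigr

namespace Pool.Agent.Y790.TG

open Pool.Agent.Y790.TR

/-- trees with an `α`-labelling are bigraceful -/
theorem bigr : BigrStm := by
  intro V _ G hG hV hA c
  obtain ⟨f, p, hf, hfm, hd, hE⟩ := hA
  have hconn := hG.1
  obtain ⟨a, b, hab⟩ : ∃ a b : V, G.Adj a b := by
    obtain ⟨a, b, hne⟩ := Fintype.one_lt_card_iff.1 (by omega : 1 < Fintype.card V)
    obtain ⟨w⟩ := hconn.preconnected a b
    cases w with
    | nil => exact absurd rfl hne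
    | cons h q => exact ⟨_, _, h⟩
  set m : ℕ := G.edgeSet.ncard with hm
  have hcard : Nat.card G.edgeSet = m := Nat.card_coe_set_eq G.edgeSet
  have hp1 : 1 ≤ p ∧ p ≤ m := by
    have h1 := hE a b hab
    have h2 := hfm a
    have h3 := hfm b
    omega
  have hinj := Bigr.df_inj f hd
  have hedge : ∀ u v u' v' : V, G.Adj u v → G.Adj u' v' → c u = false → c u' = false →
      Int.natAbs ((f u : ℤ) - (f v : ℤ)) = Int.natAbs ((f u' : ℤ) - (f v' : ℤ)) →
      u = u' ∧ v = v' := by
    intro u v u' v' h1 h2 h3 h4 h5
    have h6 : s(u, v) = s(u', v') := hinj h1 h2 h5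
    rw [Sym2.eq_iff] at h6
    rcases h6 with h6 | h6
    · exact h6
    · exfalso
      have h7 : c u' ≠ c v' := c.valid h2
      rw [h6.1.symm, h3, h4] at h7
      exact h7 rfl
  by_cases hcase : (c a = false ↔ f a < p)
  · have hall : ∀ v, (c v = false ↔ f v < p) := by
      intro v
      obtain ⟨w⟩ := hconn.preconnected a v
      exact (Bigr.side c f p hE w).1 hcase
    refine ⟨fun v => if f v < p then f v else f v - 1, fun v => ?_, fun u v h1 h2 => ?_,
      fun u v h1 h2 => ?_, fun u v u' v' h1 h2 h3 h4 h5 => ?_⟩
    · rw [hcard]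
      have := hfm v
      simp only
      split_ifs <;> omega
    · apply hf
      have e1 := hall u
      have e2 := hall v
      rw [h1] at e1
      have e3 : f u < p ↔ f v < p := e1.symm.trans e2
      simp only at h2
      split_ifs at h2 <;> omega
    · have e1 := (hall u).1 h2
      have e2 := hE u v h1
      simp only
      split_ifs <;> omega
    · have e1 := (hall u).1 h3
      have e2 := hE u v h1
      have e3 := (hall u').1 h4
      have e4 := hE u' v' h2
      apply hedge u v u' v' h1 h2 h3 h4
      have e5 : ¬ f v < p := by omega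
      have e6 : ¬ f v' < p := by omega
      simp only [if_pos e1, if_pos e3, if_neg e5, if_neg e6] at h5
      omega
  · have hall : ∀ v, (c v = false ↔ p ≤ f v) := by
      intro v
      obtain ⟨w⟩ := hconn.preconnected a v
      have h1 := (not_congr (Bigr.side c f p hE w)).1 hcase
      by_cases h2 : f v < p
      · cases hc : c v
        · rw [hc] at h1
          exact absurd (iff_of_true rfl h2) h1
        · simp only [reduceCtorEq, false_iff]
          omega
      · cases hc : c v
        · simp only [true_iff]
          omega
        · rw [hc] at h1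
          exact absurd (iff_of_false (by simp) h2) h1
    refine ⟨fun v => if f v < p then m - 1 - f v else m - f v, fun v => ?_, fun u v h1 h2 => ?_,
      fun u v h1 h2 => ?_, fun u v u' v' h1 h2 h3 h4 h5 => ?_⟩
    · rw [hcard]
      have := hfm v
      simp only
      split_ifs <;> omega
    · apply hf
      have e1 := hall u
      have e2 := hall v
      rw [h1] at e1
      have e3 : p ≤ f u ↔ p ≤ f v := e1.symm.trans e2
      have e4 := hfm u
      have e5 := hfm v
      simp only at h2
      split_ifs at h2 <;> omega
    · have e1 := (hall u).1 h2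
      have e2 := hE u v h1
      have e4 := hfm u
      have e5 := hfm v
      simp only
      split_ifs <;> omega
    · have e1 := (hall u).1 h3
      have e2 := hE u v h1
      have e3 := (hall u').1 h4
      have e4 := hE u' v' h2
      apply hedge u v u' v' h1 h2 h3 h4
      have e5 : f v < p := by omega
      have e6 : f v' < p := by omega
      have e7 : ¬ f u < p := by omega
      have e8 : ¬ f u' < p := by omega
      have e9 := hfm u
      have e10 := hfm u'
      simp only [if_pos e5, if_pos e6, if_neg e7, if_neg e8] at h5
      omega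

end Pool.Agent.Y790.TG
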