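import Pool.Agent.Y790.TR.Def4

/-!
# Trees with an alpha-labelling decompose complete bipartite and complete graphs
-/

set_option autoImplicit false
set_option linter.all false

namespace Pool.Agent.Y790.TG.Decomp

open Pool.Agent.Y790.TR

/-- adjacent, the first vertex low and the second one high -/
def LH {V : Type} (G : SimpleGraph V) (f : V → ℕ) (p : ℕ) (x y : V) : Prop :=
  G.Adj x y ∧ f x < p ∧ p ≤ f y

lemma exists_LH {V : Type} (G : SimpleGraph V) (f : V → ℕ) (p : ℕ)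
    (hp : ∀ u w : V, G.Adj u w → (f u < p ∧ p ≤ f w) ∨ (f w < p ∧ p ≤ f u))
    (e : G.edgeSet) : ∃ x y, LH G f p x y ∧ s(x, y) = e.val := by
  obtain ⟨e, he⟩ := e
  induction e with
  | h u w =>
    rw [SimpleGraph.mem_edgeSet] at he
    rcases hp u w he with h | h
    · exact ⟨u, w, ⟨he, h.1, h.2⟩, rfl⟩
    · exact ⟨w, u, ⟨he.symm, h.1, h.2⟩, Sym2.eq_swap⟩

/-- the absolute difference of the labels of an edge -/
def dif {V : Type} (f : V → ℕ) : Sym2 V → ℕ :=
  Sym2.lift ⟨fun u w => Int.natAbs ((f u : ℤ) - (f w : ℤ)), fun u w => by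
    dsimp only
    omega⟩

lemma dif_mk {V : Type} (f : V → ℕ) (u w : V) :
    dif f s(u, w) = Int.natAbs ((f u : ℤ) - (f w : ℤ)) := rfl

lemma dif_inj {V : Type} [Fintype V] (G : SimpleGraph V) (f : V → ℕ)
    (hd : {d : ℕ | ∃ u w : V, G.Adj u w ∧ d = Int.natAbs ((f u : ℤ) - (f w : ℤ))} =
      Set.Icc 1 G.edgeSet.ncard) : Set.InjOn (dif f) G.edgeSet := by
  have h1 : dif f '' G.edgeSet =
      {d : ℕ | ∃ u w : V, G.Adj u w ∧ d = Int.natAbs ((f u : ℤ) - (f w : ℤ))} := by
    ext d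
    constructor
    · rintro ⟨e, he, rfl⟩
      induction e with
      | h u w => exact ⟨u, w, he, rfl⟩
    · rintro ⟨u, w, huw, rfl⟩
      exact ⟨s(u, w), huw, rfl⟩
  have hfin : G.edgeSet.Finite := Set.toFinite _
  refine Set.injOn_of_ncard_image_eq ?_ hfin
  rw [h1, hd]
  have : (Set.Icc 1 G.edgeSet.ncard : Set ℕ) = ↑(Finset.Icc 1 G.edgeSet.ncard) := by simp
  rw [this, Set.ncard_coe_finset, Nat.card_Icc]
  omega

lemma LH_unique {V : Type} [Fintype V] (G : SimpleGraph V) (f : V → ℕ) (p : ℕ)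
    (hd : {d : ℕ | ∃ u w : V, G.Adj u w ∧ d = Int.natAbs ((f u : ℤ) - (f w : ℤ))} =
      Set.Icc 1 G.edgeSet.ncard) (x y x' y' : V) (h : LH G f p x y) (h' : LH G f p x' y')
    (he : (f y : ℤ) - f x = f y' - f x') : x = x' ∧ y = y' := by
  have h1 := dif_inj G f hd (show s(x, y) ∈ G.edgeSet from h.1)
    (show s(x', y') ∈ G.edgeSet from h'.1) (by
      rw [dif_mk, dif_mk]
      omega)
  rw [Sym2.eq_iff] at h1
  rcases h1 with h2 | h2
  · exact h2
  · exfalso
    have h3 := h.2.1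
    have h4 := h'.2.2
    rw [h2.1] at h3
    omega

lemma LH_exists {V : Type} [Fintype V] (G : SimpleGraph V) (f : V → ℕ) (p : ℕ)
    (hp : ∀ u w : V, G.Adj u w → (f u < p ∧ p ≤ f w) ∨ (f w < p ∧ p ≤ f u))
    (hd : {d : ℕ | ∃ u w : V, G.Adj u w ∧ d = Int.natAbs ((f u : ℤ) - (f w : ℤ))} =
      Set.Icc 1 G.edgeSet.ncard) (d : ℕ) (h1 : 1 ≤ d) (h2 : d ≤ G.edgeSet.ncard) :
    ∃ x y, LH G f p x y ∧ f y = f x + d := by
  have h3 : d ∈ {d : ℕ | ∃ u w : V, G.Adj u w ∧ d = Int.natAbs ((f u : ℤ) - (f w : ℤ))} := by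
    rw [hd]
    exact ⟨h1, h2⟩
  obtain ⟨u, w, huw, h4⟩ := h3
  rcases hp u w huw with h | h
  · exact ⟨u, w, ⟨huw, h.1, h.2⟩, by omega⟩
  · exact ⟨w, u, ⟨huw.symm, h.1, h.2⟩, by omega⟩

lemma decomposes {V W : Type} (G : SimpleGraph V) (H : SimpleGraph W) (f : V → ℕ) (p : ℕ)
    (hp : ∀ u w : V, G.Adj u w → (f u < p ∧ p ≤ f w) ∨ (f w < p ∧ p ≤ f u))
    (ι : Type) (φ : ι → V → W) (h1 : ∀ i, Function.Injective (φ i))
    (h2 : ∀ i u v, LH G f p u v → H.Adj (φ i u) (φ i v))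
    (h3 : ∀ e ∈ H.edgeSet, ∃ i x y, LH G f p x y ∧ s(φ i x, φ i y) = e)
    (h4 : ∀ i x y i' x' y', LH G f p x y → LH G f p x' y' →
      s(φ i x, φ i y) = s(φ i' x', φ i' y') → i = i' ∧ x = x' ∧ y = y') : Decomposes G H := by
  refine ⟨ι, φ, h1, fun i u v huv => ?_, fun e he => ?_⟩
  · rcases hp u v huv with h | h
    · exact h2 i u v ⟨huv, h⟩
    · exact (h2 i v u ⟨huv.symm, h⟩).symm
  · obtain ⟨i, x, y, hxy, rfl⟩ := h3 e he
    refine ⟨(i, ⟨s(x, y), hxy.1⟩), by simp [Sym2.map_mk], ?_⟩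
    rintro ⟨i', e'⟩ h
    obtain ⟨x', y', hxy', he'⟩ := exists_LH G f p hp e'
    have h5 : s(φ i' x', φ i' y') = s(φ i x, φ i y) := by
      rw [← h]
      simp only
      rw [← he', Sym2.map_mk]
    obtain ⟨rfl, rfl, rfl⟩ := h4 _ _ _ _ _ _ hxy' hxy h5
    refine Prod.ext rfl (Subtype.ext ?_)
    exact he'.symm

lemma exists_t (n a i : ℕ) (ha : a < n) (hi : i < n) : ∃ t < n, (a + t) % n = i := by
  by_cases h : a ≤ i
  · refine ⟨i - a, by omega, ?_⟩
    rw [Nat.add_sub_cancel' h, Nat.mod_eq_of_lt hi]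
  · refine ⟨i + n - a, by omega, ?_⟩
    rw [show a + (i + n - a) = i + n by omega, Nat.add_mod_right, Nat.mod_eq_of_lt hi]

lemma exists_d (n i j : ℕ) (hi : i < n) (hj : j < n) :
    ∃ d, 1 ≤ d ∧ d ≤ n ∧ (i + d) % n = j := by
  by_cases h : i < j
  · refine ⟨j - i, by omega, by omega, ?_⟩
    rw [Nat.add_sub_cancel' h.le, Nat.mod_eq_of_lt hj]
  · refine ⟨j + n - i, by omega, by omega, ?_⟩
    rw [show i + (j + n - i) = j + n by omega, Nat.add_mod_right, Nat.mod_eq_of_lt hj]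

lemma dvd_of_mod {n u v : ℕ} (h : u % n = v % n) : (n : ℤ) ∣ (v : ℤ) - u :=
  Nat.modEq_iff_dvd.1 h

lemma mod_add {n u i d : ℕ} (h : u % n = i) : (u + d) % n = (i + d) % n := by
  rw [← h, Nat.mod_add_mod]

/-- the two labels of a vertex modulo `m` -/
lemma same_side {V : Type} (f : V → ℕ) (hf : Function.Injective f) (m t : ℕ) (u v : V)
    (h : (f u + t) % m = (f v + t) % m) (h1 : |(f v : ℤ) - f u| < m) : u = v := by
  have h2 := dvd_of_mod h
  have h3 : (m : ℤ) ∣ (f v : ℤ) - f u := by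
    have : ((f v + t : ℕ) : ℤ) - ((f u + t : ℕ) : ℤ) = (f v : ℤ) - f u := by push_cast; ring
    rwa [this] at h2
  have h4 := Int.eq_zero_of_abs_lt_dvd h3 h1
  apply hf
  omega

theorem bip (V : Type) [Fintype V] (G : SimpleGraph V) (f : V → ℕ) (p : ℕ)
    (hm : 1 ≤ G.edgeSet.ncard) (hf : Function.Injective f) (hle : ∀ u, f u ≤ G.edgeSet.ncard)
    (hd : {d : ℕ | ∃ u w : V, G.Adj u w ∧ d = Int.natAbs ((f u : ℤ) - (f w : ℤ))} =
      Set.Icc 1 G.edgeSet.ncard)
    (hp : ∀ u w : V, G.Adj u w → (f u < p ∧ p ≤ f w) ∨ (f w < p ∧ p ≤ f u)) (a b : ℕ) :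
    Decomposes G (completeBipartiteGraph (Fin (G.edgeSet.ncard * a))
      (Fin (G.edgeSet.ncard * b))) := by
  classical
  set m := G.edgeSet.ncard with hmdef
  obtain ⟨x0, y0, hxy0, _⟩ := LH_exists G f p hp hd 1 le_rfl hm
  have hp1 : 1 ≤ p := by have := hxy0.2.1; omega
  have hpm : p ≤ m := le_trans hxy0.2.2 (hle y0)
  have hlow : ∀ u v : V, f u < p → f v < p → |(f v : ℤ) - f u| < m := by
    intro u v hu hv
    rw [abs_lt]
    omega
  have hhigh : ∀ u v : V, ¬ f u < p → ¬ f v < p → |(f v : ℤ) - f u| < m := by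
    intro u v hu hv
    have := hle u
    have := hle v
    rw [abs_lt]
    omega
  have hlt : ∀ (t : Fin m) (v : V), (f v + t) % m < m := fun t v => Nat.mod_lt _ (by omega)
  let φ : Fin m × Fin a × Fin b → V → Fin (m * a) ⊕ Fin (m * b) := fun i v =>
    if f v < p then Sum.inl (finProdFinEquiv (⟨(f v + i.1) % m, hlt i.1 v⟩, i.2.1))
    else Sum.inr (finProdFinEquiv (⟨(f v + i.1) % m, hlt i.1 v⟩, i.2.2))
  have hφl : ∀ i v, f v < p → φ i v =
      Sum.inl (finProdFinEquiv (⟨(f v + i.1) % m, hlt i.1 v⟩, i.2.1)) := fun i v h => by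
    simp only [φ, if_pos h]
  have hφr : ∀ i v, ¬ f v < p → φ i v =
      Sum.inr (finProdFinEquiv (⟨(f v + i.1) % m, hlt i.1 v⟩, i.2.2)) := fun i v h => by
    simp only [φ, if_neg h]
  refine decomposes G _ f p hp (Fin m × Fin a × Fin b) φ ?_ ?_ ?_ ?_
  · intro i u v h
    by_cases hu : f u < p <;> by_cases hv : f v < p
    · rw [hφl i u hu, hφl i v hv] at h
      have h1 := (Prod.ext_iff.1 (finProdFinEquiv.injective (Sum.inl.inj h))).1
      exact same_side f hf m i.1 u v (congrArg Fin.val h1) (hlow u v hu hv)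
    · rw [hφl i u hu, hφr i v hv] at h
      cases h
    · rw [hφr i u hu, hφl i v hv] at h
      cases h
    · rw [hφr i u hu, hφr i v hv] at h
      have h1 := (Prod.ext_iff.1 (finProdFinEquiv.injective (Sum.inr.inj h))).1
      exact same_side f hf m i.1 u v (congrArg Fin.val h1) (hhigh u v hu hv)
  · intro i u v h
    rw [hφl i u h.2.1, hφr i v (not_lt.2 h.2.2)]
    simp
  · have main : ∀ (i0 j0 : Fin m) (s : Fin a) (r : Fin b), ∃ i x y, LH G f p x y ∧
        s(φ i x, φ i y) = s(Sum.inl (finProdFinEquiv (i0, s)), Sum.inr (finProdFinEquiv (j0, r))) := by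
      intro i0 j0 s r
      obtain ⟨d, hd1, hd2, hd3⟩ := exists_d m i0 j0 i0.2 j0.2
      obtain ⟨x, y, hxy, hyx⟩ := LH_exists G f p hp hd d hd1 hd2
      obtain ⟨t, ht, ht2⟩ := exists_t m (f x) i0 (lt_of_lt_of_le hxy.2.1 hpm) i0.2
      refine ⟨(⟨t, ht⟩, s, r), x, y, hxy, ?_⟩
      have e1 : (⟨(f x + t) % m, hlt ⟨t, ht⟩ x⟩ : Fin m) = i0 := Fin.ext ht2
      have e2 : (⟨(f y + t) % m, hlt ⟨t, ht⟩ y⟩ : Fin m) = j0 := Fin.ext (by
        show (f y + t) % m = j0
        rw [hyx, show f x + d + t = f x + t + d by ring, mod_add ht2, hd3])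
      rw [hφl _ x hxy.2.1, hφr _ y (not_lt.2 hxy.2.2)]
      show s(Sum.inl (finProdFinEquiv (⟨(f x + t) % m, hlt ⟨t, ht⟩ x⟩, s)),
        Sum.inr (finProdFinEquiv (⟨(f y + t) % m, hlt ⟨t, ht⟩ y⟩, r))) = _
      rw [e1, e2]
    intro e he
    induction e with
    | h u v =>
      rw [SimpleGraph.mem_edgeSet, completeBipartiteGraph_adj] at he
      rcases u with u | u <;> rcases v with v | v
      · simp at he
      · obtain ⟨⟨i0, s⟩, rfl⟩ := finProdFinEquiv.surjective u
        obtain ⟨⟨j0, r⟩, rfl⟩ := finProdFinEquiv.surjective v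
        exact main i0 j0 s r
      · obtain ⟨⟨i0, s⟩, rfl⟩ := finProdFinEquiv.surjective v
        obtain ⟨⟨j0, r⟩, rfl⟩ := finProdFinEquiv.surjective u
        rw [Sym2.eq_swap]
        exact main i0 j0 s r
      · simp at he
  · intro i x y i' x' y' hxy hxy' h
    rw [hφl i x hxy.2.1, hφr i y (not_lt.2 hxy.2.2), hφl i' x' hxy'.2.1,
      hφr i' y' (not_lt.2 hxy'.2.2), Sym2.eq_iff] at h
    rcases h with ⟨h1, h2⟩ | ⟨h1, h2⟩
    swap
    · cases h1
    obtain ⟨h3, h4⟩ := Prod.ext_iff.1 (finProdFinEquiv.injective (Sum.inl.inj h1))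
    obtain ⟨h5, h6⟩ := Prod.ext_iff.1 (finProdFinEquiv.injective (Sum.inr.inj h2))
    have h7 := dvd_of_mod (congrArg Fin.val h3)
    have h8 := dvd_of_mod (congrArg Fin.val h5)
    have h9 := dvd_sub h8 h7
    have hy := hle y
    have hy' := hle y'
    have b1 := hxy.2.1
    have b2 := hxy.2.2
    have b3 := hxy'.2.1
    have b4 := hxy'.2.2
    have h10 : (f y : ℤ) - f x = f y' - f x' := by
      have h11 := Int.eq_zero_of_abs_lt_dvd h9 (by
        rw [abs_lt]
        push_cast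
        constructor <;> omega)
      push_cast at h11
      omega
    obtain ⟨rfl, rfl⟩ := LH_unique G f p hd x y x' y' hxy hxy' h10
    refine ⟨?_, rfl, rfl⟩
    have h12 : i.1 = i'.1 := by
      apply Fin.ext
      have h13 : (m : ℤ) ∣ (i'.1 : ℕ) - (i.1 : ℕ) := by
        have : ((f x + i'.1 : ℕ) : ℤ) - ((f x + i.1 : ℕ) : ℤ) = ((i'.1 : ℕ) : ℤ) - (i.1 : ℕ) := by
          push_cast; ring
        rwa [this] at h7
      have h14 := Int.eq_zero_of_abs_lt_dvd h13 (by
        have := i.1.2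
        have := i'.1.2
        rw [abs_lt]
        constructor <;> omega)
      omega
    exact Prod.ext h12 (Prod.ext h4 h6)

theorem comp (V : Type) [Fintype V] (G : SimpleGraph V) (f : V → ℕ) (p : ℕ)
    (hm : 1 ≤ G.edgeSet.ncard) (hf : Function.Injective f) (hle : ∀ u, f u ≤ G.edgeSet.ncard)
    (hd : {d : ℕ | ∃ u w : V, G.Adj u w ∧ d = Int.natAbs ((f u : ℤ) - (f w : ℤ))} =
      Set.Icc 1 G.edgeSet.ncard)
    (hp : ∀ u w : V, G.Adj u w → (f u < p ∧ p ≤ f w) ∨ (f w < p ∧ p ≤ f u)) (a : ℕ) (ha : 1 ≤ a) :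
    Decomposes G (⊤ : SimpleGraph (Fin (2 * G.edgeSet.ncard * a + 1))) := by
  classical
  set m := G.edgeSet.ncard with hmdef
  set n := 2 * m * a + 1 with hn
  obtain ⟨x0, y0, hxy0, _⟩ := LH_exists G f p hp hd 1 le_rfl hm
  have hp1 : 1 ≤ p := by have := hxy0.2.1; omega
  have hpm : p ≤ m := le_trans hxy0.2.2 (hle y0)
  have hn0 : 0 < n := by omega
  have hn2 : n = m * a + m * a + 1 := by rw [hn]; ring
  have hma : m ≤ m * a := Nat.le_mul_of_pos_right m ha
  -- the label shifted by c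
  let g : ℕ → V → ℕ := fun c v => if f v < p then f v else f v + m * c
  have hgl : ∀ c v, f v < p → g c v = f v := fun c v h => by simp only [g, if_pos h]
  have hgr : ∀ c v, ¬ f v < p → g c v = f v + m * c := fun c v h => by simp only [g, if_neg h]
  have hmc : ∀ c : Fin a, m * c + m ≤ m * a := by
    intro c
    calc m * c + m = m * (c + 1) := by ring
      _ ≤ m * a := Nat.mul_le_mul_left m c.2
  have hgle : ∀ (c : Fin a) v, g c v ≤ m * a := by
    intro c v
    have h1 := hmc c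
    have h2 := hle v
    by_cases h : f v < p
    · rw [hgl _ _ h]
      omega
    · rw [hgr _ _ h]
      omega
  have hginj : ∀ (c : Fin a) u v, g c u = g c v → u = v := by
    intro c u v h
    apply hf
    by_cases hu : f u < p <;> by_cases hv : f v < p
    · rw [hgl _ _ hu, hgl _ _ hv] at h
      exact h
    · rw [hgl _ _ hu, hgr _ _ hv] at h
      omega
    · rw [hgr _ _ hu, hgl _ _ hv] at h
      omega
    · rw [hgr _ _ hu, hgr _ _ hv] at h
      omega
  let φ : Fin n × Fin a → V → Fin n := fun i v => ⟨(g i.2 v + i.1) % n, Nat.mod_lt _ hn0⟩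
  have hφinj : ∀ i, Function.Injective (φ i) := by
    intro i u v h
    apply hginj i.2
    have h1 := dvd_of_mod (congrArg Fin.val h)
    have h2 : (n : ℤ) ∣ (g i.2 v : ℤ) - g i.2 u := by
      have : ((g i.2 v + i.1 : ℕ) : ℤ) - ((g i.2 u + i.1 : ℕ) : ℤ) =
          (g i.2 v : ℤ) - g i.2 u := by push_cast; ring
      rwa [this] at h1
    have h3 := hgle i.2 u
    have h4 := hgle i.2 v
    have h5 := Int.eq_zero_of_abs_lt_dvd h2 (by
      rw [abs_lt]
      constructor <;> omega)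
    omega
  -- the difference of an edge
  have hdiff : ∀ (c : Fin a) x y, LH G f p x y → g c x = f x ∧ g c y = f y + m * c ∧
      1 ≤ f y + m * c - f x ∧ f y + m * c - f x ≤ m * a ∧ f x < f y := by
    intro c x y h
    have h1 := h.2.1
    have h2 := h.2.2
    have h3 := hle y
    have h4 := hmc c
    exact ⟨hgl _ _ h1, hgr _ _ (not_lt.2 h2), by omega, by omega, by omega⟩
  refine decomposes G _ f p hp (Fin n × Fin a) φ hφinj ?_ ?_ ?_
  · intro i u v h
    rw [SimpleGraph.top_adj]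
    intro h'
    exact h.1.ne (hφinj i h')
  · have main : ∀ (i j : ℕ) (D : ℕ) (hi : i < n) (hj : j < n), 1 ≤ D → D ≤ m * a →
        (i + D) % n = j → ∃ ι x y, LH G f p x y ∧ s(φ ι x, φ ι y) =
          s((⟨i, hi⟩ : Fin n), (⟨j, hj⟩ : Fin n)) := by
      intro i j D hi hj hD1 hD2 hD3
      have hc : (D - 1) / m < a := by
        rw [Nat.div_lt_iff_lt_mul hm, mul_comm]
        omega
      have hdm := Nat.div_add_mod (D - 1) m
      have hlt : (D - 1) % m < m := Nat.mod_lt _ hm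
      obtain ⟨x, y, hxy, hyx⟩ := LH_exists G f p hp hd ((D - 1) % m + 1) (by omega) (by omega)
      have hx := hle x
      obtain ⟨t, ht, ht2⟩ := exists_t n (f x) i (by omega) hi
      refine ⟨(⟨t, ht⟩, ⟨(D - 1) / m, hc⟩), x, y, hxy, ?_⟩
      have e1 : φ (⟨t, ht⟩, ⟨(D - 1) / m, hc⟩) x = ⟨i, hi⟩ := by
        apply Fin.ext
        show (g ((D - 1) / m) x + t) % n = i
        rw [hgl _ _ hxy.2.1, ht2]
      have e2 : φ (⟨t, ht⟩, ⟨(D - 1) / m, hc⟩) y = ⟨j, hj⟩ := by
        apply Fin.ext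
        show (g ((D - 1) / m) y + t) % n = j
        rw [hgr _ _ (not_lt.2 hxy.2.2), hyx]
        have : f x + ((D - 1) % m + 1) + m * ((D - 1) / m) + t = f x + t + D := by omega
        rw [this, mod_add ht2, hD3]
      rw [e1, e2]
    intro e he
    induction e with
    | h u v =>
      have huv : u ≠ v := he
      have huv' : (u : ℕ) ≠ v := fun h => huv (Fin.ext h)
      have hu := u.2
      have hv := v.2
      obtain ⟨D, hD1, hD2, hD3⟩ := exists_d n u v hu hv
      have hDn : D ≠ n := by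
        rintro rfl
        rw [Nat.add_mod_right, Nat.mod_eq_of_lt hu] at hD3
        exact huv' hD3
      by_cases hD : D ≤ m * a
      · exact main u v D hu hv hD1 hD hD3
      · have h5 : (v + (n - D)) % n = u := by
          have h6 : (v : ℕ) + (n - D) = (u + D) % n + (n - D) := by rw [hD3]
          rw [h6, Nat.mod_add_mod, show (u : ℕ) + D + (n - D) = u + n by omega,
            Nat.add_mod_right, Nat.mod_eq_of_lt hu]
        rw [Sym2.eq_swap]
        exact main v u (n - D) hv hu (by omega) (by omega) h5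
  · intro i x y i' x' y' hxy hxy' h
    obtain ⟨a1, a2, a3, a4, a5⟩ := hdiff i.2 x y hxy
    obtain ⟨b1, b2, b3, b4, b5⟩ := hdiff i'.2 x' y' hxy'
    rw [Sym2.eq_iff] at h
    rcases h with ⟨h1, h2⟩ | ⟨h1, h2⟩
    · have h7 := dvd_of_mod (congrArg Fin.val h1)
      have h8 := dvd_of_mod (congrArg Fin.val h2)
      have h9 := dvd_sub h8 h7
      rw [a1, b1] at h7
      rw [a1, a2, b1, b2] at h9
      have h11 := Int.eq_zero_of_abs_lt_dvd h9 (by
        rw [abs_lt]
        push_cast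
        constructor <;> omega)
      push_cast at h11
      have hy := hle y
      have hy' := hle y'
      -- now the quotients
      have hc : (i.2 : ℕ) = i'.2 := by
        have l1 := hxy.2.1
        have l2 := hxy.2.2
        have l3 := hxy'.2.1
        have l4 := hxy'.2.2
        rcases lt_trichotomy (i.2 : ℕ) i'.2 with hlt | heq | hgt
        · exfalso
          have : (m : ℤ) * (i.2 : ℕ) + m ≤ m * (i'.2 : ℕ) := by
            have h20 : m * (i.2 : ℕ) + m ≤ m * (i'.2 : ℕ) := by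
              calc m * (i.2 : ℕ) + m = m * (i.2 + 1) := by ring
                _ ≤ m * (i'.2 : ℕ) := Nat.mul_le_mul_left m hlt
            exact_mod_cast h20
          omega
        · exact heq
        · exfalso
          have : (m : ℤ) * (i'.2 : ℕ) + m ≤ m * (i.2 : ℕ) := by
            have h20 : m * (i'.2 : ℕ) + m ≤ m * (i.2 : ℕ) := by
              calc m * (i'.2 : ℕ) + m = m * (i'.2 + 1) := by ring
                _ ≤ m * (i.2 : ℕ) := Nat.mul_le_mul_left m hgt
            exact_mod_cast h20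
          omega
      rw [hc] at h11
      obtain ⟨rfl, rfl⟩ := LH_unique G f p hd x y x' y' hxy hxy' (by omega)
      refine ⟨?_, rfl, rfl⟩
      have h13 : (n : ℤ) ∣ ((i'.1 : ℕ) : ℤ) - (i.1 : ℕ) := by
        have : ((f x + i'.1 : ℕ) : ℤ) - ((f x + i.1 : ℕ) : ℤ) = ((i'.1 : ℕ) : ℤ) - (i.1 : ℕ) := by
          push_cast; ring
        rwa [this] at h7
      have h14 := Int.eq_zero_of_abs_lt_dvd h13 (by
        have := i.1.2
        have := i'.1.2
        rw [abs_lt]
        constructor <;> omega)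
      exact Prod.ext (Fin.ext (by omega)) (Fin.ext hc)
    · exfalso
      have h7 := dvd_of_mod (congrArg Fin.val h1)
      have h8 := dvd_of_mod (congrArg Fin.val h2)
      have h9 := dvd_sub h8 h7
      rw [a1, a2, b1, b2] at h9
      have h11 := Int.eq_zero_of_abs_lt_dvd h9 (by
        rw [abs_lt]
        push_cast
        constructor <;> omega)
      push_cast at h11
      omega

end Pool.Agent.Y790.TG.Decomp

namespace Pool.Agent.Y790.TG

open Pool.Agent.Y790.TR

theorem decomp : DecompStm := by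
  intro V _ G hG hV hA a b ha hb
  obtain ⟨f, p, hf, hle, hd, hp⟩ := hA
  have hm : 1 ≤ G.edgeSet.ncard := by
    classical
    have h1 : G.edgeSet.ncard + 1 = Fintype.card V := by
      rw [← hG.card_edgeFinset, ← SimpleGraph.coe_edgeFinset, Set.ncard_coe_finset]
    omega
  exact ⟨Decomp.bip V G f p hm hf hle hd hp a b, Decomp.comp V G f p hm hf hle hd hp a ha⟩

end Pool.Agent.Y790.TG
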