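import Pool.Agent.Y790.TR.Def4

/-!
# Trees with an `α`-labelling are harmonious (helper394)
-/

set_option autoImplicit false

namespace Pool.Agent.Y790.TG

namespace Harm

open Pool.Agent.Y790.TR

lemma ncard_edge {V : Type} [Fintype V] (G : SimpleGraph V) (hG : G.IsTree) :
    G.edgeSet.ncard = Fintype.card V - 1 := by
  classical
  have h := hG.card_edgeFinset
  rw [Set.ncard_eq_toFinset_card']
  change G.edgeFinset.card = _
  omega

/-- the difference of the labels of an edge -/
def dl {V : Type} (f : V → ℕ) : Sym2 V → ℕ :=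
  Sym2.lift ⟨fun u w => Int.natAbs ((f u : ℤ) - (f w : ℤ)), fun u w => by
    change Int.natAbs ((f u : ℤ) - (f w : ℤ)) = Int.natAbs ((f w : ℤ) - (f u : ℤ))
    omega⟩

lemma dl_mk {V : Type} (f : V → ℕ) (u w : V) :
    dl f s(u, w) = Int.natAbs ((f u : ℤ) - (f w : ℤ)) := rfl

/-- different edges have different differences -/
lemma inj_dl {V : Type} [Fintype V] (G : SimpleGraph V) (f : V → ℕ)
    (h : {d : ℕ | ∃ u w : V, G.Adj u w ∧ d = Int.natAbs ((f u : ℤ) - (f w : ℤ))} =
      Set.Icc 1 G.edgeSet.ncard) : Set.InjOn (dl f) G.edgeSet := by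
  have h1 : dl f '' G.edgeSet = Set.Icc 1 G.edgeSet.ncard := by
    rw [← h]
    ext d
    constructor
    · rintro ⟨e, he, rfl⟩
      induction e with
      | h u w => exact ⟨u, w, he, rfl⟩
    · rintro ⟨u, w, huw, rfl⟩
      exact ⟨s(u, w), huw, rfl⟩
  rw [← Set.ncard_image_iff (Set.toFinite _), h1, Set.ncard_eq_toFinset_card', Set.toFinset_Icc,
    Nat.card_Icc, Nat.add_sub_cancel]

/-- the labels -/
def gl {V : Type} (f : V → ℕ) (p : ℕ) (x : V) : ℕ := if f x < p then p - 1 - f x else f x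

lemma sum_gl {V : Type} (f : V → ℕ) (p : ℕ) (u w : V)
    (h : (f u < p ∧ p ≤ f w) ∨ (f w < p ∧ p ≤ f u)) :
    gl f p u + gl f p w = p - 1 + Int.natAbs ((f u : ℤ) - (f w : ℤ)) := by
  unfold gl
  split_ifs <;> omega

/-- trees with an `α`-labelling are harmonious (`HarmStm` with `s(a, b) = s(c, d)`) -/
def HarmStm2 : Prop := ∀ (V : Type) [Fintype V] (G : SimpleGraph V), G.IsTree → 2 ≤ Fintype.card V →
  Alph G → ∃ l : V → ZMod (Fintype.card V - 1),
    (∃ r : ZMod (Fintype.card V - 1), {v | l v = r}.ncard = 2 ∧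
      ∀ s : ZMod (Fintype.card V - 1), s ≠ r → {v | l v = s}.ncard = 1) ∧
    ∀ a b c d : V, G.Adj a b → G.Adj c d → l a + l b = l c + l d → s(a, b) = s(c, d)

end Harm

open Pool.Agent.Y790.TR Harm

/-- trees with an `α`-labelling are harmonious -/
theorem harm : HarmStm2 := by
  intro V _ G hG hV hA
  obtain ⟨f, p, hf, hfm, hd, hp⟩ := hA
  have hinj := inj_dl G f hd
  have hcard := ncard_edge G hG
  rw [hcard] at hfm hd
  obtain ⟨m, hm⟩ : ∃ m, Fintype.card V = m + 1 := ⟨Fintype.card V - 1, by omega⟩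
  have hm' : Fintype.card V - 1 = m := by omega
  rw [hm'] at hfm hd ⊢
  have hm1 : 1 ≤ m := by omega
  have hne : NeZero m := ⟨by omega⟩
  -- the threshold
  obtain ⟨hp1, hpm⟩ : 1 ≤ p ∧ p ≤ m := by
    have h1 : (1 : ℕ) ∈ Set.Icc 1 m := ⟨le_rfl, hm1⟩
    rw [← hd] at h1
    obtain ⟨u, w, huw, -⟩ := h1
    have h2 := hfm u
    have h3 := hfm w
    rcases hp u w huw with h | h <;> omega
  -- the labels
  have hgm : ∀ x, gl f p x ≤ m := by
    intro x
    have := hfm x
    unfold gl
    split_ifs <;> omega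
  have hgi : Function.Injective (gl f p) := by
    intro x y hxy
    apply hf
    unfold gl at hxy
    split_ifs at hxy <;> omega
  have hgs : ∀ k ≤ m, ∃ x, gl f p x = k := by
    intro k hk
    let F : V → Fin (m + 1) := fun x => ⟨gl f p x, Nat.lt_succ_of_le (hgm x)⟩
    have hF : Function.Injective F := fun x y hxy => hgi (congrArg Fin.val hxy)
    have hFb : Function.Bijective F := by
      rw [Fintype.bijective_iff_injective_and_card]
      exact ⟨hF, by rw [hm, Fintype.card_fin]⟩
    obtain ⟨x, hx⟩ := hFb.2 ⟨k, Nat.lt_succ_of_le hk⟩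
    exact ⟨x, congrArg Fin.val hx⟩
  refine ⟨fun x => (gl f p x : ZMod m), ⟨0, ?_, ?_⟩, ?_⟩
  · obtain ⟨x, hx⟩ := hgs 0 (Nat.zero_le _)
    obtain ⟨y, hy⟩ := hgs m le_rfl
    have hxy : x ≠ y := by
      rintro rfl
      omega
    have h1 : {v | (gl f p v : ZMod m) = 0} = {x, y} := by
      ext v
      rw [Set.mem_ofPred_eq, ZMod.natCast_eq_zero_iff, Set.mem_insert_iff, Set.mem_singleton_iff]
      constructor
      · rintro ⟨c, hc⟩
        have h2 := hgm v
        rcases Nat.eq_zero_or_pos c with rfl | h3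
        · left
          apply hgi
          rw [hc, hx, mul_zero]
        · right
          apply hgi
          rw [hy]
          apply le_antisymm h2
          rw [hc]
          exact Nat.le_mul_of_pos_right m h3
      · rintro (rfl | rfl)
        · rw [hx]; exact dvd_zero _
        · rw [hy]
    rw [h1, Set.ncard_pair hxy]
  · intro s hs
    obtain ⟨x, hx⟩ := hgs s.val (ZMod.val_lt s).le
    have h1 : {v | (gl f p v : ZMod m) = s} = {x} := by
      ext v
      rw [Set.mem_ofPred_eq, Set.mem_singleton_iff]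
      constructor
      · intro h
        apply hgi
        rw [hx]
        rcases (hgm v).lt_or_eq with h2 | h2
        · rw [← h, ZMod.val_natCast, Nat.mod_eq_of_lt h2]
        · exfalso
          apply hs
          rw [← h, h2, ZMod.natCast_self]
      · rintro rfl
        rw [hx, ZMod.natCast_zmod_val]
    rw [h1, Set.ncard_singleton]
  · intro a b c d hab hcd h
    apply hinj (show s(a, b) ∈ G.edgeSet from hab) (show s(c, d) ∈ G.edgeSet from hcd)
    rw [dl_mk, dl_mk]
    have h1 := sum_gl f p a b (hp a b hab)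
    have h2 := sum_gl f p c d (hp c d hcd)
    have h3 : ((gl f p a + gl f p b : ℕ) : ZMod m) = ((gl f p c + gl f p d : ℕ) : ZMod m) := by
      push_cast
      exact h
    rw [h1, h2] at h3
    have h4 : Int.natAbs ((f a : ℤ) - (f b : ℤ)) ∈ Set.Icc 1 m := by
      rw [← hd]; exact ⟨a, b, hab, rfl⟩
    have h5 : Int.natAbs ((f c : ℤ) - (f d : ℤ)) ∈ Set.Icc 1 m := by
      rw [← hd]; exact ⟨c, d, hcd, rfl⟩
    generalize Int.natAbs ((f a : ℤ) - (f b : ℤ)) = δ₁ at h3 h4
    generalize Int.natAbs ((f c : ℤ) - (f d : ℤ)) = δ₂ at h3 h5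
    push_cast at h3
    have h6 : ((δ₁ : ℕ) : ZMod m) = ((δ₂ : ℕ) : ZMod m) := by
      simpa using h3
    rw [ZMod.natCast_eq_natCast_iff, Nat.modEq_iff_dvd] at h6
    obtain ⟨q, hq⟩ := h6
    obtain ⟨h4a, h4b⟩ := h4
    obtain ⟨h5a, h5b⟩ := h5
    have hq0 : q = 0 := by
      have hm' : (1 : ℤ) ≤ m := by exact_mod_cast hm1
      by_contra hq0
      rcases lt_or_gt_of_ne hq0 with hlt | hgt
      · have : (m : ℤ) * q ≤ m * (-1) := mul_le_mul_of_nonneg_left (by omega) (by omega)
        omega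
      · have : (m : ℤ) * 1 ≤ m * q := mul_le_mul_of_nonneg_left (by omega) (by omega)
        omega
    rw [hq0, mul_zero] at hq
    omega

end Pool.Agent.Y790.TG
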