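import Pool.Agent.Y790.TR.Def5
import Pool.Agent.Y790.TG.Decomp

/-!
# Trees with an `α`-labelling decompose Cayley graphs
-/

set_option autoImplicit false

namespace Pool.Agent.Y790.TG.Cay

open Pool.Agent.Y790.TR Pool.Agent.Y790.TG.Decomp

variable {V : Type} {Γ : Type} [Group Γ]

/-- the place of a low vertex -/
def lo (d : Γ) (f : V → ℕ) (g : Γ) (x : V) : Γ := g * d ^ f x

/-- the place of a high vertex -/
def hi (d s : Γ) (f : V → ℕ) (g : Γ) (y : V) : Γ := g * (d ^ (f y - 1) * s)

lemma lo_hi (d s : Γ) (f : V → ℕ) (g : Γ) (x y : V) (i : ℕ) (h : f y = f x + i + 1) :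
    hi d s f g y = lo d f g x * (d ^ i * s) := by
  unfold lo hi
  rw [h, Nat.add_sub_cancel, pow_add]
  group

lemma lo_inj (d s : Γ) (f : V → ℕ) (m : ℕ) (hf : Function.Injective f)
    (hd : ∀ i j : ℕ, i < m → j < m → d ^ i * s = d ^ j * s → i = j) (g : Γ) (x x' : V)
    (hx : f x < m) (hx' : f x' < m) (h : lo d f g x = lo d f g x') : x = x' := by
  unfold lo at h
  apply hf
  apply hd _ _ hx hx'
  rw [mul_left_cancel h]

lemma hi_inj (d s : Γ) (f : V → ℕ) (m : ℕ) (hf : Function.Injective f)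
    (hd : ∀ i j : ℕ, i < m → j < m → d ^ i * s = d ^ j * s → i = j) (g : Γ) (y y' : V)
    (hy : 1 ≤ f y) (hy' : 1 ≤ f y') (hym : f y ≤ m) (hym' : f y' ≤ m)
    (h : hi d s f g y = hi d s f g y') : y = y' := by
  unfold hi at h
  apply hf
  have h1 := hd (f y - 1) (f y' - 1) (by omega) (by omega) (mul_left_cancel h)
  omega

/-- the value of `g` for a given place of a low vertex -/
lemma lo_g (d : Γ) (f : V → ℕ) (a : Γ) (x : V) : lo d f (a * (d ^ f x)⁻¹) x = a := by
  unfold lo
  group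

lemma lo_g' (d : Γ) (f : V → ℕ) (g g' : Γ) (x : V) (h : lo d f g x = lo d f g' x) : g = g' := by
  unfold lo at h
  exact mul_right_cancel h

end Pool.Agent.Y790.TG.Cay

namespace Pool.Agent.Y790.TG

open Pool.Agent.Y790.TR Pool.Agent.Y790.TG.Decomp

theorem cay : CayStm := by
  intro V _ G hG hV hA Γ _ d s H hdist hninv hadj
  obtain ⟨f, p, hf, hle, hd, hp⟩ := hA
  classical
  have hm : 1 ≤ G.edgeSet.ncard := by
    have h1 : G.edgeSet.ncard + 1 = Fintype.card V := by
      rw [← hG.card_edgeFinset, ← SimpleGraph.coe_edgeFinset, Set.ncard_coe_finset]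
    omega
  obtain ⟨x0, y0, hxy0, h0⟩ := LH_exists G f p hp hd 1 le_rfl hm
  have hpb : 1 ≤ p ∧ p ≤ G.edgeSet.ncard := by
    have h1 := hxy0.2.1
    have h2 := hxy0.2.2
    have h3 := hle y0
    omega
  have hle' : ∀ x, f x ≤ G.edgeSet.ncard := hle
  set m := G.edgeSet.ncard with hmdef
  let φ : Γ → V → Γ := fun g x => if f x < p then Cay.lo d f g x else Cay.hi d s f g x
  have hφl : ∀ g x, f x < p → φ g x = Cay.lo d f g x := fun g x hx => if_pos hx
  have hφh : ∀ g x, ¬ f x < p → φ g x = Cay.hi d s f g x := fun g x hx => if_neg hx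
  -- low and high places are different
  have hne : ∀ g x y, f x < p → ¬ f y < p → Cay.lo d f g x ≠ Cay.hi d s f g y := by
    intro g x y hx hy h
    have h1 := hle' y
    have h2 := Cay.lo_hi d s f g x y (f y - f x - 1) (by omega)
    rw [← h] at h2
    have h3 : d ^ (f y - f x - 1) * s = 1 := by
      have h4 : Cay.lo d f g x * 1 = Cay.lo d f g x * (d ^ (f y - f x - 1) * s) := by
        rw [mul_one]
        exact h2
      exact (mul_left_cancel h4).symm
    refine hninv (f y - f x - 1) (f y - f x - 1) (by omega) (by omega) ?_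
    rw [h3, inv_one]
  have hφinj : ∀ g, Function.Injective (φ g) := by
    intro g x y h
    have h1 := hle' x
    have h2 := hle' y
    by_cases hx : f x < p <;> by_cases hy : f y < p
    · rw [hφl g x hx, hφl g y hy] at h
      exact Cay.lo_inj d s f m hf hdist g x y (by omega) (by omega) h
    · rw [hφl g x hx, hφh g y hy] at h
      exact absurd h (hne g x y hx hy)
    · rw [hφh g x hx, hφl g y hy] at h
      exact absurd h.symm (hne g y x hy hx)
    · rw [hφh g x hx, hφh g y hy] at h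
      exact Cay.hi_inj d s f m hf hdist g x y (by omega) (by omega) h1 h2 h
  -- the edges
  have hedge : ∀ g x y, LH G f p x y → ∃ i < m, f y = f x + i + 1 ∧
      φ g y = φ g x * (d ^ i * s) := by
    intro g x y hxy
    have h1 := hxy.2.1
    have h2 := hxy.2.2
    have h3 := hle' y
    refine ⟨f y - f x - 1, by omega, by omega, ?_⟩
    rw [hφl g x h1, hφh g y (not_lt.2 h2)]
    exact Cay.lo_hi d s f g x y _ (by omega)
  refine decomposes G H f p hp Γ φ hφinj ?_ ?_ ?_
  · intro g x y hxy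
    obtain ⟨i, hi, -, h⟩ := hedge g x y hxy
    rw [hadj]
    exact ⟨i, hi, Or.inl h⟩
  · have main : ∀ a b : Γ, ∀ i < m, b = a * (d ^ i * s) →
        ∃ g x y, LH G f p x y ∧ s(φ g x, φ g y) = s(a, b) := by
      intro a b i hi hab
      obtain ⟨x, y, hxy, hyx⟩ := LH_exists G f p hp hd (i + 1) (by omega) (by omega)
      refine ⟨a * (d ^ f x)⁻¹, x, y, hxy, ?_⟩
      have h1 : φ (a * (d ^ f x)⁻¹) x = a := by
        rw [hφl _ x hxy.2.1, Cay.lo_g]
      have h2 : φ (a * (d ^ f x)⁻¹) y = b := by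
        rw [hφh _ y (not_lt.2 hxy.2.2), Cay.lo_hi d s f _ x y i (by omega), Cay.lo_g, hab]
      rw [h1, h2]
    intro e he
    induction e with
    | h a b =>
      rw [SimpleGraph.mem_edgeSet, hadj] at he
      obtain ⟨i, hi, h | h⟩ := he
      · exact main a b i hi h
      · rw [Sym2.eq_swap]
        exact main b a i hi h
  · intro g x y g' x' y' hxy hxy' h
    obtain ⟨i, hi, hi2, hi3⟩ := hedge g x y hxy
    obtain ⟨j, hj, hj2, hj3⟩ := hedge g' x' y' hxy'
    rw [Sym2.eq_iff] at h
    rcases h with ⟨h1, h2⟩ | ⟨h1, h2⟩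
    · have h3 : i = j := by
        rw [hi3, hj3, h1] at h2
        exact hdist i j hi hj (mul_left_cancel h2)
      obtain ⟨rfl, rfl⟩ := LH_unique G f p hd x y x' y' hxy hxy' (by omega)
      refine ⟨?_, rfl, rfl⟩
      rw [hφl g x hxy.2.1, hφl g' x hxy.2.1] at h1
      exact Cay.lo_g' d f g g' x h1
    · exfalso
      rw [hi3, h1, hj3] at h2
      refine hninv i j hi hj ?_
      rw [mul_assoc] at h2
      exact (inv_eq_of_mul_eq_one_right (mul_left_cancel (a := φ g' x')
        (by rw [mul_one]; exact h2))).symm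

theorem biCay : BiCayStm := by
  intro V _ G hG hV hA Γ _ d s H hdist hadj hll hrr
  obtain ⟨f, p, hf, hle, hd, hp⟩ := hA
  classical
  have hm : 1 ≤ G.edgeSet.ncard := by
    have h1 : G.edgeSet.ncard + 1 = Fintype.card V := by
      rw [← hG.card_edgeFinset, ← SimpleGraph.coe_edgeFinset, Set.ncard_coe_finset]
    omega
  obtain ⟨x0, y0, hxy0, h0⟩ := LH_exists G f p hp hd 1 le_rfl hm
  have hpb : 1 ≤ p ∧ p ≤ G.edgeSet.ncard := by
    have h1 := hxy0.2.1
    have h2 := hxy0.2.2
    have h3 := hle y0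
    omega
  have hle' : ∀ x, f x ≤ G.edgeSet.ncard := hle
  set m := G.edgeSet.ncard with hmdef
  let φ : Γ → V → Γ ⊕ Γ := fun g x =>
    if f x < p then Sum.inl (Cay.lo d f g x) else Sum.inr (Cay.hi d s f g x)
  have hφl : ∀ g x, f x < p → φ g x = Sum.inl (Cay.lo d f g x) := fun g x hx => if_pos hx
  have hφh : ∀ g x, ¬ f x < p → φ g x = Sum.inr (Cay.hi d s f g x) := fun g x hx => if_neg hx
  have hφinj : ∀ g, Function.Injective (φ g) := by
    intro g x y h
    have h1 := hle' x
    have h2 := hle' y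
    by_cases hx : f x < p <;> by_cases hy : f y < p
    · rw [hφl g x hx, hφl g y hy] at h
      exact Cay.lo_inj d s f m hf hdist g x y (by omega) (by omega) (Sum.inl.inj h)
    · rw [hφl g x hx, hφh g y hy] at h
      cases h
    · rw [hφh g x hx, hφl g y hy] at h
      cases h
    · rw [hφh g x hx, hφh g y hy] at h
      exact Cay.hi_inj d s f m hf hdist g x y (by omega) (by omega) h1 h2 (Sum.inr.inj h)
  -- the edges
  have hedge : ∀ g x y, LH G f p x y → ∃ i < m, f y = f x + i + 1 ∧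
      Cay.hi d s f g y = Cay.lo d f g x * (d ^ i * s) := by
    intro g x y hxy
    have h1 := hxy.2.1
    have h2 := hxy.2.2
    have h3 := hle' y
    exact ⟨f y - f x - 1, by omega, by omega, Cay.lo_hi d s f g x y _ (by omega)⟩
  refine decomposes G H f p hp Γ φ hφinj ?_ ?_ ?_
  · intro g x y hxy
    obtain ⟨i, hi, -, h⟩ := hedge g x y hxy
    rw [hφl g x hxy.2.1, hφh g y (not_lt.2 hxy.2.2), hadj]
    exact ⟨i, hi, h⟩
  · have main : ∀ a b : Γ, ∀ i < m, b = a * (d ^ i * s) →
        ∃ g x y, LH G f p x y ∧ s(φ g x, φ g y) = s(Sum.inl a, Sum.inr b) := by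
      intro a b i hi hab
      obtain ⟨x, y, hxy, hyx⟩ := LH_exists G f p hp hd (i + 1) (by omega) (by omega)
      refine ⟨a * (d ^ f x)⁻¹, x, y, hxy, ?_⟩
      rw [hφl _ x hxy.2.1, hφh _ y (not_lt.2 hxy.2.2), Cay.lo_hi d s f _ x y i (by omega),
        Cay.lo_g, hab]
    intro e he
    induction e with
    | h a b =>
      rw [SimpleGraph.mem_edgeSet] at he
      rcases a with a | a <;> rcases b with b | b
      · exact absurd he (hll a b)
      · obtain ⟨i, hi, h⟩ := (hadj a b).1 he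
        exact main a b i hi h
      · obtain ⟨i, hi, h⟩ := (hadj b a).1 he.symm
        rw [Sym2.eq_swap]
        exact main b a i hi h
      · exact absurd he (hrr a b)
  · intro g x y g' x' y' hxy hxy' h
    obtain ⟨i, hi, hi2, hi3⟩ := hedge g x y hxy
    obtain ⟨j, hj, hj2, hj3⟩ := hedge g' x' y' hxy'
    rw [hφl g x hxy.2.1, hφh g y (not_lt.2 hxy.2.2), hφl g' x' hxy'.2.1,
      hφh g' y' (not_lt.2 hxy'.2.2), Sym2.eq_iff] at h
    rcases h with ⟨h1, h2⟩ | ⟨h1, h2⟩
    · have h1' := Sum.inl.inj h1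
      have h2' := Sum.inr.inj h2
      have h3 : i = j := by
        rw [hi3, hj3, h1'] at h2'
        exact hdist i j hi hj (mul_left_cancel h2')
      obtain ⟨rfl, rfl⟩ := LH_unique G f p hd x y x' y' hxy hxy' (by omega)
      exact ⟨Cay.lo_g' d f g g' x h1', rfl, rfl⟩
    · cases h1

end Pool.Agent.Y790.TG
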