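import Pool.Agent.Y790.TR.Def3

/-!
# Arrangement for a new node joined by an edge

Contributed by helper100.
-/

set_option autoImplicit false

namespace Pool.Agent.Y790.TG.ArrE

open Pool.Agent.Y790.LG (rt)
open Pool.Agent.Y790.TR

theorem rt_lt {q t s : ℕ} (h : s < t) : rt q t s = s + q - t := if_pos h

theorem rt_ge {q t s : ℕ} (h : t ≤ s) : rt q t s = s - t := if_neg (by omega)

/-- the conclusion for given data -/
def Good (n t μ t' : ℕ) (a al κ : ℕ → ℕ) : Prop := μ ≤ n ∧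
  t' ≤ 2 * n + 3 ∧
  (∀ j ≤ 2 * n + 2, j ≠ 2 * μ → j ≠ 2 * μ + 1 → a j ≤ 2 * n ∧ a j % 2 = rt (2 * n + 3) t j % 2) ∧
  (∀ i ≤ 2 * n, ∃ j ≤ 2 * n + 2, j ≠ 2 * μ ∧ j ≠ 2 * μ + 1 ∧ a j = i) ∧
  (∀ j ≤ 2 * n + 2, al j ≤ 2 * n + 2 ∧ al j % 2 = rt (2 * n + 3) t j % 2) ∧
  (∀ i ≤ 2 * n + 2, ∃ j ≤ 2 * n + 2, al j = i) ∧
  κ (2 * μ) ≤ 2 * n + 2 ∧ κ (2 * μ + 1) ≤ 2 * n + 2 ∧ κ (2 * μ) ≠ κ (2 * μ + 1) ∧
  (rt (2 * n + 3) t (2 * μ) + rt (2 * n + 3) t (2 * μ + 1)) % 2 = 1 ∧
  (∀ j, j = 2 * μ ∨ j = 2 * μ + 1 → ((2 * (κ j : ℤ) - al j - rt (2 * n + 3) t j +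
    if rt (2 * n + 3) t j % 2 = 0 then 2 else 0) % (2 * n + 3) = 0)) ∧
  rt (2 * n + 3) t' (al (2 * n + 2)) = 2 * n + 2 ∧
  ∀ l < n + 1, rt (2 * n + 3) t' (al (2 * l)) / 2 = rt (2 * n + 3) t' (al (2 * l + 1)) / 2

/-- `t` even -/
theorem caseA (n t : ℕ) (hn : 1 ≤ n) (ht : t ≤ 2 * n + 2) (h0 : t % 2 = 0) (a al κ : ℕ → ℕ)
    (b0 : a (2 * n + 2) = 2 * n)
    (b1 : ∀ j, j < t → j < 2 * n → j % 2 = 0 → a j = j + 1)
    (b2 : ∀ j, j < t → j < 2 * n → j % 2 = 1 → a j = j - 1)
    (b3 : ∀ j, t ≤ j → j < 2 * n → a j = j)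
    (c0 : al (2 * n + 2) = 2 * n + 2) (c1 : ∀ j, j < 2 * n → al j = a j + 2)
    (d : (t < 2 * n ∧ al (2 * n) = 0 ∧ al (2 * n + 1) = 1 ∧ κ (2 * n) = (2 * n - t - 2) / 2 ∧
        κ (2 * n + 1) = (2 * n + 1 - t + 1) / 2) ∨
      (t = 2 * n ∧ al (2 * n) = 0 ∧ al (2 * n + 1) = 1 ∧ κ (2 * n) = 2 * n + 2 ∧
        κ (2 * n + 1) = 1) ∨
      (t = 2 * n + 2 ∧ al (2 * n) = 1 ∧ al (2 * n + 1) = 0 ∧ κ (2 * n) = n + 1 ∧
        κ (2 * n + 1) = n)) : Good n t n 0 a al κ := by
  have ha : ∀ j, j < 2 * n → (j < t ∧ j % 2 = 0 ∧ a j = j + 1) ∨ (j < t ∧ j % 2 = 1 ∧ a j = j - 1) ∨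
      (t ≤ j ∧ a j = j) := by
    intro j hj
    by_cases c : j < t
    · rcases Nat.mod_two_eq_zero_or_one j with c5 | c5
      · exact Or.inl ⟨c, c5, b1 j c hj c5⟩
      · exact Or.inr (Or.inl ⟨c, c5, b2 j c hj c5⟩)
    · exact Or.inr (Or.inr ⟨by omega, b3 j (by omega) hj⟩)
  refine ⟨le_rfl, by omega, ?_, ?_, ?_, ?_, ?_, ?_, ?_, ?_, ?_, ?_, ?_⟩
  · intro j hj h1 h2
    by_cases c : j = 2 * n + 2
    · rw [c, b0]
      unfold rt
      split_ifs <;> omega
    · have := ha j (by omega)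
      have := h1
      unfold rt
      split_ifs <;> omega
  · intro i hi
    by_cases c : i = 2 * n
    · exact ⟨2 * n + 2, by omega, by omega, by omega, by rw [b0, c]⟩
    by_cases c2 : i < t
    · rcases Nat.mod_two_eq_zero_or_one i with c5 | c5
      · exact ⟨i + 1, by omega, by omega, by omega, by
          rw [b2 _ (by omega) (by omega) (by omega)]; omega⟩
      · exact ⟨i - 1, by omega, by omega, by omega, by
          rw [b1 _ (by omega) (by omega) (by omega)]; omega⟩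
    · exact ⟨i, by omega, by omega, by omega, b3 i (by omega) (by omega)⟩
  · intro j hj
    by_cases c : j = 2 * n + 2
    · rw [c, c0]
      unfold rt
      split_ifs <;> omega
    by_cases c2 : j = 2 * n
    · rw [c2]
      unfold rt
      split_ifs <;> omega
    by_cases c3 : j = 2 * n + 1
    · rw [c3]
      unfold rt
      split_ifs <;> omega
    have := ha j (by omega)
    rw [c1 j (by omega)]
    unfold rt
    split_ifs <;> omega
  · intro i hi
    by_cases c : i = 2 * n + 2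
    · exact ⟨2 * n + 2, by omega, by rw [c0, c]⟩
    by_cases e0 : i = 0
    · rcases d with d | d | d
      · exact ⟨2 * n, by omega, by omega⟩
      · exact ⟨2 * n, by omega, by omega⟩
      · exact ⟨2 * n + 1, by omega, by omega⟩
    by_cases e1 : i = 1
    · rcases d with d | d | d
      · exact ⟨2 * n + 1, by omega, by omega⟩
      · exact ⟨2 * n + 1, by omega, by omega⟩
      · exact ⟨2 * n, by omega, by omega⟩
    by_cases c2 : i - 2 < t
    · rcases Nat.mod_two_eq_zero_or_one i with c5 | c5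
      · exact ⟨i - 1, by omega, by
          rw [c1 _ (by omega), b2 _ (by omega) (by omega) (by omega)]; omega⟩
      · exact ⟨i - 3, by omega, by
          rw [c1 _ (by omega), b1 _ (by omega) (by omega) (by omega)]; omega⟩
    · exact ⟨i - 2, by omega, by rw [c1 _ (by omega), b3 _ (by omega) (by omega)]; omega⟩
  · rcases d with d | d | d <;> omega
  · rcases d with d | d | d <;> omega
  · rcases d with d | d | d <;> omega
  · unfold rt
    split_ifs <;> omega
  · intro j hj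
    rcases d with ⟨d0, d1, d2, d3, d4⟩ | ⟨d0, d1, d2, d3, d4⟩ | ⟨d0, d1, d2, d3, d4⟩
    · rcases hj with hj | hj
      · rw [hj, d1, d3, rt_ge (by omega)]
        apply Int.emod_eq_zero_of_dvd
        exact ⟨0, by split_ifs <;> omega⟩
      · rw [hj, d2, d4, rt_ge (by omega)]
        apply Int.emod_eq_zero_of_dvd
        exact ⟨0, by split_ifs <;> omega⟩
    · rcases hj with hj | hj
      · rw [hj, d1, d3, rt_ge (by omega)]
        apply Int.emod_eq_zero_of_dvd
        exact ⟨2, by split_ifs <;> omega⟩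
      · rw [hj, d2, d4, rt_ge (by omega)]
        apply Int.emod_eq_zero_of_dvd
        exact ⟨0, by split_ifs <;> omega⟩
    · rcases hj with hj | hj
      · rw [hj, d1, d3, rt_lt (by omega)]
        apply Int.emod_eq_zero_of_dvd
        exact ⟨0, by split_ifs <;> omega⟩
      · rw [hj, d2, d4, rt_lt (by omega)]
        apply Int.emod_eq_zero_of_dvd
        exact ⟨0, by split_ifs <;> omega⟩
  · rw [c0, rt_ge (by omega)]
    omega
  · intro l hl
    rw [rt_ge (by omega), rt_ge (by omega)]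
    by_cases c : l = n
    · rw [c]
      rcases d with d | d | d <;> omega
    · rw [c1 _ (by omega), c1 _ (by omega)]
      have h1 := ha (2 * l) (by omega)
      have h2 := ha (2 * l + 1) (by omega)
      omega

/-- `t` odd -/
theorem caseB (n t μ : ℕ) (hn : 1 ≤ n) (ht : t ≤ 2 * n + 1) (h0 : t % 2 = 1) (a al κ : ℕ → ℕ)
    (hμ : (t < 2 * n ∧ μ = n) ∨ (t = 2 * n + 1 ∧ μ + 1 = n))
    (b0 : a (2 * n + 2) = 1) (b1 : a t = 0) (b2 : a (t - 1) = 2 * n)
    (b3 : ∀ j, j + 1 < t → j < 2 * μ → a j = j + 2)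
    (b4 : ∀ j, t < j → j < 2 * μ → j % 2 = 0 → a j = j + 1)
    (b5 : ∀ j, t < j → j < 2 * μ → j % 2 = 1 → a j = j - 1)
    (c0 : al (2 * n + 2) = 1) (c1 : al t = 0) (c2 : al (t - 1) = 2 * n + 2)
    (c3 : ∀ j, j + 1 < t → j < 2 * μ → al j = j + 4)
    (c4 : ∀ j, t < j → j < 2 * μ → j % 2 = 0 → al j = j + 3)
    (c5 : ∀ j, t < j → j < 2 * μ → j % 2 = 1 → al j = j + 1)
    (d : (t < 2 * n ∧ al (2 * μ) = 3 ∧ al (2 * μ + 1) = 2 ∧ κ (2 * μ) = (2 * n - t + 3) / 2 ∧
        κ (2 * μ + 1) = (2 * n + 1 - t) / 2) ∨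
      (t = 2 * n + 1 ∧ al (2 * μ) = 2 ∧ al (2 * μ + 1) = 3 ∧ κ (2 * μ) = n ∧
        κ (2 * μ + 1) = n + 2)) : Good n t μ 2 a al κ := by
  have hc : ∀ j, j ≤ 2 * n + 2 → j ≠ 2 * μ → j ≠ 2 * μ + 1 → j = 2 * n + 2 ∨ j = t ∨ j = t - 1 ∨
      (j + 1 < t ∧ j < 2 * μ) ∨ (t < j ∧ j < 2 * μ ∧ j % 2 = 0) ∨ (t < j ∧ j < 2 * μ ∧ j % 2 = 1) := by
    intro j h1 h2 h3
    omega
  refine ⟨by omega, by omega, ?_, ?_, ?_, ?_, ?_, ?_, ?_, ?_, ?_, ?_, ?_⟩
  · intro j hj h1 h2
    rcases hc j hj h1 h2 with e | e | e | e | e | e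
    · rw [e, b0]
      unfold rt
      split_ifs <;> omega
    · rw [e, b1]
      unfold rt
      split_ifs <;> omega
    · rw [e, b2]
      unfold rt
      split_ifs <;> omega
    · rw [b3 j e.1 e.2]
      unfold rt
      split_ifs <;> omega
    · rw [b4 j e.1 e.2.1 e.2.2]
      unfold rt
      split_ifs <;> omega
    · rw [b5 j e.1 e.2.1 e.2.2]
      unfold rt
      split_ifs <;> omega
  · intro i hi
    by_cases e0 : i = 0
    · exact ⟨t, by omega, by omega, by omega, by rw [b1, e0]⟩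
    by_cases e1 : i = 1
    · exact ⟨2 * n + 2, by omega, by omega, by omega, by rw [b0, e1]⟩
    by_cases e2 : i = 2 * n
    · exact ⟨t - 1, by omega, by omega, by omega, by rw [b2, e2]⟩
    by_cases e3 : i < t + 1
    · exact ⟨i - 2, by omega, by omega, by omega, by rw [b3 _ (by omega) (by omega)]; omega⟩
    rcases Nat.mod_two_eq_zero_or_one i with e4 | e4
    · exact ⟨i + 1, by omega, by omega, by omega, by
        rw [b5 _ (by omega) (by omega) (by omega)]; omega⟩
    · exact ⟨i - 1, by omega, by omega, by omega, by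
        rw [b4 _ (by omega) (by omega) (by omega)]; omega⟩
  · intro j hj
    by_cases f1 : j = 2 * μ
    · rw [f1]
      rcases d with d | d
      · rw [d.2.1, rt_ge (by omega)]
        omega
      · rw [d.2.1, rt_lt (by omega)]
        omega
    by_cases f2 : j = 2 * μ + 1
    · rw [f2]
      rcases d with d | d
      · rw [d.2.2.1, rt_ge (by omega)]
        omega
      · rw [d.2.2.1, rt_lt (by omega)]
        omega
    rcases hc j hj f1 f2 with e | e | e | e | e | e
    · rw [e, c0]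
      unfold rt
      split_ifs <;> omega
    · rw [e, c1]
      unfold rt
      split_ifs <;> omega
    · rw [e, c2]
      unfold rt
      split_ifs <;> omega
    · rw [c3 j e.1 e.2]
      unfold rt
      split_ifs <;> omega
    · rw [c4 j e.1 e.2.1 e.2.2]
      unfold rt
      split_ifs <;> omega
    · rw [c5 j e.1 e.2.1 e.2.2]
      unfold rt
      split_ifs <;> omega
  · intro i hi
    by_cases e0 : i = 0
    · exact ⟨t, by omega, by rw [c1, e0]⟩
    by_cases e1 : i = 1
    · exact ⟨2 * n + 2, by omega, by rw [c0, e1]⟩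
    by_cases e2 : i = 2 * n + 2
    · exact ⟨t - 1, by omega, by rw [c2, e2]⟩
    by_cases g2 : i = 2
    · rcases d with d | d
      · exact ⟨2 * μ + 1, by omega, by rw [d.2.2.1, g2]⟩
      · exact ⟨2 * μ, by omega, by rw [d.2.1, g2]⟩
    by_cases g3 : i = 3
    · rcases d with d | d
      · exact ⟨2 * μ, by omega, by rw [d.2.1, g3]⟩
      · exact ⟨2 * μ + 1, by omega, by rw [d.2.2.1, g3]⟩
    by_cases e3 : i < t + 3
    · exact ⟨i - 4, by omega, by rw [c3 _ (by omega) (by omega)]; omega⟩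
    rcases Nat.mod_two_eq_zero_or_one i with e4 | e4
    · exact ⟨i - 1, by omega, by
        rw [c5 _ (by omega) (by omega) (by omega)]; omega⟩
    · exact ⟨i - 3, by omega, by
        rw [c4 _ (by omega) (by omega) (by omega)]; omega⟩
  · rcases d with d | d <;> omega
  · rcases d with d | d <;> omega
  · rcases d with d | d <;> omega
  · unfold rt
    split_ifs <;> omega
  · intro j hj
    rcases d with ⟨d0, d1, d2, d3, d4⟩ | ⟨d0, d1, d2, d3, d4⟩
    · rcases hj with hj | hj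
      · rw [hj, d1, d3, rt_ge (by omega)]
        apply Int.emod_eq_zero_of_dvd
        exact ⟨0, by split_ifs <;> omega⟩
      · rw [hj, d2, d4, rt_ge (by omega)]
        apply Int.emod_eq_zero_of_dvd
        exact ⟨0, by split_ifs <;> omega⟩
    · rcases hj with hj | hj
      · rw [hj, d1, d3, rt_lt (by omega)]
        apply Int.emod_eq_zero_of_dvd
        exact ⟨0, by split_ifs <;> omega⟩
      · rw [hj, d2, d4, rt_lt (by omega)]
        apply Int.emod_eq_zero_of_dvd
        exact ⟨0, by split_ifs <;> omega⟩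
  · rw [c0, rt_lt (by omega)]
    omega
  · intro l hl
    by_cases f1 : l = μ
    · rw [f1]
      rcases d with d | d
      · rw [d.2.1, d.2.2.1, rt_ge (by omega), rt_ge (by omega)]
      · rw [d.2.1, d.2.2.1, rt_ge (by omega), rt_ge (by omega)]
    by_cases f2 : 2 * l + 1 = t
    · rw [f2, c1, show 2 * l = t - 1 by omega, c2, rt_ge (by omega), rt_lt (by omega)]
      omega
    by_cases f3 : 2 * l + 1 < t
    · rw [c3 _ (by omega) (by omega), c3 _ (by omega) (by omega), rt_ge (by omega),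
        rt_ge (by omega)]
      omega
    · rw [c4 _ (by omega) (by omega) (by omega), c5 _ (by omega) (by omega) (by omega),
        rt_ge (by omega), rt_ge (by omega)]
      omega

end Pool.Agent.Y790.TG.ArrE

namespace Pool.Agent.Y790.TG

open Pool.Agent.Y790.LG (rt)
open Pool.Agent.Y790.TR

theorem arrE : ArrEStm := by
  intro n t hn ht
  rcases Nat.mod_two_eq_zero_or_one t with h0 | h1
  · obtain ⟨a, ha⟩ : ∃ a : ℕ → ℕ, a = fun j => if j = 2 * n + 2 then 2 * n else
      if j < t then (if j % 2 = 0 then j + 1 else j - 1) else j := ⟨_, rfl⟩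
    obtain ⟨al, hal⟩ : ∃ al : ℕ → ℕ, al = fun j => if j = 2 * n then (if t ≤ 2 * n then 0 else 1)
      else if j = 2 * n + 1 then (if t ≤ 2 * n then 1 else 0) else a j + 2 := ⟨_, rfl⟩
    obtain ⟨κ, hκ⟩ : ∃ κ : ℕ → ℕ, κ = fun j => if t < 2 * n then
        (if j = 2 * n then (2 * n - t - 2) / 2 else (2 * n + 1 - t + 1) / 2) else
      if t = 2 * n then (if j = 2 * n then 2 * n + 2 else 1) else
        (if j = 2 * n then n + 1 else n) := ⟨_, rfl⟩
    refine ⟨n, 0, a, al, κ, ?_⟩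
    apply ArrE.caseA n t hn ht h0 a al κ
    · rw [ha]; simp only []; split_ifs <;> omega
    · intro j h2 h3 h4; rw [ha]; simp only []; split_ifs <;> omega
    · intro j h2 h3 h4; rw [ha]; simp only []; split_ifs <;> omega
    · intro j h2 h3; rw [ha]; simp only []; split_ifs <;> omega
    · rw [hal, ha]; simp only []; split_ifs <;> omega
    · intro j h2; rw [hal]; simp only []; split_ifs <;> omega
    · rw [hal, hκ]
      simp only []
      rcases Nat.lt_trichotomy t (2 * n) with c | c | c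
      · left
        refine ⟨c, ?_, ?_, ?_, ?_⟩ <;> split_ifs <;> omega
      · right; left
        refine ⟨c, ?_, ?_, ?_, ?_⟩ <;> split_ifs <;> omega
      · right; right
        refine ⟨by omega, ?_, ?_, ?_, ?_⟩ <;> split_ifs <;> omega
  · obtain ⟨μ, hμ⟩ : ∃ μ : ℕ, (t < 2 * n ∧ μ = n) ∨ (t = 2 * n + 1 ∧ μ + 1 = n) := by
      by_cases c : t < 2 * n
      · exact ⟨n, Or.inl ⟨c, rfl⟩⟩
      · exact ⟨n - 1, Or.inr ⟨by omega, by omega⟩⟩
    obtain ⟨a, ha⟩ : ∃ a : ℕ → ℕ, a = fun j => if j = 2 * n + 2 then 1 else if j = t then 0 else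
      if j + 1 = t then 2 * n else if j < t then j + 2 else
      if j % 2 = 0 then j + 1 else j - 1 := ⟨_, rfl⟩
    obtain ⟨al, hal⟩ : ∃ al : ℕ → ℕ, al = fun j => if j = 2 * μ then (if t < 2 * n then 3 else 2)
      else if j = 2 * μ + 1 then (if t < 2 * n then 2 else 3) else
      if j = 2 * n + 2 then 1 else if j = t then 0 else
      if j + 1 = t then 2 * n + 2 else if j < t then j + 4 else
      if j % 2 = 0 then j + 3 else j + 1 := ⟨_, rfl⟩
    obtain ⟨κ, hκ⟩ : ∃ κ : ℕ → ℕ, κ = fun j => if t < 2 * n then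
        (if j = 2 * μ then (2 * n - t + 3) / 2 else (2 * n + 1 - t) / 2) else
        (if j = 2 * μ then n else n + 2) := ⟨_, rfl⟩
    refine ⟨μ, 2, a, al, κ, ?_⟩
    apply ArrE.caseB n t μ hn (by omega) h1 a al κ hμ
    · rw [ha]; simp only []; split_ifs <;> omega
    · rw [ha]; simp only []; split_ifs <;> omega
    · rw [ha]; simp only []; split_ifs <;> omega
    · intro j h2 h3; rw [ha]; simp only []; split_ifs <;> omega
    · intro j h2 h3 h4; rw [ha]; simp only []; split_ifs <;> omega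
    · intro j h2 h3 h4; rw [ha]; simp only []; split_ifs <;> omega
    · rw [hal]; simp only []; split_ifs <;> omega
    · rw [hal]; simp only []; split_ifs <;> omega
    · rw [hal]; simp only []; split_ifs <;> omega
    · intro j h2 h3; rw [hal]; simp only []; split_ifs <;> omega
    · intro j h2 h3 h4; rw [hal]; simp only []; split_ifs <;> omega
    · intro j h2 h3 h4; rw [hal]; simp only []; split_ifs <;> omega
    · rw [hal, hκ]
      simp only []
      rcases hμ with c | c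
      · left
        refine ⟨c.1, ?_, ?_, ?_, ?_⟩ <;> split_ifs <;> omega
      · right
        refine ⟨c.1, ?_, ?_, ?_, ?_⟩ <;> split_ifs <;> omega

end Pool.Agent.Y790.TG
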