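import Pool.Agent.Y790.TR.Def3
import Pool.Agent.Y790.TR.All

/-!
# A new node joined by an edge
-/

set_option autoImplicit false

namespace Pool.Agent.Y790.TG

open Pool.Agent.Y790.TR
open Pool.Agent.Y790.LG (Od Sm rt cst hd Lg Kst prd Cls Lags)

namespace Edge

open Pool.Agent.Y790.TR.OW (sum_perm rt_le rt_surj sum_odd PK_spec ex_em)

/-- the inverse of a permutation -/
lemma inv_ex (N : ℕ) (f : ℕ → ℕ) (h1 : ∀ j ≤ N, f j ≤ N) (h2 : ∀ s ≤ N, ∃ j ≤ N, f j = s) :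
    ∃ g : ℕ → ℕ, (∀ i ≤ N, g i ≤ N ∧ f (g i) = i) ∧ ∀ j ≤ N, g (f j) = j := by
  have him : (Finset.range (N + 1)).image f = Finset.range (N + 1) := by
    ext s
    simp only [Finset.mem_image, Finset.mem_range]
    constructor
    · rintro ⟨j, hj, rfl⟩
      have := h1 j (by omega)
      omega
    · intro hs
      obtain ⟨j, hj, hjs⟩ := h2 s (by omega)
      exact ⟨j, by omega, hjs⟩
  have hinj : Set.InjOn f (Finset.range (N + 1) : Set ℕ) := by
    apply Finset.injOn_of_card_image_eq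
    rw [him]
  choose! g hg1 hg2 using h2
  refine ⟨g, fun i hi => ⟨hg1 i hi, hg2 i hi⟩, fun j hj => ?_⟩
  have h := hg2 (f j) (h1 j hj)
  have h3 := hg1 (f j) (h1 j hj)
  refine hinj ?_ ?_ h
  · simp only [Finset.coe_range, Set.mem_Iio]
    omega
  · simp only [Finset.coe_range, Set.mem_Iio]
    omega

lemma split2 (n : ℕ) (F : ℕ → ℤ) : ∑ i ∈ Finset.range (2 * n + 2 + 1), F i =
    ∑ i ∈ Finset.range (2 * n + 1), F i + F (2 * n + 1) + F (2 * n + 2) := by
  rw [Finset.sum_range_succ, Finset.sum_range_succ]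

/-- the numbering of the strands in which the paused strands are the last ones -/
def sg (n μ : ℕ) (a : ℕ → ℕ) (j : ℕ) : ℕ :=
  if j = 2 * μ then 2 * n + 1 else if j = 2 * μ + 1 then 2 * n + 2 else a j

/-- the index of the crossing sum before the pause -/
def kk (n i : ℕ) : ℕ := if i < n + 2 then i else i + 1

/-- the index of the crossing sum after the pause -/
def kf (n ke ko i : ℕ) : ℕ :=
  if i ≤ 2 * n then (if i < min ke ko then i else if i + 1 < max ke ko then i + 1 else i + 2)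
  else if i = 2 * n + 1 then ke else ko

lemma kf_le (n ke ko : ℕ) (he : ke ≤ 2 * n + 2) (ho : ko ≤ 2 * n + 2) (i : ℕ)
    (_hi : i ≤ 2 * n + 2) : kf n ke ko i ≤ 2 * n + 2 := by
  unfold kf
  split_ifs <;> omega

lemma kf_surj (n ke ko : ℕ) (he : ke ≤ 2 * n + 2) (ho : ko ≤ 2 * n + 2) (hne : ke ≠ ko) (s : ℕ)
    (hs : s ≤ 2 * n + 2) : ∃ i ≤ 2 * n + 2, kf n ke ko i = s := by
  by_cases h1 : s = ke
  · refine ⟨2 * n + 1, by omega, ?_⟩
    unfold kf
    rw [if_neg (by omega), if_pos rfl, h1]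
  by_cases h2 : s = ko
  · refine ⟨2 * n + 2, by omega, ?_⟩
    unfold kf
    rw [if_neg (by omega), if_neg (by omega), h2]
  rcases Nat.lt_or_ge s (min ke ko) with h | h
  · refine ⟨s, by omega, ?_⟩
    unfold kf
    rw [if_pos (by omega), if_pos h]
  rcases Nat.lt_or_ge s (max ke ko) with h' | h'
  · refine ⟨s - 1, by omega, ?_⟩
    unfold kf
    rw [if_pos (by omega), if_neg (by omega), if_pos (by omega)]
    omega
  · refine ⟨s - 2, by omega, ?_⟩
    unfold kf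
    rw [if_pos (by omega), if_neg (by omega), if_neg (by omega)]
    omega

lemma sum_kk (n : ℕ) (hn : 1 ≤ n) :
    ∑ i ∈ Finset.range (2 * n + 1), (kk n i : ℤ) = 2 * (n : ℤ) * n + 2 * n - 1 := by
  obtain ⟨m, rfl⟩ : ∃ m, n = m + 1 := ⟨n - 1, by omega⟩
  have h1 : ∑ i ∈ Finset.range (2 * (m + 1) + 1), (kk (m + 1) i : ℤ) =
      ∑ i ∈ Finset.range (2 * (m + 1) + 1), ((i : ℤ) + if i < m + 3 then 0 else 1) := by
    refine Finset.sum_congr rfl fun i _ => ?_
    unfold kk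
    split_ifs
    · simp
    · push_cast
      ring
  have h2 : ∑ i ∈ Finset.range (2 * (m + 1) + 1), (if i < m + 3 then (0 : ℤ) else 1) = m := by
    have e : 2 * (m + 1) + 1 = m + 3 + m := by ring
    rw [e, Finset.sum_range_add]
    have h1 : ∑ j ∈ Finset.range (m + 3), (if j < m + 3 then (0 : ℤ) else 1) = 0 :=
      Finset.sum_eq_zero fun j hj => if_pos (Finset.mem_range.1 hj)
    have h2 : ∑ j ∈ Finset.range m, (if m + 3 + j < m + 3 then (0 : ℤ) else 1) =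
        ∑ j ∈ Finset.range m, (1 : ℤ) :=
      Finset.sum_congr rfl fun j _ => if_neg (by omega)
    rw [h1, h2, Finset.sum_const, Finset.card_range]
    simp
  rw [h1, Finset.sum_add_distrib, h2, OW.sum_id]
  push_cast
  ring

/-- the sum of the differences before the pause -/
lemma g_sum (n : ℕ) (hn : 1 ≤ n) (S : ℕ → ℤ)
    (hS : ∑ i ∈ Finset.range (2 * n + 2 + 1), S i = ∑ i ∈ Finset.range (2 * n + 2 + 1), (i : ℤ)) :
    ∑ i ∈ Finset.range (2 * n + 1), (2 * (kk n i : ℤ) - i - S i) =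
      -(2 * (n : ℤ) + 5) + S (2 * n + 1) + S (2 * n + 2) := by
  rw [split2, split2, OW.sum_id] at hS
  rw [Finset.sum_sub_distrib, Finset.sum_sub_distrib, ← Finset.mul_sum, sum_kk n hn, OW.sum_id]
  push_cast at hS
  linarith

/-- the sum of the differences after the pause -/
lemma G_sum (n : ℕ) (k AL : ℕ → ℤ)
    (hk : ∑ i ∈ Finset.range (2 * n + 2 + 1), k i = ∑ i ∈ Finset.range (2 * n + 2 + 1), (i : ℤ))
    (hA : ∑ i ∈ Finset.range (2 * n + 2 + 1), AL i = ∑ i ∈ Finset.range (2 * n + 2 + 1), (i : ℤ)) :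
    ∑ i ∈ Finset.range (2 * n + 1), (2 * k i - AL i - i - if i % 2 = 1 then (2 : ℤ) else 0) =
      (2 * (n : ℤ) + 3) - (2 * k (2 * n + 1) - AL (2 * n + 1)) -
        (2 * k (2 * n + 2) - AL (2 * n + 2)) := by
  rw [split2, split2, OW.sum_id] at hk hA
  rw [Finset.sum_sub_distrib, Finset.sum_sub_distrib, Finset.sum_sub_distrib, ← Finset.mul_sum,
    OW.sum_id, sum_odd]
  push_cast at hk hA
  linarith

lemma PK_large (n K : ℕ) (h : 1000 * (2 * n + 5) ^ 3 ≤ K)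
    (hs : 4 * (2 * n + 3) * PK K (n + 1) + (2 * n + 3) ^ 2 = K) :
    40 * (2 * n + 3) ^ 2 ≤ PK K (n + 1) := by
  by_contra hcon
  push Not at hcon
  have h1 : 4 * (2 * n + 3) * PK K (n + 1) ≤ 4 * (2 * n + 3) * (40 * (2 * n + 3) ^ 2) :=
    Nat.mul_le_mul_left _ hcon.le
  have h2 : K ≤ 4 * (2 * n + 3) * (40 * (2 * n + 3) ^ 2) + (2 * n + 3) ^ 2 := by omega
  have h3 : 4 * (2 * n + 3) * (40 * (2 * n + 3) ^ 2) + (2 * n + 3) ^ 2 <
      1000 * (2 * n + 5) ^ 3 := by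
    ring_nf
    nlinarith
  omega

/-- the lag of a paused strand -/
lemma lag_ex (n κ al s : ℕ) (hal : al ≤ 2 * n + 2) (hs : s ≤ 2 * n + 2) (hpar : al % 2 = s % 2)
    (h : (2 * (κ : ℤ) - al - s + if s % 2 = 0 then 2 else 0) % (2 * n + 3) = 0) :
    ∃ z : ℕ, z % 2 = 0 ∧
      (2 * (n : ℤ) + 3) * z = 2 * (κ : ℤ) - al - s + if s % 2 = 0 then 2 else 0 := by
  obtain ⟨z, hz⟩ := Int.dvd_of_emod_eq_zero h
  obtain ⟨y, hy⟩ : ∃ y : ℤ, 2 * (κ : ℤ) - al - s + (if s % 2 = 0 then (2 : ℤ) else 0) = 2 * y := by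
    refine ⟨(2 * (κ : ℤ) - al - s + (if s % 2 = 0 then (2 : ℤ) else 0)) / 2, ?_⟩
    split_ifs <;> omega
  have hev : z % 2 = 0 := by
    rw [hz] at hy
    have h1 : z = 2 * (y - (n + 1) * z) := by linear_combination hy
    omega
  have hge : 0 ≤ z := by
    by_contra hneg
    have h2 : z ≤ -2 := by omega
    have h3 : (2 * (n : ℤ) + 3) * z ≤ (2 * (n : ℤ) + 3) * (-2) :=
      mul_le_mul_of_nonneg_left h2 (by positivity)
    have h4 : -(4 * (n : ℤ) + 4) ≤ 2 * (κ : ℤ) - al - s + (if s % 2 = 0 then (2 : ℤ) else 0) := by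
      split_ifs <;> omega
    linarith
  obtain ⟨z', rfl⟩ := Int.eq_ofNat_of_zero_le hge
  exact ⟨z', by omega, hz.symm⟩

lemma hd_par (q s p : ℕ) (hq : q % 2 = 1) (hp : p % 2 = 0) :
    Pool.Agent.Y790.LG.hd q s p % 2 = ((s : ℤ) + 1) % 2 := by
  obtain ⟨r, hr⟩ : ∃ r, p = 2 * r := ⟨p / 2, by omega⟩
  obtain ⟨u, hu⟩ : ∃ u, q = 2 * u + 1 := ⟨q / 2, by omega⟩
  unfold Pool.Agent.Y790.LG.hd
  rw [hr, hu]
  push_cast
  have e : (s : ℤ) - (2 * u + 1) - 2 * r * (2 * u + 1) =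
      (s : ℤ) + 1 + 2 * (-(u : ℤ) - 1 - r * (2 * u + 1)) := by ring
  rw [e, Int.add_mul_emod_self_left]

lemma sg_le (n μ : ℕ) (a : ℕ → ℕ)
    (h : ∀ j ≤ 2 * n + 2, j ≠ 2 * μ → j ≠ 2 * μ + 1 → a j ≤ 2 * n) (j : ℕ) (hj : j ≤ 2 * n + 2) :
    sg n μ a j ≤ 2 * n + 2 := by
  unfold sg
  split_ifs with h1 h2
  · omega
  · omega
  · have := h j hj h1 h2
    omega

lemma sg_surj (n μ : ℕ) (a : ℕ → ℕ) (hμ : μ ≤ n)
    (h : ∀ i ≤ 2 * n, ∃ j ≤ 2 * n + 2, j ≠ 2 * μ ∧ j ≠ 2 * μ + 1 ∧ a j = i) (i : ℕ)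
    (hi : i ≤ 2 * n + 2) : ∃ j ≤ 2 * n + 2, sg n μ a j = i := by
  rcases Nat.lt_or_ge i (2 * n + 1) with h1 | h1
  · obtain ⟨j, hj, hj1, hj2, hj3⟩ := h i (by omega)
    refine ⟨j, hj, ?_⟩
    unfold sg
    rw [if_neg hj1, if_neg hj2, hj3]
  · rcases Nat.eq_or_lt_of_le h1 with h2 | h2
    · refine ⟨2 * μ, by omega, ?_⟩
      unfold sg
      rw [if_pos rfl, h2]
    · refine ⟨2 * μ + 1, by omega, ?_⟩
      unfold sg
      rw [if_neg (by omega), if_pos rfl]
      omega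

lemma cross_act (n i P2 p3 al k : ℕ) (h1 : P2 % 2 = 0)
    (h3 : (2 * (n : ℤ) + 3) * p3 = (2 * (k : ℤ) - al - i - if i % 2 = 1 then 2 else 0) +
      (2 * n + 1) * P2) :
    sh (Pool.Agent.Y790.LG.hd (2 * n + 1) i P2) + ((al : ℤ) + (p3 : ℤ) * (2 * n + 3)) =
      2 * (k : ℤ) - (2 * n + 3) := by
  have h4 := hd_par (2 * n + 1) i P2 (by omega) h1
  unfold sh
  rw [h4]
  unfold Pool.Agent.Y790.LG.hd
  push_cast
  rcases Nat.mod_two_eq_zero_or_one i with h5 | h5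
  · rw [if_neg (by omega)] at h3
    rw [if_neg (by omega)]
    linear_combination h3
  · rw [if_pos h5] at h3
    rw [if_pos (by omega)]
    linear_combination h3

lemma cross_pau (n s p D z r al k : ℕ) (hp : p % 2 = 0) (hD : D % 2 = 0)
    (hDz : (D : ℤ) = (2 * (n : ℤ) + 3) * (r : ℤ))
    (hz : (2 * (n : ℤ) + 3) * z = 2 * (k : ℤ) - al - s + if s % 2 = 0 then 2 else 0) :
    sh (Pool.Agent.Y790.LG.hd (2 * (n + 1) + 1) s p - D) +
      ((al : ℤ) + ((z + r + p : ℕ) : ℤ) * (2 * n + 3)) = 2 * (k : ℤ) - (2 * n + 3) := by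
  have h4 : (Pool.Agent.Y790.LG.hd (2 * (n + 1) + 1) s p - D) % 2 = ((s : ℤ) + 1) % 2 := by
    have h1 := hd_par (2 * (n + 1) + 1) s p (by omega) hp
    omega
  unfold sh
  rw [h4]
  unfold Pool.Agent.Y790.LG.hd
  push_cast
  rcases Nat.mod_two_eq_zero_or_one s with h5 | h5
  · rw [if_pos h5] at hz
    rw [if_neg (by omega)]
    linear_combination hz - hDz
  · rw [if_neg (by omega)] at hz
    rw [if_pos (by omega)]
    linear_combination hz - hDz

end Edge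

open Edge in
open Pool.Agent.Y790.TR.OW (sum_perm rt_le rt_surj sum_odd PK_spec ex_em) in
/-- **A new node joined by an edge.** -/
theorem edge (ho : OutSegG) (hr : RelG) (hoc : OutCongrG) (hm : MidStm) (hts : TuneSStm)
    (hae : ArrEStm) (hge : GatherE) : EdgeStm := by
  intro n m M K A B c b I up V hn hM hqM hQM hMK hK8 h1000 hV hup hOut
  have hgo : GoStm := go segCongr segTrans fwd
    (conn segCongr segTrans (wait fwd) (mov0 fwd segCongr segTrans))
  have e23 : 2 * (n + 1) + 1 = 2 * n + 3 := by ring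
  have e22 : 2 * (n + 1) = 2 * n + 2 := by ring
  have hQK : 2 * n + 3 ∣ K := hQM.trans hMK
  have hQ3 : (2 * n + 3) ^ 2 ≤ K := by
    have h1 : (2 * n + 3) ^ 2 ≤ (2 * n + 5) ^ 2 := Nat.pow_le_pow_left (by omega) 2
    have h2 : (2 * n + 5) ^ 2 ≤ (2 * n + 5) ^ 3 := Nat.pow_le_pow_right (by omega) (by omega)
    omega
  obtain ⟨hPs, hPe⟩ := PK_spec (n + 1) K hK8 (by rw [e23]; exact hQK) (by rw [e23]; exact hQ3)
  rw [e23] at hPs
  have hPl := PK_large n K h1000 hPs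
  -- the place of the node
  obtain ⟨x0, hx0⟩ := ex_em A B (b V) hOut.1
  obtain ⟨t, htq⟩ : ∃ t : ℕ, (t : ℤ) = x0 % ((2 * n + 3 : ℕ) : ℤ) :=
    ⟨(x0 % ((2 * n + 3 : ℕ) : ℤ)).toNat, Int.toNat_of_nonneg (Int.emod_nonneg _ (by omega))⟩
  have htl : t ≤ 2 * n + 2 := by
    have := Int.emod_lt_of_pos x0 (show (0 : ℤ) < ((2 * n + 3 : ℕ) : ℤ) by omega)
    omega
  obtain ⟨μ, t', a, al, κ, hμ, ht', ha1, ha2, hal1, hal2, hκ1, hκ2, hκ3, hs1, hκ4, hfree, hpair⟩ :=
    hae n t hn htl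
  have hs_le : ∀ j ≤ 2 * n + 2, rt (2 * n + 3) t j ≤ 2 * n + 2 := by
    intro j hj
    have := rt_le (q := 2 * n + 3) (t := t) (s := j) (by omega) (by omega)
    omega
  -- the numbering
  have hσ1 := sg_le n μ a (fun j hj h1 h2 => (ha1 j hj h1 h2).1)
  have hσ2 := sg_surj n μ a hμ ha2
  obtain ⟨π, hπ1, hπ2⟩ := inv_ex (2 * n + 2) (sg n μ a) hσ1 hσ2
  have hπs : ∀ s ≤ 2 * n + 2, ∃ i ≤ 2 * n + 2, π i = s :=
    fun s hs => ⟨sg n μ a s, hσ1 s hs, hπ2 s hs⟩
  have hπ3 : ∀ i ≤ 2 * n, π i ≠ 2 * μ ∧ π i ≠ 2 * μ + 1 ∧ a (π i) = i := by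
    intro i hi
    have h := (hπ1 i (by omega)).2
    unfold sg at h
    split_ifs at h with h1 h2
    · omega
    · omega
    · exact ⟨h1, h2, h⟩
  have hπ4 : π (2 * n + 1) = 2 * μ := by
    have h := hπ2 (2 * μ) (by omega)
    unfold sg at h
    rwa [if_pos rfl] at h
  have hπ5 : π (2 * n + 2) = 2 * μ + 1 := by
    have h := hπ2 (2 * μ + 1) (by omega)
    unfold sg at h
    rwa [if_neg (by omega), if_pos rfl] at h
  -- the lags before the pause
  obtain ⟨p, p', hpe, hp', hpsum, j0, hj0, hj01, hj02, hj03⟩ := hts n (PK K (n + 1)) μ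
    (fun j => 2 * (kk n (a j) : ℤ) - a j - rt (2 * n + 3) t j) hμ hPe hPl
    (by
      intro j hj h1 h2
      obtain ⟨h3, h4⟩ := ha1 j hj h1 h2
      have h5 := hs_le j hj
      unfold kk
      split_ifs <;> omega)
  obtain ⟨P', hP'⟩ : ∃ P' : ℕ, P' = ∑ i ∈ Finset.range (2 * n + 1), p' (π i) := ⟨_, rfl⟩
  have hp'i : ∀ i ≤ 2 * n, p' (π i) % 2 = 0 ∧ (2 * (n : ℤ) + 1) * p' (π i) =
      (2 * (kk n i : ℤ) - i - rt (2 * n + 3) t (π i)) + (2 * n + 3) * p (π i) := by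
    intro i hi
    obtain ⟨h1, h2, h3⟩ := hπ3 i hi
    have h4 := hp' (π i) (hπ1 i (by omega)).1 h1 h2
    rw [h3] at h4
    exact h4
  have hP'e : P' % 2 = 0 := by
    rw [hP']
    exact Nat.mod_eq_zero_of_dvd (Finset.dvd_sum fun i hi => Nat.dvd_of_mod_eq_zero
      (hp'i i (by have := Finset.mem_range.1 hi; omega)).1)
  have hP'l : 4 * (2 * n + 3) * (2 * n + 1) ≤ P' := by
    refine hj03.trans ?_
    have h1 := (ha1 j0 hj0 hj01 hj02).1
    have h2 : π (a j0) = j0 := by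
      have h := hπ2 j0 hj0
      unfold sg at h
      rwa [if_neg hj01, if_neg hj02] at h
    have h3 := Finset.single_le_sum (f := fun i => p' (π i)) (s := Finset.range (2 * n + 1))
      (fun i _ => Nat.zero_le _) (Finset.mem_range.2 (show a j0 < 2 * n + 1 by omega))
    simp only [h2] at h3
    rw [hP']
    exact h3
  -- sums
  have hSsum : ∑ i ∈ Finset.range (2 * n + 2 + 1), (rt (2 * n + 3) t (π i) : ℤ) =
      ∑ i ∈ Finset.range (2 * n + 2 + 1), (i : ℤ) := by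
    rw [sum_perm (2 * n + 2) π (fun j hj => (hπ1 j hj).1) hπs
      (fun j => (rt (2 * n + 3) t j : ℤ))]
    exact sum_perm (2 * n + 2) (rt (2 * n + 3) t) hs_le
      (fun s hs => by
        obtain ⟨j, hj, hjs⟩ := rt_surj (q := 2 * n + 3) (t := t) (by omega) s (by omega)
        exact ⟨j, by omega, hjs⟩) (fun j => (j : ℤ))
  have hAsum : ∑ i ∈ Finset.range (2 * n + 2 + 1), (al (π i) : ℤ) =
      ∑ i ∈ Finset.range (2 * n + 2 + 1), (i : ℤ) := by
    rw [sum_perm (2 * n + 2) π (fun j hj => (hπ1 j hj).1) hπs (fun j => (al j : ℤ))]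
    exact sum_perm (2 * n + 2) al (fun j hj => (hal1 j hj).1) hal2 (fun j => (j : ℤ))
  obtain ⟨kap, hkap⟩ : ∃ kap : ℕ → ℕ, kap = kf n (κ (2 * μ)) (κ (2 * μ + 1)) := ⟨_, rfl⟩
  have hkap1 : ∀ i ≤ 2 * n + 2, kap i ≤ 2 * n + 2 := by
    rw [hkap]
    exact kf_le n _ _ hκ1 hκ2
  have hkap2 : ∀ s ≤ 2 * n + 2, ∃ i ≤ 2 * n + 2, kap i = s := by
    rw [hkap]
    exact kf_surj n _ _ hκ1 hκ2 hκ3
  have hkap3 : kap (2 * n + 1) = κ (2 * μ) := by
    rw [hkap]
    unfold kf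
    rw [if_neg (by omega), if_pos rfl]
  have hkap4 : kap (2 * n + 2) = κ (2 * μ + 1) := by
    rw [hkap]
    unfold kf
    rw [if_neg (by omega), if_neg (by omega)]
  have hKsum : ∑ i ∈ Finset.range (2 * n + 2 + 1), (kap i : ℤ) =
      ∑ i ∈ Finset.range (2 * n + 2 + 1), (i : ℤ) :=
    sum_perm (2 * n + 2) kap hkap1 hkap2 (fun j => (j : ℤ))
  have hgs := g_sum n hn (fun i => (rt (2 * n + 3) t (π i) : ℤ)) hSsum
  have hGs := G_sum n (fun i => (kap i : ℤ)) (fun i => (al (π i) : ℤ)) hKsum hAsum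
  rw [hπ4, hπ5] at hgs hGs
  rw [hkap3, hkap4] at hGs
  -- lags of the paused strands
  obtain ⟨z1, hz1e, hz1⟩ := lag_ex n (κ (2 * μ)) (al (2 * μ)) (rt (2 * n + 3) t (2 * μ))
    (hal1 _ (by omega)).1 (hs_le _ (by omega)) (hal1 _ (by omega)).2 (hκ4 _ (Or.inl rfl))
  obtain ⟨z2, hz2e, hz2⟩ := lag_ex n (κ (2 * μ + 1)) (al (2 * μ + 1))
    (rt (2 * n + 3) t (2 * μ + 1)) (hal1 _ (by omega)).1 (hs_le _ (by omega))
    (hal1 _ (by omega)).2 (hκ4 _ (Or.inr rfl))
  have hz12 : (2 * (n : ℤ) + 3) * ((z1 : ℤ) + z2) =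
      (2 * (κ (2 * μ) : ℤ) - al (2 * μ) - rt (2 * n + 3) t (2 * μ)) +
      (2 * (κ (2 * μ + 1) : ℤ) - al (2 * μ + 1) - rt (2 * n + 3) t (2 * μ + 1)) + 2 := by
    rw [mul_add, hz1, hz2]
    rcases Nat.mod_two_eq_zero_or_one (rt (2 * n + 3) t (2 * μ)) with h | h
    · rw [if_pos h, if_neg (by omega)]
      ring
    · rw [if_neg (by omega), if_pos (by omega)]
      ring
  have hP'sum : (2 * (n : ℤ) + 1) * (P' : ℤ) = (-(2 * (n : ℤ) + 5) + rt (2 * n + 3) t (2 * μ) +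
      rt (2 * n + 3) t (2 * μ + 1)) +
      (2 * n + 3) * ∑ i ∈ Finset.range (2 * n + 1), (p (π i) : ℤ) := by
    rw [← hgs, Finset.mul_sum, ← Finset.sum_add_distrib, hP']
    push_cast
    rw [Finset.mul_sum]
    exact Finset.sum_congr rfl fun i hi =>
      (hp'i i (by have := Finset.mem_range.1 hi; omega)).2
  obtain ⟨p'', p3, hpp, hp''sum⟩ := tune n P'
    (fun i => 2 * (kap i : ℤ) - al (π i) - i - if i % 2 = 1 then (2 : ℤ) else 0) hP'e hP'l
    (by
      intro i hi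
      obtain ⟨h1, h2, h3⟩ := hπ3 i hi
      have h4 := (hπ1 i (by omega)).1
      obtain ⟨h5, h6⟩ := hal1 (π i) h4
      obtain ⟨h7, h8⟩ := ha1 (π i) h4 h1 h2
      rw [h3] at h8
      split_ifs <;> omega)
    (by
      rw [hGs]
      have h1 : (2 * (n : ℤ) + 3 - (2 * (κ (2 * μ) : ℤ) - al (2 * μ)) -
          (2 * (κ (2 * μ + 1) : ℤ) - al (2 * μ + 1)) + (2 * n + 1) * (P' : ℤ)) =
          (2 * n + 3) * (∑ i ∈ Finset.range (2 * n + 1), (p (π i) : ℤ) - (z1 + z2)) := by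
        rw [hP'sum]
        linear_combination hz12
      exact Int.emod_eq_zero_of_dvd ⟨_, h1⟩)
  -- the lags at the end, without the contribution of the pause
  obtain ⟨W1, hW1⟩ := hgo (n + 1) (PK K (n + 1)) p t (by omega)
    (fun j hj => hpe j (by omega)) (by rw [e23]; exact hpsum) (by omega)
  obtain ⟨W2, hW2⟩ := hm n (fun i => p' (π i)) p'' hn (fun i hi => (hp'i i hi).1)
    (fun i hi => (hpp i hi).1) (by rw [hp''sum, hP'])
  refine ⟨K + 8 * (W1 + W2 + x0.natAbs + 1), fun K' hK' hKM => ?_⟩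
  -- the number of vertices
  obtain ⟨r, hrr⟩ : 16 * M ∣ K' - K := (Nat.modEq_iff_dvd' (by omega)).1 hKM.symm
  obtain ⟨M1, hM1⟩ := hqM
  obtain ⟨M2, hM2⟩ := hQM
  obtain ⟨D, hD⟩ : ∃ D : ℕ, D = 2 * M * r := ⟨_, rfl⟩
  have hD8 : K' = K + 8 * D := by
    have e : 16 * M * r = 8 * (2 * M * r) := by ring
    omega
  have hDq : D = (2 * n + 1) * (2 * M1 * r) := by
    rw [hD, hM1]
    ring
  have hDQ : D = (2 * n + 3) * (2 * M2 * r) := by
    rw [hD, hM2]
    ring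
  have hD2 : D % 2 = 0 := by
    rw [hD, mul_assoc]
    exact Nat.mul_mod_right _ _
  obtain ⟨W, hW⟩ : ∃ W : ℕ, (W : ℤ) = x0 + D := ⟨(x0 + D).toNat, Int.toNat_of_nonneg (by omega)⟩
  have hWt : W % (2 * (n + 1) + 1) = t := by
    have h1 : ((W % (2 * n + 3) : ℕ) : ℤ) = t := by
      rw [htq, Int.natCast_emod, hW, hDQ]
      push_cast
      rw [Int.add_mul_emod_self_left]
    rw [e23]
    exact_mod_cast h1
  obtain ⟨C, hC, hSeg⟩ := hW1 W (by omega) hWt
  obtain ⟨A1, B1, hOut1, hem1⟩ := ho (n + 1) m A B _ _ c b I up C W (by exact_mod_cast hC.symm)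
    hOut hSeg
  have hbV : b V = em A1 B1 (-(D : ℤ)) := by
    rw [hem1, hx0]
    congr 1
    rw [hW]
    ring
  have hOut2 := hr (n + 1) m A1 B1 _ c b I up π (fun j hj => (hπ1 j hj).1) hπs hOut1
  -- the crossing sums before the pause
  have hcr : ∀ i ≤ 2 * n, hd (2 * (n + 1) + 1) (rt (2 * (n + 1) + 1) t (π i)) (p (π i)) +
      ((i : ℤ) + (p' (π i) : ℤ) * (2 * n + 1)) = 2 * (kk n i : ℤ) - (2 * n + 3) := by
    intro i hi
    have h := (hp'i i hi).2
    rw [e23]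
    unfold Pool.Agent.Y790.LG.hd
    push_cast
    linarith
  have hOut3 := hW2 m A1 B1 _ _ b I up V D hOut2 hV hup (by omega) (by omega)
    (by
      rw [hDq]
      push_cast
      exact Int.mul_emod_right _ _)
    hbV
    (by
      intro k hk0 hk1 hk2
      obtain ⟨k', rfl⟩ := Int.eq_ofNat_of_zero_le hk0
      have hk3 : k' ≠ n + 2 := fun h => hk2 (by rw [h]; push_cast; ring)
      rcases Nat.lt_or_ge k' (n + 2) with h | h
      · refine ⟨k', by omega, ?_⟩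
        have h1 := hcr k' (by omega)
        have h2 : kk n k' = k' := by
          unfold kk
          rw [if_pos h]
        rw [h2] at h1
        exact h1
      · refine ⟨k' - 1, by omega, ?_⟩
        have h1 := hcr (k' - 1) (by omega)
        have h2 : kk n (k' - 1) = k' := by
          unfold kk
          rw [if_neg (by omega)]
          omega
        rw [h2] at h1
        exact h1)
    (by
      intro i hi
      have h1 := hcr i hi
      unfold Pool.Agent.Y790.LG.Od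
      rw [h1]
      omega)
  -- the lags at the end
  obtain ⟨p4, hp4⟩ : ∃ p4 : ℕ → ℕ, p4 = fun i => if i ≤ 2 * n then p3 i else
      if i = 2 * n + 1 then z1 + 2 * M2 * r + p (2 * μ) else z2 + 2 * M2 * r + p (2 * μ + 1) :=
    ⟨_, rfl⟩
  have hp40 : ∀ i ≤ 2 * n, p4 i = p3 i := by
    intro i hi
    rw [hp4]
    simp only
    rw [if_pos hi]
  have hp41 : p4 (2 * n + 1) = z1 + 2 * M2 * r + p (2 * μ) := by
    rw [hp4]
    simp only
    rw [if_neg (by omega), if_pos trivial]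
  have hp42 : p4 (2 * n + 2) = z2 + 2 * M2 * r + p (2 * μ + 1) := by
    rw [hp4]
    simp only
    rw [if_neg (by omega), if_neg (by omega)]
  have hp4e : ∀ i ≤ 2 * n + 2, p4 i % 2 = 0 := by
    intro i hi
    have h0 : 2 * M2 * r % 2 = 0 := by
      rw [mul_assoc]
      exact Nat.mul_mod_right _ _
    have h1 := hpe (2 * μ) (by omega)
    have h2 := hpe (2 * μ + 1) (by omega)
    rcases Nat.lt_or_ge i (2 * n + 1) with h | h
    · rw [hp40 i (by omega)]
      exact (hpp i (by omega)).2.1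
    · rcases Nat.eq_or_lt_of_le h with h | h
      · rw [← h, hp41]
        omega
      · have : i = 2 * n + 2 := by omega
        rw [this, hp42]
        omega
  have hDz : (D : ℤ) = (2 * (n : ℤ) + 3) * ((2 * M2 * r : ℕ) : ℤ) := by exact_mod_cast hDQ
  -- the crossing sums after the pause
  have hcross : ∀ i ≤ 2 * n + 2, sh (if i ≤ 2 * n then hd (2 * n + 1) i (p'' i) else
      hd (2 * (n + 1) + 1) (rt (2 * (n + 1) + 1) t (π i)) (p (π i)) - D) +
      ((al (π i) : ℤ) + (p4 i : ℤ) * (2 * n + 3)) = 2 * (kap i : ℤ) - (2 * n + 3) := by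
    intro i hi
    rcases Nat.lt_or_ge i (2 * n + 1) with h | h
    · rw [if_pos (show i ≤ 2 * n by omega), hp40 i (by omega)]
      obtain ⟨h1, h2, h3⟩ := hpp i (by omega)
      exact cross_act n i (p'' i) (p3 i) (al (π i)) (kap i) h1 h3
    · rw [if_neg (by omega)]
      rcases Nat.eq_or_lt_of_le h with h | h
      · rw [← h, hπ4, hp41, e23, hkap3]
        exact cross_pau n _ _ D z1 (2 * M2 * r) _ _ (hpe (2 * μ) (by omega)) hD2 hDz hz1
      · have h6 : i = 2 * n + 2 := by omega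
        rw [h6, hπ5, hp42, e23, hkap4]
        exact cross_pau n _ _ D z2 (2 * M2 * r) _ _ (hpe (2 * μ + 1) (by omega)) hD2 hDz hz2
  obtain ⟨S, hS⟩ : ∃ S, S = ∑ j ∈ Finset.range (2 * n + 2 + 1), p4 j := ⟨_, rfl⟩
  have hp4S : ∀ j ≤ 2 * n + 2, p4 j ≤ S := by
    intro j hj
    rw [hS]
    exact Finset.single_le_sum (f := p4) (fun i _ => Nat.zero_le _)
      (Finset.mem_range.2 (by omega))
  have hseg := fwd (n + 1) _ (fun i => al (π i)) p4 (2 * S + 2) t' (by omega)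
    (fun j hj => (hal1 _ (hπ1 j (by omega)).1).1)
    (fun s hs => by
      obtain ⟨j, hj, hjs⟩ := hal2 s (by omega)
      obtain ⟨i, hi, hij⟩ := hπs j hj
      exact ⟨i, by omega, by rw [hij, hjs]⟩)
    (fun j hj => by
      have h := hcross j (by omega)
      unfold Pool.Agent.Y790.LG.Od
      push_cast
      have e : (2 * ((n : ℤ) + 1) + 1) = 2 * n + 3 := by ring
      rw [e, h]
      omega)
    (fun k hk0 hk => by
      obtain ⟨k', rfl⟩ := Int.eq_ofNat_of_zero_le hk0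
      obtain ⟨i, hi, hik⟩ := hkap2 k' (by push_cast at hk; omega)
      refine ⟨i, by omega, ?_⟩
      have h := hcross i hi
      rw [hik] at h
      push_cast
      have e : (2 * ((n : ℤ) + 1) + 1) = 2 * n + 3 := by ring
      rw [e, h])
    (fun j hj => by
      have h := hp4S j (by omega)
      unfold Pool.Agent.Y790.LG.cst
      split_ifs <;> omega)
    (fun j hj _ => hp4e j (by omega))
  obtain ⟨A3, B3, hOut4, -⟩ := ho (n + 1) (m + 1) _ _ _ _ _ _ _ _ _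
    (∑ j ∈ Finset.range (2 * (n + 1) + 1), (cst (2 * S + 2) t' (al (π j)) : ℤ)) rfl hOut3 hseg
  have hOut5 := hr _ _ _ _ _ _ _ _ _ (sg n μ a) hσ1 hσ2 hOut4
  have hOut6 := hoc (n + 1) (m + 1) A3 B3 _ (fun j => hd (2 * n + 3)
    (rt (2 * n + 3) t' (al j)) (p4 (sg n μ a j))) _ c _ _ _ up up
    (fun j hj => by
      rw [hπ2 j hj, e23])
    (fun j hj => by
      show c (π (sg n μ a j)) = c j
      rw [hπ2 j hj])
    (fun i _ => rfl) (fun i _ => rfl) hOut5
  -- the sum of the lags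
  have hK'8 : K' % 8 = 1 := by omega
  have hQK' : 2 * (n + 1) + 1 ∣ K' := by
    rw [e23, hD8, hDQ]
    exact Dvd.dvd.add hQK ⟨8 * (2 * M2 * r), by ring⟩
  obtain ⟨hP's, -⟩ := PK_spec (n + 1) K' hK'8 hQK' (by rw [e23]; omega)
  rw [e23] at hP's
  have hperm : ∑ j ∈ Finset.range (2 * n + 3), p4 (sg n μ a j) = S := by
    have h := sum_perm (2 * n + 2) (sg n μ a) hσ1 hσ2 (fun j => (p4 j : ℤ))
    rw [hS]
    exact_mod_cast h
  have hSP : S = PK K' (n + 1) := by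
    have hpπ : ∑ i ∈ Finset.range (2 * n + 1), (p (π i) : ℤ) + p (2 * μ) + p (2 * μ + 1) =
        PK K (n + 1) := by
      have h1 := sum_perm (2 * n + 2) π (fun j hj => (hπ1 j hj).1) hπs (fun j => (p j : ℤ))
      rw [split2, hπ4, hπ5] at h1
      rw [h1]
      exact_mod_cast hpsum
    have h1 : (S : ℤ) = ∑ i ∈ Finset.range (2 * n + 1), (p3 i : ℤ) +
        (z1 + 2 * M2 * r + p (2 * μ) : ℕ) + (z2 + 2 * M2 * r + p (2 * μ + 1) : ℕ) := by
      rw [hS]
      push_cast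
      rw [split2, hp41, hp42]
      rw [Finset.sum_congr rfl fun j hj => by
        rw [hp40 j (by have := Finset.mem_range.1 hj; omega)]]
      push_cast
      ring
    have h2 : (2 * (n : ℤ) + 3) * ∑ i ∈ Finset.range (2 * n + 1), (p3 i : ℤ) =
        (2 * (n : ℤ) + 3 - (2 * (κ (2 * μ) : ℤ) - al (2 * μ)) -
          (2 * (κ (2 * μ + 1) : ℤ) - al (2 * μ + 1))) + (2 * n + 1) * (P' : ℤ) := by
      rw [Finset.mul_sum, Finset.sum_congr rfl fun j hj =>
        (hpp j (by have := Finset.mem_range.1 hj; omega)).2.2, Finset.sum_add_distrib, hGs,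
        ← Finset.mul_sum, ← hp''sum]
      push_cast
      rfl
    have h3 : (4 * (2 * (n : ℤ) + 3)) * (S : ℤ) = (4 * (2 * (n : ℤ) + 3)) * (PK K' (n + 1) : ℤ) := by
      have h4 : (4 * (2 * n + 3) * PK K (n + 1) + (2 * n + 3) ^ 2 : ℤ) = K := by exact_mod_cast hPs
      have h5 : (4 * (2 * n + 3) * PK K' (n + 1) + (2 * n + 3) ^ 2 : ℤ) = K' := by
        exact_mod_cast hP's
      have h6 : (K' : ℤ) = K + 8 * D := by exact_mod_cast hD8
      rw [h1]
      push_cast at hDz ⊢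
      linear_combination 4 * h2 + 4 * hP'sum + 4 * hz12 + 4 * (2 * (n : ℤ) + 3) * hpπ + h4 - h5 -
        h6 - 8 * hDz
    have h8 := mul_left_cancel₀ (by positivity) h3
    exact_mod_cast h8
  obtain ⟨A4, B4, c', hOut7, hPrs⟩ := hge n (m + 1) (PK K' (n + 1)) A3 B3 c _ _ up
    (fun j => rt (2 * n + 3) t' (al j)) (fun j => p4 (sg n μ a j))
    (fun j hj => by
      have := rt_le (q := 2 * n + 3) (t := t') (s := al j) (by have := (hal1 j hj).1; omega) ht'
      show rt (2 * n + 3) t' (al j) ≤ 2 * n + 2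
      omega)
    (fun i hi => by
      obtain ⟨s, hs, hsi⟩ := rt_surj (q := 2 * n + 3) ht' i (by omega)
      obtain ⟨j, hj, hjs⟩ := hal2 s (by omega)
      exact ⟨j, hj, by
        show rt (2 * n + 3) t' (al j) = i
        rw [hjs, hsi]⟩)
    hfree hpair (fun j hj => hp4e _ (hσ1 j hj)) (by rw [← hSP]; exact hperm) hOut6
  refine ⟨A4, B4, c', bN m (B1 + D + 1) b, hOut7, fun i hi => ?_, hPrs⟩
  unfold bN
  rw [if_neg (by omega)]

end Pool.Agent.Y790.TG
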