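import Pool.Agent.Y790.TR.Def3
import Pool.Agent.Y790.TR.EvR

/-!
# Trees with long threads and edges: the event with a free class (helper614, after helper430)
-/

set_option autoImplicit false

namespace Pool.Agent.Y790.TG

open Pool.Agent.Y790.TR
open Pool.Agent.Y790.LG (Od Sm rt cst hd Lg Kst prd Cls Lags)

open Pool.Agent.Y790.TR.EvRAux in
theorem evRG : EvRG := by
  intro n m A B x c b I up V xV a p w t hOut hV hbV ht ha hs hod hodV hcr hw hp
  obtain ⟨hAB, hA, hB, hnm, hI, L, hcount, hcov, hbI, hLI, hcn, hch, hlast, hsum⟩ := hOut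
  obtain ⟨M, W₀, kW, klen, klast, kb, kch, khd, kcov, ksum⟩ := core2 (2 * n + 3) (by omega) a p w t
    ht (fun j hj => Nat.lt_succ_of_le (ha j (by omega))) (fun s hs' => by
      obtain ⟨j, hj, h⟩ := hs s (by omega)
      exact ⟨j, by omega, h⟩) (fun j hj => hw j (by omega)) (fun j hj => hp j (by omega))
  have hW0 : 0 ≤ W₀ := by
    rw [kW]
    exact Finset.sum_nonneg fun j _ => by positivity
  obtain ⟨A', B', hAB', hA', hB', hsumAB, hem, hin1, hin2, hin3⟩ := ext_base A B W₀ hAB hA hB hW0
  -- the heads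
  obtain ⟨y₀, hy₀⟩ : ∃ y₀ : ℤ, y₀ = a (2 * n + 2) + p (2 * n + 2) * (2 * n + 3) := ⟨_, rfl⟩
  obtain ⟨tl, htl⟩ : ∃ tl, M (2 * n + 2) = y₀ :: tl := by
    have h1 := khd (2 * n + 2) (by omega)
    cases hM : M (2 * n + 2) with
    | nil => rw [hM] at h1; simp at h1
    | cons z l =>
      rw [hM, List.head?_cons, Option.some.injEq] at h1
      refine ⟨l, ?_⟩
      rw [h1, hy₀]
      push_cast
      rfl
  have kchX : ∀ (j : ℕ) (X : ℤ), j < 2 * n + 3 → Od X (a j + p j * (2 * n + 3)) →
      (X :: M j).IsChain Od ∧ Sm (X :: M j) (X + (a j + p j * (2 * n + 3))) := by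
    intro j X hj hX
    have h1 := khd j hj
    have h2 := kch j hj
    cases hM : M j with
    | nil => rw [hM] at h1; simp at h1
    | cons z l =>
      rw [hM] at h1 h2
      rw [List.head?_cons, Option.some.injEq] at h1
      push_cast at h1
      rw [h1] at h2 ⊢
      exact ⟨List.isChain_cons_cons.mpr ⟨hX, h2⟩, X, _, ⟨[], l, rfl⟩, rfl⟩
  obtain ⟨b', hb'⟩ : ∃ b', b' = bN m (em A B y₀) b := ⟨_, rfl⟩
  obtain ⟨c', hc'⟩ : ∃ c', c' = cM n m V c := ⟨_, rfl⟩
  obtain ⟨L', hL'⟩ : ∃ L' : ℕ → List ℤ, L' = fun j => if j = 2 * n + 2 then tl.map (em A B) else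
    if j = 2 * n + 1 then (M j).map (em A B) else L j ++ (M j).map (em A B) := ⟨_, rfl⟩
  have hb1 : ∀ i ≤ m, b' i = b i := fun i hi => by
    rw [hb', bN, if_neg (by omega)]
  have hb2 : b' (m + 1) = em A B y₀ := by
    rw [hb', bN, if_pos rfl]
  have hc1 : ∀ j ≤ 2 * n, c' j = c j := fun j hj => by
    rw [hc', cM, if_neg (by omega), if_neg (by omega)]
  have hc2 : c' (2 * n + 1) = V := by
    rw [hc', cM, if_neg (by omega), if_pos rfl]
  have hc3 : c' (2 * n + 2) = m + 1 := by
    rw [hc', cM, if_pos rfl]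
  have hL1 : ∀ j ≤ 2 * n, L' j = L j ++ (M j).map (em A B) := fun j hj => by
    rw [hL']
    simp only
    rw [if_neg (by omega), if_neg (by omega)]
  have hL2 : L' (2 * n + 1) = (M (2 * n + 1)).map (em A B) := by
    rw [hL']
    simp only
    rw [if_neg (by omega), if_pos trivial]
  have hL3 : L' (2 * n + 2) = tl.map (em A B) := by
    rw [hL']
    simp only
    rw [if_pos trivial]
  have hS1 : ∀ j ≤ 2 * n, b' (c' j) :: L' j = (b (c j) :: L j) ++ (M j).map (em A B) :=
    fun j hj => by rw [hc1 j hj, hb1 _ (hcn j hj), hL1 j hj, List.cons_append]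
  have hS2 : b' (c' (2 * n + 1)) :: L' (2 * n + 1) = [em A B xV] ++
      (M (2 * n + 1)).map (em A B) := by
    rw [hc2, hb1 _ hV, hL2, hbV, List.singleton_append]
  have hS3 : b' (c' (2 * n + 2)) :: L' (2 * n + 2) = (M (2 * n + 2)).map (em A B) := by
    rw [hc3, hb2, hL3, htl, List.map_cons]
  have hcase : ∀ j ≤ 2 * (n + 1), j ≤ 2 * n ∨ j = 2 * n + 1 ∨ j = 2 * n + 2 := fun j hj => by omega
  have hE : ∀ i ∈ I, b' i = b i ∧ b' (up i) = b (up i) := fun i hi => by
    obtain ⟨h1, h2, h3, -⟩ := hI i hi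
    exact ⟨hb1 i h2, hb1 _ (by omega)⟩
  rw [← hy₀, ← hb', ← hc']
  have hmem : ∀ j < 2 * n + 3, ∀ u ∈ M j, (∃ i ≤ m + 1, b' i = em A B u) ∨
      em A B u ∈ L' j := by
    intro j hj u hu
    rcases hcase j (by omega) with h | h | h
    · right
      rw [hL1 j h, List.mem_append]
      exact Or.inr (List.mem_map_of_mem hu)
    · right
      rw [h] at hu ⊢
      rw [hL2]
      exact List.mem_map_of_mem hu
    · rw [h] at hu ⊢
      rw [htl, List.mem_cons] at hu
      rcases hu with hu | hu
      · left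
        exact ⟨m + 1, le_rfl, by rw [hb2, hu]⟩
      · right
        rw [hL3]
        exact List.mem_map_of_mem hu
  refine ⟨A', B', hAB', hA', hB', by omega, ?_, L', ?_, ?_, ?_, ?_, ?_, ?_, ?_, ?_⟩
  · -- the edges
    intro i hi
    obtain ⟨h1, h2, h3, h4⟩ := hI i hi
    refine ⟨h1, by omega, h3, ?_⟩
    rw [(hE i hi).1, (hE i hi).2]
    exact h4
  · -- count
    have e1 : ∑ j ∈ Finset.range (2 * n + 1), ((L' j).length : ℤ) =
        ∑ j ∈ Finset.range (2 * n + 1), ((L j).length : ℤ) +
          ∑ j ∈ Finset.range (2 * n + 1), (cst w t (a j) : ℤ) := by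
      rw [← Finset.sum_add_distrib]
      refine Finset.sum_congr rfl fun j hj => ?_
      rw [Finset.mem_range] at hj
      rw [hL1 j (by omega), List.length_append, List.length_map, klen j (by omega)]
      push_cast
      ring
    have e2 : ((L' (2 * n + 1)).length : ℤ) = (cst w t (a (2 * n + 1)) : ℤ) := by
      rw [hL2, List.length_map, klen _ (by omega)]
    have e3 : ((L' (2 * n + 2)).length : ℤ) = (cst w t (a (2 * n + 2)) : ℤ) - 1 := by
      rw [hL3, List.length_map, ← klen (2 * n + 2) (by omega), htl, List.length_cons]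
      push_cast
      ring
    have e4 : W₀ = ∑ j ∈ Finset.range (2 * n + 1), (cst w t (a j) : ℤ) +
        (cst w t (a (2 * n + 1)) : ℤ) + (cst w t (a (2 * n + 2)) : ℤ) := by
      rw [kW, show 2 * n + 3 = 2 * n + 1 + 1 + 1 by ring, Finset.sum_range_succ,
        Finset.sum_range_succ]
    rw [show 2 * (n + 1) + 1 = 2 * n + 1 + 1 + 1 by ring, Finset.sum_range_succ,
      Finset.sum_range_succ, e1, e2, show 2 * n + 1 + 1 = 2 * n + 2 by ring, e3, hsumAB, hcount, e4]
    push_cast
    ring
  · -- cover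
    intro z hz
    rcases hin3 z hz with h | ⟨u, hu0, hu1, rfl⟩
    · rcases hcov z h with ⟨i, hi, h1⟩ | ⟨j, hj, h1⟩
      · exact Or.inl ⟨i, by omega, by rw [hb1 i hi, h1]⟩
      · refine Or.inr ⟨j, by omega, ?_⟩
        rw [hL1 j hj, List.mem_append]
        exact Or.inl h1
    · obtain ⟨j, hj, hu⟩ := kcov u hu0 hu1
      rcases hmem j hj u hu with h | h
      · exact Or.inl h
      · exact Or.inr ⟨j, by omega, h⟩
  · -- nodes
    intro i hi
    rcases Nat.lt_or_ge i (m + 1) with h | h
    · rw [hb1 i (by omega)]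
      exact hin1 _ (hbI i (by omega))
    · have h1 : i = m + 1 := by omega
      rw [h1, hb2]
      have h2 := kb (2 * n + 2) (by omega) y₀ (by rw [htl]; exact List.mem_cons_self)
      exact hin2 _ h2.1 h2.2
  · -- strands
    intro j hj z hz
    have hnew : ∀ z ∈ (M j).map (em A B), In A' B' z := by
      intro z hz
      obtain ⟨u, hu, rfl⟩ := List.mem_map.1 hz
      have h2 := kb j (by omega) u hu
      exact hin2 _ h2.1 h2.2
    rcases hcase j hj with h | h | h
    · rw [hL1 j h, List.mem_append] at hz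
      rcases hz with hz | hz
      · exact hin1 _ (hLI j h z hz)
      · exact hnew z hz
    · rw [h] at hz hnew
      rw [hL2] at hz
      exact hnew z hz
    · rw [h] at hz hnew
      rw [hL3] at hz
      refine hnew z ?_
      rw [htl, List.map_cons]
      exact List.mem_cons_of_mem _ hz
  · intro j hj
    rcases hcase j hj with h | h | h
    · rw [hc1 j h]
      have := hcn j h
      omega
    · rw [h, hc2]
      omega
    · rw [h, hc3]
  · -- chains
    intro j hj
    rcases hcase j hj with h | h | h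
    · rw [hS1 j h]
      exact ext_chain hAB (hch j h) (hlast j h) (kchX j (x j) (by omega) (hod j h)).1
    · rw [h, hS2]
      exact ext_chain hAB (by simp) (by simp) (kchX (2 * n + 1) xV (by omega) hodV).1
    · rw [h, hS3]
      exact chain_em hAB (kch _ (by omega))
  · -- last vertices
    intro j hj
    have h0 := klast j (by omega)
    rw [hem]
    rcases hcase j hj with h | h | h
    · rw [hS1 j h]
      exact ext_last h0
    · rw [h] at h0 ⊢
      rw [hS2]
      exact ext_last h0
    · rw [h] at h0 ⊢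
      rw [hS3]
      exact ext_last (S := []) h0
  · -- sums
    intro v hv hv1 hv2
    by_cases hv3 : v < A + B - (2 * n + 1)
    · rcases hsum v hv hv1 hv3 with ⟨i, hi, h⟩ | ⟨j, hj, h⟩
      · exact Or.inl ⟨i, hi, by rw [(hE i hi).1, (hE i hi).2, h]⟩
      · refine Or.inr ⟨j, by omega, ?_⟩
        rw [hS1 j hj]
        exact ext_old h
    · right
      obtain ⟨v', hv'⟩ : ∃ v', v' = v - (A + B) := ⟨_, rfl⟩
      have hvv : v = v' + (A + B) := by omega
      rw [hvv]
      by_cases hv4 : v' < 2 * n + 3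
      · have h4 : 2 * ((v' + (2 * (n : ℤ) + 1)) / 2) - (2 * n + 1) = v' := by omega
        rcases hcr ((v' + (2 * n + 1)) / 2) (by omega) (by omega) with ⟨j, hj, h5⟩ | h5
        · refine ⟨j, by omega, ?_⟩
          obtain ⟨h6, h7⟩ := kchX j (x j) (by omega) (hod j hj)
          rw [h5, h4] at h7
          rw [hS1 j hj]
          exact ext_new (hlast j hj) h6 h7
        · refine ⟨2 * n + 1, by omega, ?_⟩
          obtain ⟨h6, h7⟩ := kchX (2 * n + 1) xV (by omega) hodV
          rw [h5, h4] at h7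
          rw [hS2]
          exact ext_new (by simp) h6 h7
      · obtain ⟨j, hj, h5⟩ := ksum v' (by omega) (by push_cast; omega) (by push_cast at hv2 ⊢; omega)
        refine ⟨j, by omega, ?_⟩
        have h6 := sm_em (A := A) (B := B) (kch j hj) h5
        have h7 : ∀ S : List ℤ, Sm (S ++ (M j).map (em A B)) (v' + (A + B)) := fun S =>
          Pool.Agent.Y790.LG.Sm.inFx h6 (List.suffix_append S _).isInfix
        rcases hcase j (by omega) with h | h | h
        · rw [hS1 j h]
          exact h7 _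
        · rw [h] at h7 ⊢
          rw [hS2]
          exact h7 _
        · rw [h] at h7 ⊢
          rw [hS3]
          exact h7 []

end Pool.Agent.Y790.TG
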