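import Pool.Agent.Y790.TR.Def3

/-!
# Trees with few leaves: a new node on the other side (helper761)

Adapted from `Pool.Agent.Y790.TR.Ext` (helper815).
-/

set_option autoImplicit false

namespace Pool.Agent.Y790.TG

open Pool.Agent.Y790.TR
open Pool.Agent.Y790.LG (Od Sm rt cst hd Lg Kst prd Cls Lags)

theorem extWG : ExtWG := by
  intro n m A B x c b I up V xV hO hV hbV hxV
  obtain ⟨hAB, hA, hB, hcard, hI, L, hL, hcov, hb, hLi, hc, hch, hla, hsm⟩ := hO
  have hmono : ∀ z, In A B z → In A (B + 2) z := by
    intro z hz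
    obtain ⟨h1, h2, h3⟩ := hz
    exact ⟨h1, h2, fun h => by have := h3 h; omega⟩
  have hcN : ∀ j, j ≤ 2 * n → cM n m V c j = c j := by
    intro j hj
    unfold cM
    rw [if_neg (by omega), if_neg (by omega)]
  have hbN : ∀ i, i ≤ m → bN m (B + 1) b i = b i := by
    intro i hi
    unfold bN
    rw [if_neg (by omega)]
  obtain ⟨L', hL1, hL2⟩ : ∃ L' : ℕ → List ℤ, (∀ j, j ≤ 2 * n → L' j = L j) ∧
      ∀ j, ¬ j ≤ 2 * n → L' j = [] :=
    ⟨fun j => if j ≤ 2 * n then L j else [], fun j hj => if_pos hj, fun j hj => if_neg hj⟩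
  refine ⟨by omega, hA, by omega, by omega, ?_, L', ?_, ?_, ?_, ?_, ?_, ?_,
    ?_, ?_⟩
  · intro i hi
    obtain ⟨h1, h2, h3, h4⟩ := hI i hi
    refine ⟨h1, by omega, h3, ?_⟩
    rw [hbN i h2, hbN (up i) (by omega)]
    exact h4
  · have e : ∑ j ∈ Finset.range (2 * (n + 1) + 1), ((L' j).length : ℤ) =
        ∑ j ∈ Finset.range (2 * n + 1), ((L j).length : ℤ) := by
      rw [show 2 * (n + 1) + 1 = (2 * n + 1) + 1 + 1 by ring, Finset.sum_range_succ,
        Finset.sum_range_succ, hL2 _ (by omega), hL2 _ (by omega)]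
      simp only [List.length_nil, Nat.cast_zero, add_zero]
      refine Finset.sum_congr rfl fun j hj => ?_
      rw [Finset.mem_range] at hj
      rw [hL1 _ (by omega)]
    rw [e]
    push_cast
    linarith
  · intro z hz
    obtain ⟨h1, h2, h3⟩ := hz
    by_cases hz : z = B + 1
    · left
      refine ⟨m + 1, le_rfl, ?_⟩
      unfold bN
      rw [if_pos rfl, hz]
    · have h4 : In A B z := by
        refine ⟨h1, h2, fun h => ?_⟩
        have := h3 h
        omega
      rcases hcov z h4 with ⟨i, hi, hi2⟩ | ⟨j, hj, hj2⟩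
      · exact Or.inl ⟨i, by omega, by rw [hbN i hi]; exact hi2⟩
      · refine Or.inr ⟨j, by omega, ?_⟩
        rw [hL1 j hj]
        exact hj2
  · intro i hi
    by_cases h : i = m + 1
    · subst h
      unfold bN
      rw [if_pos rfl]
      refine ⟨by omega, fun h => ?_, fun h => by omega⟩
      exfalso
      omega
    · rw [hbN i (by omega)]
      exact hmono _ (hb i (by omega))
  · intro j hj z hz
    by_cases h : j ≤ 2 * n
    · rw [hL1 j h] at hz
      exact hmono _ (hLi j h z hz)
    · rw [hL2 j h] at hz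
      exact absurd hz (List.not_mem_nil)
  · intro j hj
    by_cases h : j ≤ 2 * n
    · rw [hcN j h]
      have := hc j h
      omega
    · unfold cM
      split_ifs
      · exact le_rfl
      · omega
      · omega
  · intro j hj
    by_cases h : j ≤ 2 * n
    · rw [hcN j h, hbN _ (hc j h), hL1 j h]
      exact hch j h
    · rw [hL2 j h]
      exact List.isChain_singleton _
  · intro j hj
    by_cases h : j ≤ 2 * n
    · rw [hcN j h, hbN _ (hc j h), hL1 j h, hla j h]
      congr 1
      have e3 : xW n xV x j = if x j % 2 = 0 then x j else x j - 2 := by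
        unfold xW
        rw [if_neg (show ¬ j = 2 * n + 2 by omega), if_neg (show ¬ j = 2 * n + 1 by omega)]
      rw [e3]
      unfold TR.em
      by_cases h2 : x j % 2 = 0
      · simp only [if_pos h2]
      · rw [if_neg h2, if_neg h2, if_neg (show ¬ (x j - 2) % 2 = 0 by omega)]
        ring
    · rw [hL2 j h]
      by_cases h2 : j = 2 * n + 2
      · subst h2
        unfold cM xW bN TR.em
        rw [if_pos rfl, if_pos rfl, if_pos rfl, if_neg (by decide)]
        show some (B + 1) = some _
        congr 1
        ring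
      · have h3 : j = 2 * n + 1 := by omega
        subst h3
        have e1 : cM n m V c (2 * n + 1) = V := by
          unfold cM
          rw [if_neg (by omega), if_pos rfl]
        have e2 : xW n xV x (2 * n + 1) = xV := by
          unfold xW
          rw [if_neg (by omega), if_pos rfl]
        rw [e1, e2, hbN V hV, hbV]
        unfold TR.em
        rw [if_pos hxV, if_pos hxV]
        rfl
  · intro v hv1 hv2 hv3
    push_cast at hv3
    rcases hsm v hv1 hv2 (by linarith) with ⟨i, hi, hi2⟩ | ⟨j, hj, hj2⟩
    · left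
      obtain ⟨h1, h2, h3, h4⟩ := hI i hi
      refine ⟨i, hi, ?_⟩
      rw [hbN i h2, hbN (up i) (by omega)]
      exact hi2
    · right
      refine ⟨j, by omega, ?_⟩
      rw [hcN j hj, hbN _ (hc j hj), hL1 j hj]
      exact hj2

end Pool.Agent.Y790.TG
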