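import Pool.Agent.Y790.TR.Def3
import Pool.Agent.Y790.TR.Conn
import Pool.Agent.Y790.TR.Seg
import Pool.Agent.Y790.TR.Mov
import Pool.Agent.Y790.TR.EvR

/-!
# Trees with few leaves: the canonical state after an event (job TR3-GATHER)
-/

set_option autoImplicit false

namespace Pool.Agent.Y790.TG.GatherG

open Pool.Agent.Y790.TR
open Pool.Agent.Y790.LG (Od Sm rt cst hd Lg Kst prd)

theorem core (ho : OutSegG) (hr : RelG) (hoc : OutCongrG) (n M P : ℕ) (A B : ℤ) (c : ℕ → ℕ)
    (b : ℕ → ℤ) (I : Finset ℕ) (up s p : ℕ → ℕ)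
    (hs1 : ∀ j ≤ 2 * n + 2, s j ≤ 2 * n + 2) (hs2 : ∀ i ≤ 2 * n + 2, ∃ j ≤ 2 * n + 2, s j = i)
    (hp : ∀ j ≤ 2 * n + 2, p j % 2 = 0) (hP : ∑ j ∈ Finset.range (2 * n + 3), p j = P)
    (hO : OutG (n + 1) M A B (fun j => hd (2 * n + 3) (s j) (p j)) c b I up) :
    ∃ (A' B' : ℤ) (π : ℕ → ℕ), OutG (n + 1) M A' B' (Kst (n + 1) P 0) (fun i => c (π i)) b I up ∧
      (∀ j ≤ 2 * n + 2, π (s j) = j) ∧
      ∀ j ≤ 2 * n + 2, ∀ k ≤ 2 * n + 2, j ≠ k → s j ≠ 2 * n + 2 → s k ≠ 2 * n + 2 →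
        s j / 2 = s k / 2 → ∃ m' ≤ n, (π (2 * m') = j ∧ π (2 * m' + 1) = k) ∨
          (π (2 * m') = k ∧ π (2 * m' + 1) = j) := by
  have hn := conn segCongr segTrans (wait fwd) (mov0 fwd segCongr segTrans)
  have hs2' : ∀ i, ∃ j, i ≤ 2 * n + 2 → (j ≤ 2 * n + 2 ∧ s j = i) := by
    intro i
    by_cases h : i ≤ 2 * n + 2
    · obtain ⟨j, h1, h2⟩ := hs2 i h
      exact ⟨j, fun _ => ⟨h1, h2⟩⟩
    · exact ⟨0, fun h' => absurd h' h⟩
  choose π hπ using hs2'
  have hinj : ∀ j ≤ 2 * n + 2, ∀ k ≤ 2 * n + 2, s j = s k → j = k := by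
    have h : Set.InjOn s (Finset.range (2 * n + 3) : Finset ℕ) := by
      apply Finset.injOn_of_surjOn_of_card_le s (s := Finset.range (2 * n + 3))
        (t := Finset.range (2 * n + 3))
      · intro j hj
        rw [Finset.coe_range, Set.mem_Iio] at hj ⊢
        have := hs1 j (by omega)
        omega
      · intro i hi
        rw [Finset.coe_range, Set.mem_Iio] at hi
        obtain ⟨h1, h2⟩ := hπ i (by omega)
        refine ⟨π i, ?_, h2⟩
        rw [Finset.coe_range, Set.mem_Iio]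
        omega
      · exact le_rfl
    intro j hj k hk hjk
    exact h (by rw [Finset.coe_range, Set.mem_Iio]; omega)
      (by rw [Finset.coe_range, Set.mem_Iio]; omega) hjk
  have hπs : ∀ j ≤ 2 * n + 2, π (s j) = j := by
    intro j hj
    obtain ⟨h1, h2⟩ := hπ (s j) (hs1 j hj)
    exact hinj _ h1 _ hj h2
  have h1 := hr (n + 1) M A B _ _ b I up π (fun j hj => (hπ j (by omega)).1)
    (fun t ht => ⟨s t, hs1 t (by omega), hπs t (by omega)⟩) hO
  have h2 := hoc (n + 1) M A B _ (Lg (n + 1) (fun i => p (π i))) _ (fun i => c (π i)) b b I up up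
    (fun j hj => by
      show hd (2 * n + 3) (s (π j)) (p (π j)) = hd (2 * (n + 1) + 1) j (p (π j))
      rw [(hπ j (by omega)).2]
      rfl) (fun _ _ => rfl) (fun _ _ => rfl) (fun _ _ => rfl) h1
  have hPe : P % 2 = 0 := by
    rw [← hP]
    have : 2 ∣ ∑ j ∈ Finset.range (2 * n + 3), p j := Finset.dvd_sum fun j hj => by
      rw [Finset.mem_range] at hj
      exact Nat.dvd_of_mod_eq_zero (hp j (by omega))
    exact Nat.mod_eq_zero_of_dvd this
  have hsum : ∑ j ∈ Finset.range (2 * n + 3), p (π j) = ∑ j ∈ Finset.range (2 * n + 3), p j := by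
    apply Finset.sum_nbij' π s
    · intro j hj
      rw [Finset.mem_range] at hj ⊢
      have := (hπ j (by omega)).1
      omega
    · intro j hj
      rw [Finset.mem_range] at hj ⊢
      have := hs1 j (by omega)
      omega
    · intro j hj
      rw [Finset.mem_range] at hj
      exact (hπ j (by omega)).2
    · intro j hj
      rw [Finset.mem_range] at hj
      exact hπs j (by omega)
    · intro j _
      rfl
  obtain ⟨N, h3⟩ := hn (n + 1) (fun i => p (π i)) (fun i => if i = 0 then P else 0) (by omega)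
    (fun j hj => hp _ (hπ j (by omega)).1) (fun j _ => by
      show (if j = 0 then P else 0) % 2 = 0
      split_ifs
      · exact hPe
      · rfl)
    (by
      show ∑ j ∈ Finset.range (2 * n + 3), p (π j) =
        ∑ j ∈ Finset.range (2 * n + 3), if j = 0 then P else 0
      rw [hsum, hP, Finset.sum_ite_eq', if_pos (Finset.mem_range.2 (by omega))])
  obtain ⟨A', B', h4, -⟩ := ho (n + 1) M A B _ _ _ b I up _ _ rfl h2 h3
  refine ⟨A', B', π, h4, hπs, ?_⟩
  intro j hj k hk hjk a4 a5 h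
  have a1 := hs1 j hj
  have a2 := hs1 k hk
  have a3 : s j ≠ s k := fun h => hjk (hinj j hj k hk h)
  refine ⟨s j / 2, by omega, ?_⟩
  rcases Nat.mod_two_eq_zero_or_one (s j) with h0 | h0
  · left
    have b1 : 2 * (s j / 2) = s j := by omega
    have b2 : 2 * (s j / 2) + 1 = s k := by omega
    rw [b1] at b2 ⊢
    rw [b2, hπs j hj, hπs k hk]
    exact ⟨rfl, rfl⟩
  · right
    have b1 : 2 * (s j / 2) = s k := by omega
    have b2 : 2 * (s j / 2) + 1 = s j := by omega
    rw [b2, b1, hπs j hj, hπs k hk]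
    exact ⟨rfl, rfl⟩

theorem inj (n : ℕ) (s : ℕ → ℕ) (hs1 : ∀ j ≤ 2 * n + 2, s j ≤ 2 * n + 2)
    (hs2 : ∀ i ≤ 2 * n + 2, ∃ j ≤ 2 * n + 2, s j = i) :
    ∀ j ≤ 2 * n + 2, ∀ k ≤ 2 * n + 2, s j = s k → j = k := by
  have h : Set.InjOn s (Finset.range (2 * n + 3) : Finset ℕ) := by
    apply Finset.injOn_of_surjOn_of_card_le s (s := Finset.range (2 * n + 3))
      (t := Finset.range (2 * n + 3))
    · intro j hj
      rw [Finset.coe_range, Set.mem_Iio] at hj ⊢
      have := hs1 j (by omega)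
      omega
    · intro i hi
      rw [Finset.coe_range, Set.mem_Iio] at hi
      obtain ⟨j, h1, h2⟩ := hs2 i (by omega)
      refine ⟨j, ?_, h2⟩
      rw [Finset.coe_range, Set.mem_Iio]
      omega
    · exact le_rfl
  intro j hj k hk hjk
  exact h (by rw [Finset.coe_range, Set.mem_Iio]; omega)
    (by rw [Finset.coe_range, Set.mem_Iio]; omega) hjk

end Pool.Agent.Y790.TG.GatherG

namespace Pool.Agent.Y790.TG

open Pool.Agent.Y790.TR
open Pool.Agent.Y790.LG (Od Sm rt cst hd Lg Kst prd)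

theorem gatherG (ho : OutSegG) (hr : RelG) (hc : OutCongrG) : GatherG := by
  intro n m V P A B c b I up s p hs1 hs2 hs3 hs4 hs5 hp hP hO
  obtain ⟨A', B', π, h4, hπs, hpair⟩ :=
    GatherG.core ho hr hc n (m + 1) P A B (cM n m V c) b I up s p hs1 hs2 hp hP hO
  have hinj := GatherG.inj n s hs1 hs2
  have hne : ∀ j ≤ 2 * n + 2, j ≠ 2 * n → s j ≠ 2 * n + 2 := fun j hj hj2 h =>
    hj2 (hinj j hj _ (by omega) (h.trans hs3.symm))
  refine ⟨A', B', fun i => cM n m V c (π i), h4, ?_⟩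
  have hc1 : ∀ j, j ≤ 2 * n → cM n m V c j = c j := by
    intro j hj
    unfold cM
    rw [if_neg (by omega), if_neg (by omega)]
  have hc2 : cM n m V c (2 * n + 1) = V := by
    unfold cM
    rw [if_neg (by omega), if_pos rfl]
  have hc3 : cM n m V c (2 * n + 2) = m + 1 := by
    unfold cM
    rw [if_pos rfl]
  refine ⟨?_, ?_, ?_⟩
  · show cM n m V c (π (2 * n + 2)) = c (2 * n)
    rw [← hs3, hπs _ (by omega), hc1 _ le_rfl]
  · intro l hl
    obtain ⟨m', hm', h⟩ := hpair (2 * l) (by omega) (2 * l + 1) (by omega) (by omega)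
      (hne _ (by omega) (by omega)) (hne _ (by omega) (by omega)) (hs4 l hl)
    refine ⟨m', hm', ?_⟩
    rcases h with ⟨e1, e2⟩ | ⟨e1, e2⟩
    · left
      refine ⟨?_, ?_⟩
      · show cM n m V c (π (2 * m')) = _
        rw [e1, hc1 _ (by omega)]
      · show cM n m V c (π (2 * m' + 1)) = _
        rw [e2, hc1 _ (by omega)]
    · right
      refine ⟨?_, ?_⟩
      · show cM n m V c (π (2 * m')) = _
        rw [e1, hc1 _ (by omega)]
      · show cM n m V c (π (2 * m' + 1)) = _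
        rw [e2, hc1 _ (by omega)]
  · obtain ⟨m', hm', h⟩ := hpair (2 * n + 1) (by omega) (2 * n + 2) (by omega) (by omega)
      (hne _ (by omega) (by omega)) (hne _ (by omega) (by omega)) hs5
    refine ⟨m', hm', ?_⟩
    rcases h with ⟨e1, e2⟩ | ⟨e1, e2⟩
    · left
      refine ⟨?_, ?_⟩
      · show cM n m V c (π (2 * m')) = _
        rw [e1, hc2]
      · show cM n m V c (π (2 * m' + 1)) = _
        rw [e2, hc3]
    · right
      refine ⟨?_, ?_⟩
      · show cM n m V c (π (2 * m')) = _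
        rw [e1, hc3]
      · show cM n m V c (π (2 * m' + 1)) = _
        rw [e2, hc2]

theorem gatherE (ho : OutSegG) (hr : RelG) (hc : OutCongrG) : GatherE := by
  intro n m P A B c b I up s p hs1 hs2 hs3 hs4 hp hP hO
  obtain ⟨A', B', π, h4, hπs, hpair⟩ :=
    GatherG.core ho hr hc n m P A B c b I up s p hs1 hs2 hp hP hO
  have hinj := GatherG.inj n s hs1 hs2
  have hne : ∀ j ≤ 2 * n + 2, j ≠ 2 * n + 2 → s j ≠ 2 * n + 2 := fun j hj hj2 h =>
    hj2 (hinj j hj _ (by omega) (h.trans hs3.symm))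
  refine ⟨A', B', fun i => c (π i), h4, ?_, ?_⟩
  · show c (π (2 * n + 2)) = c (2 * n + 2)
    have h := hπs (2 * n + 2) (by omega)
    rw [hs3] at h
    rw [h]
  · intro l hl
    obtain ⟨m', hm', h⟩ := hpair (2 * l) (by omega) (2 * l + 1) (by omega) (by omega)
      (hne _ (by omega) (by omega)) (hne _ (by omega) (by omega)) (hs4 l hl)
    refine ⟨m', by omega, ?_⟩
    rcases h with ⟨e1, e2⟩ | ⟨e1, e2⟩
    · left
      refine ⟨?_, ?_⟩
      · show c (π (2 * m')) = _
        rw [e1]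
      · show c (π (2 * m' + 1)) = _
        rw [e2]
    · right
      refine ⟨?_, ?_⟩
      · show c (π (2 * m')) = _
        rw [e1]
      · show c (π (2 * m' + 1)) = _
        rw [e2]

end Pool.Agent.Y790.TG
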