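import Pool.Agent.Y790.TR.Def3
import Pool.Agent.Y790.TR.Grow

/-!
# Trees with few leaves: induction over the nodes
-/

set_option autoImplicit false

namespace Pool.Agent.Y790.TG

open Pool.Agent.Y790.TR
open Pool.Agent.Y790.LG (Od Kst)

namespace GrowG

lemma mod16 {M K L : ℕ} (hK : K % (16 * M) = L % (16 * M)) : K % (8 * M) = L % (8 * M) := by
  have h : K ≡ L [MOD 8 * M * 2] := by
    have e : 8 * M * 2 = 16 * M := by ring
    rw [e]
    exact hK
  exact h.of_mul_right 2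

lemma card_le {m : ℕ} {I : Finset ℕ} (h : ∀ i ∈ I, 3 ≤ i ∧ i ≤ m) : I.card ≤ m + 1 - 3 := by
  have h1 : I ⊆ Finset.Icc 3 m := fun i hi => Finset.mem_Icc.2 (h i hi)
  have h2 := Finset.card_le_card h1
  rwa [Nat.card_Icc] at h2

lemma cube_le {N M k K₁ : ℕ} (hM : 1000 * (2 * N + 5) ^ 3 ≤ M) (hk : k ≤ N) :
    1000 * (2 * k + 5) ^ 3 ≤ M * M + 16 * M * K₁ := by
  have e1 : (2 * k + 5) ^ 3 ≤ (2 * N + 5) ^ 3 := Nat.pow_le_pow_left (by omega) 3
  have e0 : 1 ≤ (2 * N + 5) ^ 3 := Nat.one_le_pow _ _ (by omega)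
  have hM0 : 0 < M := by omega
  have e2 : M ≤ M * M := Nat.le_mul_of_pos_left M hM0
  calc 1000 * (2 * k + 5) ^ 3 ≤ 1000 * (2 * N + 5) ^ 3 := Nat.mul_le_mul_left _ e1
    _ ≤ M := hM
    _ ≤ M * M + 16 * M * K₁ := by omega

/-- the induction over the number of nodes -/
theorem main (hb : BaseStm) (hof : OutOfStm) (h0 : OpenG 0) (h1 : OpenG 1)
    (he : EdgeStm) (N M : ℕ) (hM2 : M % 2 = 1) (hdvd : ∀ i ≤ N, 2 * i + 1 ∣ M)
    (hM : 1000 * (2 * N + 5) ^ 3 ≤ M) (m : ℕ) (hm : 1 ≤ m) :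
    m ≤ N → ∀ (n : ℕ) (I : Finset ℕ) (up : ℕ → ℕ) (sd : ℕ → ℤ), n + I.card = m →
      (∀ i ∈ I, 3 ≤ i ∧ i ≤ m ∧ sd i + sd (up i) = 1) → (∀ i, 1 ≤ i → i ≤ m → up i < i) →
      (∀ i ≤ m, sd i = 0 ∨ sd i = 1) → sd 0 = 1 →
      ∃ K₁ : ℕ, ∀ K ≥ K₁, K % (16 * M) = M * M % (16 * M) → ∃ (A B : ℤ) (c : ℕ → ℕ) (b : ℕ → ℤ),
        OutG n m A B (Kst n (PK K n) 0) c b I up ∧ (∀ i ≤ m, b i % 2 = sd i) ∧ c (2 * n) = 0 ∧
        PrG n m I up c := by
  have hM0 : 1000 ≤ M := by
    have e0 : 1 ≤ (2 * N + 5) ^ 3 := Nat.one_le_pow _ _ (by omega)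
    omega
  induction m, hm using Nat.le_induction with
  | base =>
    intro hN n I up sd hcard hI hup hsd hsd0
    have hI0 : I = ∅ := by
      refine Finset.eq_empty_of_forall_notMem fun i hi => ?_
      have := hI i hi
      omega
    subst hI0
    have hn1 : n = 1 := by simpa using hcard
    subst hn1
    refine ⟨M * M, ?_⟩
    intro K hK hKm
    have hKm8 := mod16 hKm
    have h8 := grow_mod8 hM2 hKm8
    have hMK := grow_dvd hKm8
    have h3 : 3 ∣ K := (hdvd 1 hN).trans hMK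
    have hK9 : 9 ≤ K := by
      refine le_trans ?_ hK
      nlinarith
    have hP : PK K 1 % 2 = 0 := by
      unfold PK
      have e1 : (2 * 1 + 1) ^ 2 = 9 := by norm_num
      have e2 : 4 * (2 * 1 + 1) = 12 := by norm_num
      rw [e1, e2]
      omega
    have hs : (sd 1 + sd 0) % 2 = 0 ∨ (sd 1 + sd 0) % 2 = 1 := by omega
    obtain ⟨A, B, c, b, hOut, hb0, hb1, hc2, hc⟩ := hb (PK K 1) hP _ hs
    refine ⟨A, B, c, b, hof 1 A B _ c b up hOut, ?_, hc2, ?_⟩
    · intro i hi
      have hsd1 := hsd 1 le_rfl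
      have h01 : i = 0 ∨ i = 1 := by omega
      rcases h01 with rfl | rfl
      · rw [hb0, hsd0]
      · rcases hsd1 with h | h
        · rw [h] at hb1 ⊢
          rw [hsd0] at hb1
          omega
        · rw [h] at hb1 ⊢
          rw [hsd0] at hb1
          omega
    · intro i hi1 hi2 _
      have hi : i = 1 := by omega
      subst hi
      have hup1 : up 1 = 0 := by
        have := hup 1 le_rfl le_rfl
        omega
      refine ⟨0, one_pos, ?_⟩
      rw [hup1]
      rcases hc with ⟨h2, h3⟩ | ⟨h2, h3⟩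
      · exact Or.inr ⟨h2, h3⟩
      · exact Or.inl ⟨h2, h3⟩
  | succ m hm ih =>
    intro hN n I up sd hcard hI hup hsd hsd0
    have hV : up (m + 1) ≤ m := by
      have := hup (m + 1) (by omega) le_rfl
      omega
    by_cases hmI : m + 1 ∈ I
    · -- the new node is joined by an edge
      have h3m := (hI (m + 1) hmI).1
      have hIc := card_le (m := m + 1) (I := I) fun i hi => ⟨(hI i hi).1, (hI i hi).2.1⟩
      have hn2 : 2 ≤ n := by omega
      obtain ⟨k, rfl⟩ : ∃ k, n = k + 1 := ⟨n - 1, by omega⟩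
      have hk1 : 1 ≤ k := by omega
      have hce : (I.erase (m + 1)).card + 1 = I.card := Finset.card_erase_add_one hmI
      have hkN : k + 1 ≤ N := by omega
      obtain ⟨K₁, hK₁⟩ := ih (by omega) (k + 1) (I.erase (m + 1)) up sd (by omega)
        (fun i hi => by
          obtain ⟨hi1, hi2⟩ := Finset.mem_erase.1 hi
          obtain ⟨h4, h5, h6⟩ := hI i hi2
          exact ⟨h4, by omega, h6⟩)
        (fun i h1 h2 => hup i h1 (by omega)) (fun i hi => hsd i (by omega)) hsd0
      have hK0m : (M * M + 16 * M * K₁) % (16 * M) = M * M % (16 * M) :=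
        Nat.add_mul_mod_self_left _ _ _
      obtain ⟨A, B, c, b, hOut, hbs, hc, hPr⟩ := hK₁ (M * M + 16 * M * K₁)
        (by nlinarith) hK0m
      obtain ⟨K₂, hK₂⟩ := he k m M _ A B c b (I.erase (m + 1)) up (up (m + 1)) hk1 hM2
        (hdvd k (by omega)) (hdvd (k + 1) hkN) (grow_dvd (mod16 hK0m)) (grow_mod8 hM2 (mod16 hK0m))
        (cube_le hM (by omega)) hV rfl hOut
      refine ⟨K₂, ?_⟩
      intro K hK hKm
      obtain ⟨A', B', c', b', hOut', hb', hc2, hpr⟩ := hK₂ K hK (hKm.trans hK0m.symm)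
      rw [Finset.insert_erase hmI] at hOut'
      refine ⟨A', B', c', b', hOut', ?_, ?_, ?_⟩
      · intro i hi
        rcases Nat.lt_or_ge m i with h | h
        · have hi' : i = m + 1 := by omega
          subst hi'
          have e0 : Od (b' (m + 1)) (b' (up (m + 1))) := (hOut'.2.2.2.2.1 (m + 1) hmI).2.2.2
          unfold Od at e0
          rw [hb' _ hV] at e0
          have e1 := hbs (up (m + 1)) hV
          have e2 := hsd (m + 1) le_rfl
          have e3 := hsd (up (m + 1)) (by omega)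
          have e4 := (hI (m + 1) hmI).2.2
          omega
        · rw [hb' i h]
          exact hbs i h
      · rw [hc2, hc]
      · intro i hi1 hi2 hiI
        have hne : i ≠ m + 1 := fun h => hiI (h ▸ hmI)
        obtain ⟨l, hl, h5⟩ := hPr i hi1 (by omega) (fun h => hiI (Finset.mem_of_mem_erase h))
        obtain ⟨l', hl', h6⟩ := hpr l hl
        refine ⟨l', hl', ?_⟩
        rcases h5 with ⟨h7, h8⟩ | ⟨h7, h8⟩ <;> rcases h6 with ⟨h9, h10⟩ | ⟨h9, h10⟩
        · exact Or.inl ⟨h9.trans h7, h10.trans h8⟩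
        · exact Or.inr ⟨h9.trans h8, h10.trans h7⟩
        · exact Or.inr ⟨h9.trans h7, h10.trans h8⟩
        · exact Or.inl ⟨h9.trans h8, h10.trans h7⟩
    · -- the new node is joined by a long thread
      have hI' : ∀ i ∈ I, 3 ≤ i ∧ i ≤ m := by
        intro i hi
        have h4 := hI i hi
        have hne : i ≠ m + 1 := fun h => hmI (h ▸ hi)
        exact ⟨h4.1, by omega⟩
      have hIc := card_le hI'
      obtain ⟨k, rfl⟩ : ∃ k, n = k + 1 := ⟨n - 1, by omega⟩
      have hk1 : 1 ≤ k := by omega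
      have hkN : k + 1 ≤ N := by omega
      obtain ⟨K₁, hK₁⟩ := ih (by omega) k I up sd (by omega)
        (fun i hi => ⟨(hI i hi).1, (hI' i hi).2, (hI i hi).2.2⟩)
        (fun i h1 h2 => hup i h1 (by omega)) (fun i hi => hsd i (by omega)) hsd0
      have hK0m : (M * M + 16 * M * K₁) % (16 * M) = M * M % (16 * M) :=
        Nat.add_mul_mod_self_left _ _ _
      obtain ⟨A, B, c, b, hOut, hbs, hc, hPr⟩ := hK₁ (M * M + 16 * M * K₁)
        (by nlinarith) hK0m
      have hbig : 17 * (2 * k + 3) ^ 3 ≤ M * M + 16 * M * K₁ := by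
        have e1 := cube_le (K₁ := K₁) hM (show k ≤ N by omega)
        have e2 : (2 * k + 3) ^ 3 ≤ (2 * k + 5) ^ 3 := Nat.pow_le_pow_left (by omega) 3
        omega
      have key : ∃ K₂ : ℕ, ∀ K' ≥ K₂, K' % (8 * M) = (M * M + 16 * M * K₁) % (8 * M) →
          ∃ (A' B' : ℤ) (c' : ℕ → ℕ) (b' : ℕ → ℤ),
          OutG (k + 1) (m + 1) A' B' (Kst (k + 1) (PK K' (k + 1)) 0) c' b' I up ∧
          (∀ i ≤ m, b' i = b i) ∧
          (b' (m + 1) + b (up (m + 1))) % 2 = (sd (m + 1) + sd (up (m + 1))) % 2 ∧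
          PrsG k m (up (m + 1)) c c' := by
        have hs : (sd (m + 1) + sd (up (m + 1))) % 2 = 0 ∨
            (sd (m + 1) + sd (up (m + 1))) % 2 = 1 := by
          omega
        rcases hs with hs | hs
        · rw [hs]
          exact h0 k m M _ A B c b I up (up (m + 1)) hk1 hM2 (hdvd k (by omega))
            (hdvd (k + 1) hkN) (grow_dvd (mod16 hK0m)) (grow_mod8 hM2 (mod16 hK0m)) hbig hV hOut
        · rw [hs]
          exact h1 k m M _ A B c b I up (up (m + 1)) hk1 hM2 (hdvd k (by omega))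
            (hdvd (k + 1) hkN) (grow_dvd (mod16 hK0m)) (grow_mod8 hM2 (mod16 hK0m)) hbig hV hOut
      obtain ⟨K₂, hK₂⟩ := key
      refine ⟨K₂, ?_⟩
      intro K hK hKm
      obtain ⟨A', B', c', b', hOut', hb', hbV, hc2, hpr, hlast⟩ :=
        hK₂ K hK (mod16 (hKm.trans hK0m.symm))
      refine ⟨A', B', c', b', hOut', ?_, ?_, ?_⟩
      · intro i hi
        rcases Nat.lt_or_ge m i with h | h
        · have hi' : i = m + 1 := by omega
          subst hi'
          have e1 := hbs (up (m + 1)) hV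
          have e2 := hsd (m + 1) le_rfl
          have e3 := hsd (up (m + 1)) (by omega)
          rcases e2 with e2 | e2 <;> rcases e3 with e3 | e3 <;> rw [e2, e3] at hbV <;>
            rw [e3] at e1 <;> rw [e2] <;> omega
        · rw [hb' i h]
          exact hbs i h
      · have e : 2 * (k + 1) = 2 * k + 2 := by ring
        rw [e, hc2, hc]
      · intro i hi1 hi2 hiI
        rcases Nat.lt_or_ge m i with h | h
        · have hi' : i = m + 1 := by omega
          subst hi'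
          obtain ⟨l', hl', h5⟩ := hlast
          refine ⟨l', by omega, ?_⟩
          rcases h5 with ⟨h6, h7⟩ | ⟨h6, h7⟩
          · exact Or.inr ⟨h6, h7⟩
          · exact Or.inl ⟨h6, h7⟩
        · obtain ⟨l, hl, h5⟩ := hPr i hi1 h hiI
          obtain ⟨l', hl', h6⟩ := hpr l hl
          refine ⟨l', by omega, ?_⟩
          rcases h5 with ⟨h7, h8⟩ | ⟨h7, h8⟩ <;> rcases h6 with ⟨h9, h10⟩ | ⟨h9, h10⟩
          · exact Or.inl ⟨h9.trans h7, h10.trans h8⟩
          · exact Or.inr ⟨h9.trans h8, h10.trans h7⟩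
          · exact Or.inr ⟨h9.trans h7, h10.trans h8⟩
          · exact Or.inl ⟨h9.trans h8, h10.trans h7⟩

end GrowG

theorem growG (hb : BaseStm) (hof : OutOfStm) (_hoc : OutCongrG) (h0 : OpenG 0) (h1 : OpenG 1)
    (he : EdgeStm) : GrowG := by
  intro N M hM2 hdvd hM n m hm hmN I up sd hcard hI hup hsd hsd0
  exact GrowG.main hb hof h0 h1 he N M hM2 hdvd hM m (by omega) hmN n I up sd hcard hI hup hsd hsd0

end Pool.Agent.Y790.TG
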