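import Pool.Agent.Y790.TR.Def3
import Pool.Agent.Y790.TR.Conn
import Pool.Agent.Y790.TR.EvR
import Pool.Agent.Y790.TR.Mov
import Pool.Agent.Y790.TR.Seg

/-!
# Trees with few leaves: the pause with a change of the lags (by helper510)
-/

set_option autoImplicit false

namespace Pool.Agent.Y790.TG

open Pool.Agent.Y790.TR
open Pool.Agent.Y790.LG (Od Sm rt cst hd Lg Kst prd Cls ClsStm Lags)

theorem mid (hp : PauseStm) (ht : SegSTransStm) (hf : FwdSStm) : MidStm := by
  intro n p' p'' hn hp' hp'' hsum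
  have hw : WaitStm := Pool.Agent.Y790.TR.wait Pool.Agent.Y790.TR.fwd
  have hco : ConnStm := Pool.Agent.Y790.TR.conn segCongr segTrans hw
    (Pool.Agent.Y790.TR.mov0 Pool.Agent.Y790.TR.fwd segCongr segTrans)
  obtain ⟨N, hN⟩ := hco n p' p'' hn hp' hp'' hsum
  obtain ⟨w1, hw1⟩ : ∃ w1, w1 = 2 * ∑ j ∈ Finset.range (2 * n + 1), p' j + 2 := ⟨_, rfl⟩
  obtain ⟨w3, hw3⟩ : ∃ w3, w3 = 2 * ∑ j ∈ Finset.range (2 * n + 1), p'' j + 2 := ⟨_, rfl⟩
  have hle : ∀ (p : ℕ → ℕ), ∀ j ≤ 2 * n, p j ≤ ∑ j ∈ Finset.range (2 * n + 1), p j := by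
    intro p j hj
    exact Finset.single_le_sum (f := p) (fun _ _ => Nat.zero_le _)
      (Finset.mem_range.2 (by omega))
  refine ⟨(2 * n + 1) * (w1 + N + w3) + 1, ?_⟩
  intro m A B x c b I up V D hO hV hup hD2 hD hDn hbV hk hod
  obtain ⟨q, hq⟩ : ∃ q : ℕ, D = (2 * (n : ℤ) + 1) * q := by
    obtain ⟨z, hz⟩ := Int.dvd_of_emod_eq_zero hDn
    have hz0 : 0 ≤ z := by
      by_contra hneg
      push Not at hneg
      have h1 : (0 : ℤ) ≤ D := le_trans (Int.natCast_nonneg _) hD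
      rw [hz] at h1
      nlinarith
    exact ⟨z.toNat, by rw [Int.toNat_of_nonneg hz0]; exact hz⟩
  have hqle : w1 + N + w3 ≤ q := by
    by_contra hlt
    push Not at hlt
    have h1 : ((2 * n + 1) * (w1 + N + w3) + 1 : ℤ) ≤ (2 * (n : ℤ) + 1) * q := by
      rw [← hq]
      exact_mod_cast hD
    have h2 : (q : ℤ) + 1 ≤ w1 + N + w3 := by exact_mod_cast hlt
    nlinarith
  obtain ⟨w2, hw2⟩ : ∃ w2, q = w1 + N + w2 := ⟨q - w1 - N, by omega⟩
  have hw23 : w3 ≤ w2 := by omega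
  -- the three segments
  have s1 : SegS n x (fun _ => w1) (Lg n p') := by
    have h := hf n x (fun j => j) p' w1 0 (by omega) (fun j hj => hj) (fun s hs => ⟨s, hs, rfl⟩)
      hod hk (fun j hj => by
        have h1 := hle p' j hj
        show 2 * p' j + 2 ≤ cst w1 0 j
        unfold cst
        rw [if_neg (Nat.not_lt_zero j)]
        omega) (fun j hj _ => hp' j hj)
    have e1 : (fun j => cst w1 0 ((fun j => j) j)) = fun _ : ℕ => w1 := by
      funext j
      show cst w1 0 j = w1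
      unfold cst
      rw [if_neg (Nat.not_lt_zero j)]
    have e2 : (fun j => hd (2 * n + 1) (rt (2 * n + 1) 0 ((fun j => j) j)) (p' j)) = Lg n p' := by
      funext j
      show hd (2 * n + 1) (rt (2 * n + 1) 0 j) (p' j) = hd (2 * n + 1) j (p' j)
      unfold rt
      rw [if_neg (Nat.not_lt_zero j), Nat.sub_zero]
    rw [e1, e2] at h
    exact h
  have s2 := ht n x (Lg n p') (Lg n p'') (fun _ => w1) (fun _ => N) s1 hN
  have s3 := ht n x (Lg n p'') (Lg n p'') (fun _ => w1 + N) (fun _ => w2) s2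
    (hw n p'' w2 (fun j hj => by
      have := hle p'' j hj
      omega) hp'')
  refine hp n m A B x (Lg n p'') c b I up (fun _ => w1 + N + w2) V D hO hV hup hD2 ?_ hbV s3 ?_
  · have h1 : (1 : ℤ) ≤ D := by
      refine le_trans ?_ hD
      push_cast
      have : (0 : ℤ) ≤ (2 * n + 1) * (w1 + N + w3) := by positivity
      linarith
    linarith
  · rw [Finset.sum_const, Finset.card_range, nsmul_eq_mul, hq, hw2]
    push_cast
    ring

end Pool.Agent.Y790.TG
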