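import Pool.Agent.Y790.TR.Def3
import Pool.Agent.Y790.TR.All

/-!
# A new node on the other side: the construction with edges
-/

set_option autoImplicit false

namespace Pool.Agent.Y790.TG

open Pool.Agent.Y790.TR
open Pool.Agent.Y790.LG (Od Sm rt cst hd Lg Kst prd Cls ClsStm Lags)

open Pool.Agent.Y790.TR.OW in
/-- **A new node on the other side.** -/
theorem openWG (ho : OutSegG) (_hoc : OutCongrG) (hx : ExtWG) (hg : GatherG) : OpenG 1 := by
  have hco := conn segCongr segTrans (wait fwd) (mov0 fwd segCongr segTrans)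
  have hgo : GoStm := go segCongr segTrans fwd hco
  have hf : FwdStm := fwd
  have ha : ArrWStm := arrW
  have hu : TuneStm := tune
  intro n mm M K A B c b I up V hn hM hqM hQM hMK hK8 h17 hV hOut
  have hqK : 2 * n + 1 ∣ K := hqM.trans hMK
  have hQ3 : (2 * n + 3) ^ 2 ≤ (2 * n + 3) ^ 3 := Nat.pow_le_pow_right (by omega) (by omega)
  have hqQ : (2 * n + 1) ^ 2 ≤ (2 * n + 3) ^ 2 := Nat.pow_le_pow_left (by omega) 2
  obtain ⟨hPs, hPe⟩ := PK_spec n K hK8 hqK (by omega)
  have hPl := PK_large n K h17 hPs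
  -- the place of the node
  obtain ⟨x0, hx0⟩ := ex_em A B (b V) hOut.1
  obtain ⟨t, htq⟩ : ∃ t : ℕ, (t : ℤ) = x0 % ((2 * n + 1 : ℕ) : ℤ) :=
    ⟨(x0 % ((2 * n + 1 : ℕ) : ℤ)).toNat, Int.toNat_of_nonneg (Int.emod_nonneg _ (by omega))⟩
  have htl : t ≤ 2 * n := by
    have := Int.emod_lt_of_pos x0 (show (0 : ℤ) < ((2 * n + 1 : ℕ) : ℤ) by omega)
    omega
  obtain ⟨t', a, ht', ha1, ha2, ha3, ha4, ha5, ha6, ha7, ha8⟩ := ha n t hn htl
  -- the lags
  have hgs := gg_sum n t hn htl a ha1 ha2 ha4 ha5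
  obtain ⟨p, p', hpp, hpsum⟩ := hu n (PK K n) (gg n t a) hPe hPl
    (by
      intro j hj
      have h1 := ha3 j hj
      have h2 := ha1 j (by omega)
      have h3 := rt_le (q := 2 * n + 1) (t := t) (s := j) (by omega) (by omega)
      unfold gg
      constructor
      · split_ifs <;> omega
      · split_ifs <;> omega)
    (by
      rw [hgs]
      obtain ⟨k, hk⟩ := hQM.trans hMK
      have h1 : (4 : ℤ) * (-(2 * (n : ℤ) + 2) + (2 * n + 1) * (PK K n : ℤ)) =
          (2 * n + 3) * ((k : ℤ) - (2 * n + 3)) := by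
        have h2 : (4 * (2 * n + 1) * PK K n + (2 * n + 1) ^ 2 : ℤ) = (2 * n + 3) * k := by
          have h3 := hPs.trans hk
          exact_mod_cast h3
        linear_combination h2
      have h2 : (2 * (n : ℤ) + 3) ∣ 4 * (-(2 * (n : ℤ) + 2) + (2 * n + 1) * (PK K n : ℤ)) :=
        ⟨_, h1⟩
      have hcop : IsCoprime (2 * (n : ℤ) + 3) 4 := by
        have e2 : IsCoprime (2 * (n : ℤ) + 3) 2 := ⟨1, -(n + 1), by ring⟩
        have e4 : (4 : ℤ) = 2 * 2 := by norm_num
        rw [e4]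
        exact e2.mul_right e2
      exact Int.emod_eq_zero_of_dvd (hcop.dvd_of_dvd_mul_left h2))
  obtain ⟨W1, hW1⟩ := hgo n (PK K n) p t hn (fun j hj => (hpp j hj).1) hpsum htl
  refine ⟨K + 4 * (W1 + x0.natAbs + 1), fun K' hK' hKM => ?_⟩
  -- the number of vertices
  obtain ⟨m, hm⟩ : 8 * M ∣ K' - K := (Nat.modEq_iff_dvd' (by omega)).1 hKM.symm
  obtain ⟨M1, hM1⟩ := hqM
  obtain ⟨M2, hM2⟩ := hQM
  have hd4 : K' = K + 4 * (2 * M * m) := by
    have e : 8 * M * m = 4 * (2 * M * m) := by ring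
    omega
  obtain ⟨d, hdd⟩ : ∃ d : ℕ, d = 2 * M * m := ⟨_, rfl⟩
  rw [← hdd] at hd4
  have hdq : (d : ℤ) = ((2 * n + 1 : ℕ) : ℤ) * (2 * M1 * m) := by
    rw [hdd, hM1]
    push_cast
    ring
  have hdQ : d = (2 * n + 3) * (2 * M2 * m) := by
    rw [hdd, hM2]
    ring
  obtain ⟨W, hW⟩ : ∃ W : ℕ, (W : ℤ) = x0 + d := ⟨(x0 + d).toNat, Int.toNat_of_nonneg (by omega)⟩
  have hWt : W % (2 * n + 1) = t := by
    have h1 : ((W % (2 * n + 1) : ℕ) : ℤ) = t := by
      rw [htq, Int.natCast_emod, hW, hdq, Int.add_mul_emod_self_left]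
    exact_mod_cast h1
  obtain ⟨C, hC, hSeg⟩ := hW1 W (by omega) hWt
  obtain ⟨A1, B1, hOut1, hem1⟩ := ho n mm A B _ _ c b I up C W (by exact_mod_cast hC.symm) hOut hSeg
  have hbV : b V = em A1 B1 (-(d : ℤ)) := by
    rw [hem1, hx0]
    congr 1
    rw [hW]
    ring
  have hde : -(d : ℤ) % 2 = 0 := by
    have : (d : ℤ) = 2 * (M * m) := by
      rw [hdd]
      push_cast
      ring
    omega
  have hOut2 := hx n mm A1 B1 _ c b I up V (-(d : ℤ)) hOut1 hV hbV hde
  -- the crossing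
  obtain ⟨pp, hppd⟩ : ∃ pp : ℕ → ℕ, pp = fun j =>
      if j = 2 * n + 2 then 0 else if j = 2 * n + 1 then 2 * M2 * m else p' j := ⟨_, rfl⟩
  have hpp0 : ∀ j ≤ 2 * n, pp j = p' j := by
    intro j hj
    rw [hppd]
    simp only
    rw [if_neg (by omega), if_neg (by omega)]
  have hpp1 : pp (2 * n + 1) = 2 * M2 * m := by
    rw [hppd]
    simp only
    rw [if_neg (by omega), if_pos trivial]
  have hpp2 : pp (2 * n + 2) = 0 := by
    rw [hppd]
    simp only
    rw [if_pos trivial]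
  obtain ⟨x, hxd⟩ : ∃ x : ℕ → ℤ, x = xW n (-(d : ℤ)) fun j =>
    hd (2 * n + 1) (rt (2 * n + 1) t j) (p j) := ⟨_, rfl⟩
  rw [← hxd] at hOut2
  obtain ⟨hc0, hc1, hc2⟩ := cross n t a p p' d ((2 * M2 * m : ℕ) : ℤ)
    (by exact_mod_cast hdQ) ha4 ha5 (fun j hj => ⟨(hpp j hj).1, (hpp j hj).2.2⟩) pp hpp0
    (by rw [hpp1]) hpp2 x hxd
  have hppe : ∀ j ≤ 2 * n + 2, pp j % 2 = 0 := by
    intro j hj
    rcases Nat.lt_or_ge j (2 * n + 1) with h | h
    · rw [hpp0 j (by omega)]
      exact (hpp j (by omega)).2.1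
    · rcases Nat.eq_or_lt_of_le h with h | h
      · rw [← h, hpp1, mul_assoc, Nat.mul_mod_right]
      · have : j = 2 * n + 2 := by omega
        rw [this, hpp2]
  obtain ⟨S, hS⟩ : ∃ S, S = ∑ j ∈ Finset.range (2 * n + 3), pp j := ⟨_, rfl⟩
  have hpps : ∀ j ≤ 2 * n + 2, pp j ≤ S := by
    intro j hj
    rw [hS]
    exact Finset.single_le_sum (f := pp) (fun i _ => Nat.zero_le _)
      (Finset.mem_range.2 (by omega))
  have hseg2 : Seg (n + 1) x (fun j => cst (2 * S + 2) t' (a j))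
      (fun j => hd (2 * (n + 1) + 1) (rt (2 * (n + 1) + 1) t' (a j)) (pp j)) := by
    have hcase : ∀ j ≤ 2 * (n + 1), ∃ k : ℤ,
        x j + (a j + pp j * (2 * ((n + 1 : ℕ) : ℤ) + 1)) = 2 * k - (2 * ((n + 1 : ℕ) : ℤ) + 1) := by
      intro j hj
      rcases Nat.lt_or_ge j (2 * n + 1) with h | h
      · refine ⟨ii n (t % 2) j, ?_⟩
        have := hc0 j (by omega)
        push_cast
        linarith
      · rcases Nat.eq_or_lt_of_le h with h | h
        · refine ⟨(n : ℤ) + 2 + (t % 2 : ℕ), ?_⟩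
          rw [← h]
          push_cast at hc1 ⊢
          linarith
        · refine ⟨(n : ℤ) + 1 + (t % 2 : ℕ), ?_⟩
          have : j = 2 * n + 2 := by omega
          rw [this]
          push_cast at hc2 ⊢
          linarith
    refine hf (n + 1) x a pp (2 * S + 2) t' (by omega) (fun j hj => ha1 j (by omega))
      (fun s hs => ?_) (fun j hj => ?_) (fun k hk0 hk => ?_) (fun j hj => ?_) (fun j hj _ => ?_)
    · obtain ⟨j, hj, hjs⟩ := ha2 s (by omega)
      exact ⟨j, by omega, hjs⟩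
    · obtain ⟨k, hk⟩ := hcase j hj
      unfold Od
      rw [hk]
      omega
    · obtain ⟨k', rfl⟩ := Int.eq_ofNat_of_zero_le hk0
      push_cast at hk
      rcases lt_trichotomy k' (n + 1 + t % 2) with h | h | h
      · refine ⟨k', by omega, ?_⟩
        have h1 := hc0 k' (by omega)
        have h2 : ii n (t % 2) k' = k' := by
          unfold Pool.Agent.Y790.TR.OW.ii
          rw [if_pos h]
        rw [h2] at h1
        push_cast
        linarith
      · refine ⟨2 * n + 2, by omega, ?_⟩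
        have h3 : (k' : ℤ) = n + 1 + (t % 2 : ℕ) := by exact_mod_cast h
        push_cast at hc2 h3 ⊢
        linarith
      · rcases Nat.eq_or_lt_of_le h with h' | h'
        · refine ⟨2 * n + 1, by omega, ?_⟩
          have h3 : (k' : ℤ) = n + 2 + (t % 2 : ℕ) := by
            have : k' = n + 2 + t % 2 := by omega
            exact_mod_cast this
          push_cast at hc1 h3 ⊢
          linarith
        · obtain ⟨j, rfl⟩ : ∃ j, k' = j + 2 := ⟨k' - 2, by omega⟩
          refine ⟨j, by omega, ?_⟩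
          have h1 := hc0 j (by omega)
          have h2 : ii n (t % 2) j = j + 2 := by
            unfold Pool.Agent.Y790.TR.OW.ii
            rw [if_neg (by omega)]
          rw [h2] at h1
          push_cast at h1 ⊢
          linarith
    · have h1 := hpps j (by omega)
      unfold Pool.Agent.Y790.LG.cst
      split_ifs <;> omega
    · exact hppe j (by omega)
  obtain ⟨A2, B2, hOut3, -⟩ := ho (n + 1) (mm + 1) A1 (B1 + 2) _ _ _ _ _ _ _
    (∑ j ∈ Finset.range (2 * (n + 1) + 1), (cst (2 * S + 2) t' (a j) : ℤ)) rfl hOut2 hseg2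
  -- the sum of the lags
  have hK'8 : K' % 8 = 1 := by
    have : K' = K + 8 * (M * m) := by
      rw [hd4, hdd]
      ring
    omega
  have hQK' : 2 * (n + 1) + 1 ∣ K' := by
    have e : 2 * (n + 1) + 1 = 2 * n + 3 := by ring
    rw [e, hd4, hdQ]
    refine Dvd.dvd.add ?_ ?_
    · exact (Dvd.intro _ hM2.symm).trans hMK
    · exact ⟨4 * (2 * M2 * m), by ring⟩
  have e23 : 2 * (n + 1) + 1 = 2 * n + 3 := by ring
  obtain ⟨hP's, -⟩ := PK_spec (n + 1) K' hK'8 hQK' (by rw [e23]; omega)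
  rw [e23] at hP's
  have hSP : S = PK K' (n + 1) := by
    have hsum : (∑ j ∈ Finset.range (2 * n + 3), (pp j : ℤ)) =
        ∑ j ∈ Finset.range (2 * n + 1), (p' j : ℤ) + (2 * M2 * m : ℕ) := by
      rw [Finset.sum_range_succ, Finset.sum_range_succ, hpp1, hpp2]
      rw [Finset.sum_congr rfl fun j hj => by
        rw [hpp0 j (by have := Finset.mem_range.1 hj; omega)]]
      push_cast
      ring
    have h1 : (2 * (n : ℤ) + 3) * ∑ j ∈ Finset.range (2 * n + 1), (p' j : ℤ) =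
        -(2 * (n : ℤ) + 2) + (2 * n + 1) * (PK K n : ℤ) := by
      rw [Finset.mul_sum, Finset.sum_congr rfl fun j hj =>
        (hpp j (by have := Finset.mem_range.1 hj; omega)).2.2, Finset.sum_add_distrib, hgs,
        ← Finset.mul_sum]
      congr 2
      exact_mod_cast hpsum
    have h2 : (S : ℤ) = ∑ j ∈ Finset.range (2 * n + 1), (p' j : ℤ) + (2 * M2 * m : ℕ) := by
      rw [← hsum, hS]
      push_cast
      rfl
    have h3 : (4 * (2 * (n : ℤ) + 3)) * (S : ℤ) = (4 * (2 * (n : ℤ) + 3)) * (PK K' (n + 1) : ℤ) := by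
      have h4 : (4 * (2 * n + 1) * PK K n + (2 * n + 1) ^ 2 : ℤ) = K := by exact_mod_cast hPs
      have h5 : (4 * (2 * n + 3) * PK K' (n + 1) + (2 * n + 3) ^ 2 : ℤ) = K' := by
        exact_mod_cast hP's
      have h6 : (K' : ℤ) = K + 4 * d := by exact_mod_cast hd4
      have h7 : (d : ℤ) = (2 * n + 3) * (2 * M2 * m : ℕ) := by exact_mod_cast hdQ
      rw [h2]
      linear_combination 4 * h1 + h4 - h5 - h6 - 4 * h7
    have h8 := mul_left_cancel₀ (by positivity) h3
    exact_mod_cast h8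
  obtain ⟨A3, B3, c', hOut4, hPrs⟩ := hg n mm V (PK K' (n + 1)) A2 B2 c (bN mm (B1 + 1) b) I up
    (fun j => rt (2 * n + 3) t' (a j)) pp
    (fun j hj => by
      have := rt_le (q := 2 * n + 3) (t := t') (s := a j) (by have := ha1 j hj; omega) ht'
      show rt (2 * n + 3) t' (a j) ≤ 2 * n + 2
      omega)
    (fun i hi => by
      obtain ⟨s, hs, hsi⟩ := rt_surj (q := 2 * n + 3) ht' i (by omega)
      obtain ⟨j, hj, hjs⟩ := ha2 s (by omega)
      exact ⟨j, hj, by
        show rt (2 * n + 3) t' (a j) = i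
        rw [hjs, hsi]⟩)
    ha6 ha7 ha8 hppe (by rw [← hS, hSP]) hOut3
  refine ⟨A3, B3, c', bN mm (B1 + 1) b, hOut4, fun i hi => ?_, ?_, hPrs⟩
  · unfold bN
    rw [if_neg (by omega)]
  · have h1 : bN mm (B1 + 1) b (mm + 1) = B1 + 1 := by
      unfold bN
      rw [if_pos rfl]
    have h2 : b V = -(d : ℤ) + A1 := by
      rw [hbV]
      unfold Pool.Agent.Y790.TR.em
      rw [if_pos hde]
    rw [h1, h2]
    have h3 := hOut1.1
    omega

end Pool.Agent.Y790.TG
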