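import Pool.Agent.Y790.TR.Def3
import Pool.Agent.Y790.TR.OutS

/-!
# Trees with few leaves: the outer part followed by a segment, new names
-/

set_option autoImplicit false

namespace Pool.Agent.Y790.TG

open Pool.Agent.Y790.TR
open Pool.Agent.Y790.LG (Od Sm rt cst hd Lg Kst prd Cls Lags)

theorem outOf : OutOfStm := by
  intro n A B x c b up hO
  obtain ⟨hAB, hA, hB, L, hL, hcov, hbI, hLI, hc, hch, hlast, hs⟩ := hO
  refine ⟨hAB, hA, hB, by simp, ?_, L, hL, hcov, hbI, hLI, hc, hch, hlast, ?_⟩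
  · intro i hi
    exact absurd hi (Finset.notMem_empty i)
  · intro v hv h1 h2
    exact Or.inr (hs v hv h1 h2)

theorem outCongrG : OutCongrG := by
  intro n m A B x x' c c' b b' I up up' hx hcc hb hup hO
  obtain ⟨hAB, hA, hB, hnm, hI, L, hL, hcov, hbI, hLI, hc, hch, hlast, hsm⟩ := hO
  have hbc : ∀ j ≤ 2 * n, b' (c' j) = b (c j) := by
    intro j hj
    rw [← hcc j hj, hb _ (hc j hj)]
  have hbi : ∀ i ∈ I, b' i = b i ∧ b' (up' i) = b (up i) := by
    intro i hi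
    obtain ⟨-, h2, h3, -⟩ := hI i hi
    refine ⟨(hb i h2).symm, ?_⟩
    rw [← hup i hi]
    exact (hb _ (h3.le.trans h2)).symm
  refine ⟨hAB, hA, hB, hnm, ?_, L, hL, ?_, ?_, hLI, ?_, ?_, ?_, ?_⟩
  · intro i hi
    obtain ⟨h1, h2, h3, h4⟩ := hI i hi
    obtain ⟨e1, e2⟩ := hbi i hi
    refine ⟨h1, h2, ?_, ?_⟩
    · rw [← hup i hi]
      exact h3
    · rw [e1, e2]
      exact h4
  · intro z hz
    rcases hcov z hz with ⟨i, hi, h1⟩ | h1
    · exact Or.inl ⟨i, hi, by rw [← hb i hi]; exact h1⟩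
    · exact Or.inr h1
  · intro i hi
    rw [← hb i hi]
    exact hbI i hi
  · intro j hj
    rw [← hcc j hj]
    exact hc j hj
  · intro j hj
    rw [hbc j hj]
    exact hch j hj
  · intro j hj
    rw [hbc j hj, ← hx j hj]
    exact hlast j hj
  · intro v hv h1 h2
    rcases hsm v hv h1 h2 with ⟨i, hi, h3⟩ | ⟨j, hj, h3⟩
    · obtain ⟨e1, e2⟩ := hbi i hi
      exact Or.inl ⟨i, hi, by rw [e1, e2]; exact h3⟩
    · exact Or.inr ⟨j, hj, by rw [hbc j hj]; exact h3⟩

theorem outSegG : OutSegG := by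
  intro n m A B x y c b I up d W hW hO hS
  obtain ⟨hAB, hA, hB, hnm, hI, L, hL, hcov, hbI, hLI, hc, hch, hlast, hs⟩ := hO
  obtain ⟨M, W₀, hW₀, hMl, hMlast, hMb, hMch, hMcov, hMs⟩ := hS
  have hWW : W₀ = W := by rw [hW, hW₀]
  subst hWW
  have hW0 : 0 ≤ W₀ := by
    rw [hW₀]
    exact Finset.sum_nonneg fun j _ => by positivity
  obtain ⟨A', B', h⟩ : ∃ A' B' : ℤ, (W₀ % 2 = 0 ∧ A' = A + W₀ ∧ B' = B + W₀) ∨
      (W₀ % 2 = 1 ∧ A' = B + W₀ ∧ B' = A + W₀) := by
    rcases Int.emod_two_eq_zero_or_one W₀ with h | h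
    · exact ⟨_, _, Or.inl ⟨h, rfl, rfl⟩⟩
    · exact ⟨_, _, Or.inr ⟨h, rfl, rfl⟩⟩
  have hem : ∀ u : ℤ, em A' B' u = em A B (u + W₀) := by
    intro u
    unfold Pool.Agent.Y790.TR.em
    rcases h with ⟨hw, rfl, rfl⟩ | ⟨hw, rfl, rfl⟩
    · split_ifs <;> omega
    · split_ifs <;> omega
  have hsum : A' + B' = A + B + 2 * W₀ := by
    rcases h with ⟨hw, rfl, rfl⟩ | ⟨hw, rfl, rfl⟩ <;> ring
  refine ⟨A', B', ⟨?_, ?_, ?_, hnm, hI, fun j => L j ++ (M j).map (TR.em A B), ?_, ?_, ?_, ?_, hc,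
    ?_, ?_, ?_⟩, hem⟩
  · rcases h with ⟨hw, rfl, rfl⟩ | ⟨hw, rfl, rfl⟩ <;> omega
  · rcases h with ⟨hw, rfl, rfl⟩ | ⟨hw, rfl, rfl⟩ <;> omega
  · rcases h with ⟨hw, rfl, rfl⟩ | ⟨hw, rfl, rfl⟩ <;> omega
  · have h1 : ∑ j ∈ Finset.range (2 * n + 1), (((L j ++ (M j).map (TR.em A B)).length : ℕ) : ℤ) =
        ∑ j ∈ Finset.range (2 * n + 1), ((L j).length : ℤ) + W₀ := by
      rw [hW₀, ← Finset.sum_add_distrib]
      refine Finset.sum_congr rfl fun j hj => ?_
      have hj' := Finset.mem_range.1 hj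
      rw [List.length_append, List.length_map, hMl j (by omega)]
      push_cast
      ring
    rw [h1, hsum, hL]
    ring
  · intro z hz
    by_cases hz' : In A B z
    · rcases hcov z hz' with h1 | ⟨j, hj, h1⟩
      · exact Or.inl h1
      · exact Or.inr ⟨j, hj, List.mem_append_left _ h1⟩
    · obtain ⟨u, hu, hu', rfl⟩ := new_em hAB h hz hz'
      obtain ⟨j, hj, h1⟩ := hMcov u hu hu'
      exact Or.inr ⟨j, hj, List.mem_append_right _ (List.mem_map_of_mem h1)⟩
  · intro i hi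
    exact in_mono hAB hW0 h (hbI i hi)
  · intro j hj z hz
    rcases List.mem_append.1 hz with h1 | h1
    · exact in_mono hAB hW0 h (hLI j hj z h1)
    · obtain ⟨u, hu, rfl⟩ := List.mem_map.1 h1
      obtain ⟨h2, h3⟩ := hMb j hj u hu
      exact in_em hAB hA hB h h2 h3
  · intro j hj
    obtain ⟨l', hl'⟩ := Pool.Agent.Y790.LG.exists_last (hlast j hj)
    have c1 : (l' ++ [em A B (x j)]).IsChain Od := by
      rw [← hl']
      exact hch j hj
    have c2 : ([em A B (x j)] ++ (M j).map (TR.em A B)).IsChain Od := by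
      have h1 : ((x j :: M j).map (TR.em A B)).IsChain Od := by
        rw [List.isChain_map]
        exact (hMch j hj).imp fun _ _ h => od_em hAB h
      simpa using h1
    have c3 := c1.append_overlap c2 (by simp)
    rw [← hl'] at c3
    simpa using c3
  · intro j hj
    rw [hem, ← List.cons_append, List.getLast?_append, List.getLast?_map, hMlast j hj]
    rfl
  · intro v hv h1 h2
    by_cases h3 : v < A + B - (2 * n + 1)
    · rcases hs v hv h1 h3 with h4 | ⟨j, hj, h4⟩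
      · exact Or.inl h4
      · refine Or.inr ⟨j, hj, h4.inFx ?_⟩
        rw [← List.cons_append]
        exact List.infix_append_left
    · obtain ⟨j, hj, a, a', h4, h5⟩ := hMs (v - (A + B)) (by omega) (by omega) (by omega)
      have h6 : Od a a' := od_sub2 (hMch j hj) h4
      refine Or.inr ⟨j, hj, em A B a, em A B a', ?_, by rw [em_add hAB h6]; omega⟩
      obtain ⟨l', hl'⟩ := Pool.Agent.Y790.LG.exists_last (hlast j hj)
      have h7 : (x j :: M j).map (TR.em A B) <:+: (b (c j) :: (L j ++ (M j).map (TR.em A B))) := by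
        refine List.IsSuffix.isInfix ⟨l', ?_⟩
        rw [← List.cons_append, hl']
        simp
      refine List.IsInfix.trans ?_ h7
      have h8 := List.IsInfix.map (TR.em A B) h4
      simpa using h8

theorem relG : RelG := by
  intro n m A B x c b I up π hπ hs hO
  obtain ⟨hAB, hA, hB, hnm, hI, L, hL, hcov, hbI, hLI, hc, hch, hlast, hsm⟩ := hO
  refine ⟨hAB, hA, hB, hnm, hI, fun j => L (π j), ?_, ?_, hbI, ?_, ?_, ?_, ?_, ?_⟩
  · rw [sum_rel n (fun j => ((L j).length : ℤ)) π hπ hs]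
    exact hL
  · intro z hz
    rcases hcov z hz with h1 | ⟨j, hj, h1⟩
    · exact Or.inl h1
    · obtain ⟨i, hi, rfl⟩ := hs j hj
      exact Or.inr ⟨i, hi, h1⟩
  · exact fun j hj => hLI (π j) (hπ j hj)
  · exact fun j hj => hc (π j) (hπ j hj)
  · exact fun j hj => hch (π j) (hπ j hj)
  · exact fun j hj => hlast (π j) (hπ j hj)
  · intro v hv h1 h2
    rcases hsm v hv h1 h2 with h3 | ⟨j, hj, h3⟩
    · exact Or.inl h3
    · obtain ⟨i, hi, rfl⟩ := hs j hj
      exact Or.inr ⟨i, hi, h3⟩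

end Pool.Agent.Y790.TG
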