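import Pool.Agent.Y790.TR.Def3
import Pool.Agent.Y790.TR.OutS

/-!
# A new node joined by an edge
-/

set_option autoImplicit false

namespace Pool.Agent.Y790.TG.Pause

open Pool.Agent.Y790.TR
open Pool.Agent.Y790.LG (Od Sm rt cst hd Lg Kst prd Cls Lags)

lemma em_sh {A B D z : ℤ} (hAB : (A - B) % 2 = 0) (hD : D % 2 = 0) :
    em (A + D) (B + D + 2) (sh z) = em A B (z + D) := by
  unfold TR.em sh
  split_ifs <;> omega

lemma bN_le {m : ℕ} {z : ℤ} {b : ℕ → ℤ} {i : ℕ} (hi : i ≤ m) : bN m z b i = b i := by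
  unfold bN
  rw [if_neg (by omega)]

lemma bN_eq {m : ℕ} {z : ℤ} {b : ℕ → ℤ} : bN m z b (m + 1) = z := by
  unfold bN
  rw [if_pos rfl]

end Pool.Agent.Y790.TG.Pause

namespace Pool.Agent.Y790.TG

open Pool.Agent.Y790.TR
open Pool.Agent.Y790.LG (Od Sm rt cst hd Lg Kst prd Cls Lags)
open Pool.Agent.Y790.TG.Pause

theorem pause : PauseStm := by
  intro n m A B x y c b I up d V D hO hV hup hDe hDp hbV hS hDs
  obtain ⟨hAB, hA, hB, hcard, hI, L, hL, hcov, hbI, hLI, hc, hch, hlast, hs⟩ := hO
  obtain ⟨M, W₀, hW₀, hMl, hMlast, hMb, hMch, hMcov, hMs⟩ := hS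
  have hWD : W₀ = D := by rw [hDs, hW₀]
  subst hWD
  have hW0 : 0 ≤ W₀ := hDp.le
  have hmI : m + 1 ∉ I := fun h => by
    have := (hI _ h).2.1
    omega
  have hcase : (W₀ % 2 = 0 ∧ A + W₀ = A + W₀ ∧ B + W₀ = B + W₀) ∨
      (W₀ % 2 = 1 ∧ A + W₀ = B + W₀ ∧ B + W₀ = A + W₀) := Or.inl ⟨hDe, rfl, rfl⟩
  have hmono : ∀ z, In (A + W₀) (B + W₀) z → In (A + W₀) (B + W₀ + 2) z := by
    rintro z ⟨h1, h2, h3⟩
    exact ⟨h1, h2, fun h4 => by have := h3 h4; omega⟩
  have hold : ∀ z, In A B z → In (A + W₀) (B + W₀ + 2) z := fun z hz =>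
    hmono z (in_mono hAB hW0 hcase hz)
  have hbV' : b V = A - W₀ := by
    rw [hbV]
    unfold TR.em
    rw [if_pos (by omega)]
    ring
  have hlt : ∀ i ∈ I, i ≤ m ∧ up i ≤ m := fun i hi => by
    obtain ⟨h1, h2, h3, -⟩ := hI i hi
    omega
  have hsplit : ∀ f : ℕ → ℤ, ∑ j ∈ Finset.range (2 * (n + 1) + 1), f j =
      ∑ j ∈ Finset.range (2 * n + 1), f j + (f (2 * n + 1) + f (2 * n + 2)) := by
    intro f
    rw [show 2 * (n + 1) + 1 = 2 * n + 1 + 1 + 1 by ring, Finset.sum_range_succ,
      Finset.sum_range_succ]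
    ring
  refine ⟨by omega, by omega, by omega, ?_, ?_,
    fun j => if j ≤ 2 * n then L j ++ (M j).map (em A B) else L j, ?_, ?_, ?_, ?_, ?_, ?_, ?_, ?_⟩
  · rw [Finset.card_insert_of_notMem hmI]
    omega
  · intro i hi
    rcases Finset.mem_insert.1 hi with rfl | hi
    · refine ⟨by omega, le_rfl, by omega, ?_⟩
      rw [hup, bN_eq, bN_le hV, hbV']
      unfold Od
      omega
    · obtain ⟨h1, h2, h3, h4⟩ := hI i hi
      refine ⟨h1, by omega, h3, ?_⟩
      rw [bN_le h2, bN_le (by omega)]
      exact h4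
  · rw [hsplit] at hL ⊢
    have h1 : ∑ j ∈ Finset.range (2 * n + 1),
        (((if j ≤ 2 * n then L j ++ (M j).map (em A B) else L j).length : ℕ) : ℤ) =
        ∑ j ∈ Finset.range (2 * n + 1), ((L j).length : ℤ) + W₀ := by
      rw [hW₀, ← Finset.sum_add_distrib]
      refine Finset.sum_congr rfl fun j hj => ?_
      have hj' := Finset.mem_range.1 hj
      rw [if_pos (by omega), List.length_append, List.length_map, hMl j (by omega)]
      push_cast
      ring
    rw [h1]
    simp only [show ¬ (2 * n + 1 ≤ 2 * n) by omega, show ¬ (2 * n + 2 ≤ 2 * n) by omega, if_false]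
    push_cast at hL ⊢
    linarith
  · intro z hz
    by_cases hz0 : z = B + W₀ + 1
    · exact Or.inl ⟨m + 1, le_rfl, by rw [bN_eq, hz0]⟩
    · have hz1 : In (A + W₀) (B + W₀) z := by
        obtain ⟨h1, h2, h3⟩ := hz
        refine ⟨h1, h2, fun h4 => ?_⟩
        have := h3 h4
        omega
      by_cases hz' : In A B z
      · rcases hcov z hz' with ⟨i, hi, h1⟩ | ⟨j, hj, h1⟩
        · exact Or.inl ⟨i, by omega, by rw [bN_le hi]; exact h1⟩
        · refine Or.inr ⟨j, hj, ?_⟩
          by_cases hj2 : j ≤ 2 * n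
          · simp only [if_pos hj2]
            exact List.mem_append_left _ h1
          · simp only [if_neg hj2]
            exact h1
      · obtain ⟨u, hu, hu', rfl⟩ := new_em hAB hcase hz1 hz'
        obtain ⟨j, hj, h1⟩ := hMcov u hu hu'
        refine Or.inr ⟨j, by omega, ?_⟩
        simp only [if_pos hj]
        exact List.mem_append_right _ (List.mem_map_of_mem h1)
  · intro i hi
    rcases Nat.lt_or_ge m i with h | h
    · obtain rfl : i = m + 1 := by omega
      rw [bN_eq]
      exact ⟨by omega, fun _ => by omega, fun _ => by omega⟩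
    · rw [bN_le h]
      exact hold _ (hbI i h)
  · intro j hj z hz
    by_cases hj2 : j ≤ 2 * n
    · simp only [if_pos hj2] at hz
      rcases List.mem_append.1 hz with h1 | h1
      · exact hold _ (hLI j hj z h1)
      · obtain ⟨u, hu, rfl⟩ := List.mem_map.1 h1
        obtain ⟨h2, h3⟩ := hMb j hj2 u hu
        exact hmono _ (in_em hAB hA hB hcase h2 h3)
    · simp only [if_neg hj2] at hz
      exact hold _ (hLI j hj z hz)
  · intro j hj
    have := hc j hj
    omega
  · intro j hj
    rw [bN_le (hc j hj)]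
    by_cases hj2 : j ≤ 2 * n
    · simp only [if_pos hj2]
      obtain ⟨l', hl'⟩ := Pool.Agent.Y790.LG.exists_last (hlast j hj)
      have c1 : (l' ++ [em A B (x j)]).IsChain Od := by
        rw [← hl']
        exact hch j hj
      have c2 : ([em A B (x j)] ++ (M j).map (em A B)).IsChain Od := by
        have h1 : ((x j :: M j).map (em A B)).IsChain Od := by
          rw [List.isChain_map]
          exact (hMch j hj2).imp fun _ _ h => od_em hAB h
        simpa using h1
      have c3 := c1.append_overlap c2 (by simp)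
      rw [← hl'] at c3
      simpa using c3
    · simp only [if_neg hj2]
      exact hch j hj
  · intro j hj
    rw [bN_le (hc j hj), em_sh hAB hDe]
    by_cases hj2 : j ≤ 2 * n
    · simp only [if_pos hj2]
      rw [← List.cons_append, List.getLast?_append, List.getLast?_map, hMlast j hj2]
      rfl
    · simp only [if_neg hj2]
      rw [sub_add_cancel]
      exact hlast j hj
  · intro v hv h1 h2
    push_cast at h2
    by_cases h3 : v < A + B - (2 * ((n + 1 : ℕ) : ℤ) + 1)
    · rcases hs v hv h1 h3 with ⟨i, hi, h4⟩ | ⟨j, hj, h4⟩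
      · refine Or.inl ⟨i, Finset.mem_insert_of_mem hi, ?_⟩
        rw [bN_le (hlt i hi).1, bN_le (hlt i hi).2]
        exact h4
      · refine Or.inr ⟨j, hj, ?_⟩
        rw [bN_le (hc j hj)]
        by_cases hj2 : j ≤ 2 * n
        · simp only [if_pos hj2]
          refine h4.inFx ?_
          rw [← List.cons_append]
          exact List.infix_append_left
        · simp only [if_neg hj2]
          exact h4
    · push_cast at h3
      by_cases hu1 : v = A + B + 1
      · refine Or.inl ⟨m + 1, Finset.mem_insert_self _ _, ?_⟩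
        rw [hup, bN_eq, bN_le hV, hbV', hu1]
        ring
      · obtain ⟨j, hj, a, a', h4, h5⟩ := hMs (v - (A + B)) (by omega) (by omega) (by omega)
          (by omega)
        have h6 : Od a a' := od_sub2 (hMch j hj) h4
        refine Or.inr ⟨j, by omega, ?_⟩
        rw [bN_le (hc j (by omega))]
        simp only [if_pos hj]
        refine ⟨em A B a, em A B a', ?_, by rw [em_add hAB h6]; omega⟩
        obtain ⟨l', hl'⟩ := Pool.Agent.Y790.LG.exists_last (hlast j (by omega))
        have h7 : (x j :: M j).map (em A B) <:+: (b (c j) :: (L j ++ (M j).map (em A B))) := by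
          refine List.IsSuffix.isInfix ⟨l', ?_⟩
          rw [← List.cons_append, hl']
          simp
        refine List.IsInfix.trans ?_ h7
        have h8 := List.IsInfix.map (em A B) h4
        simpa using h8

end Pool.Agent.Y790.TG
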