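import Pool.Agent.Y790.TR.Def3
import Pool.Agent.Y790.LG.Cls
import Pool.Agent.Y790.LG.Step
import Pool.Agent.Y790.LG.Core

/-!
# Segments without the sum `1` (helper434)
-/

set_option autoImplicit false

namespace Pool.Agent.Y790.TG

open Pool.Agent.Y790.TR
open Pool.Agent.Y790.LG (Od Sm rt cst hd Lg Kst prd Cls Lags)

theorem segSTrans : SegSTransStm := by
  intro n x y z c d ⟨L, W₀, h1, h2, h3, h4, h5, h6, h7⟩ ⟨M, W₁, k1, k2, k3, k4, k5, k6, k7⟩
  have hW0 : 0 ≤ W₀ := by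
    rw [h1]
    exact Finset.sum_nonneg fun j _ => by positivity
  have hW1 : 0 ≤ W₁ := by
    rw [k1]
    exact Finset.sum_nonneg fun j _ => by positivity
  refine ⟨fun j => L j ++ (M j).map (· + W₀), W₀ + W₁, ?_, ?_, ?_, ?_, ?_, ?_, ?_⟩
  · rw [h1, k1, ← Finset.sum_add_distrib]
    exact Finset.sum_congr rfl fun j _ => by push_cast; ring
  · intro j hj
    rw [List.length_append, List.length_map, h2 j hj, k2 j hj]
  · intro j hj
    obtain ⟨A, hA⟩ := Pool.Agent.Y790.LG.exists_last (k3 j hj)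
    beta_reduce
    rw [hA, List.map_append, ← List.append_assoc, List.map_singleton, List.getLast?_concat]
    congr 1
    ring
  · intro j hj u hu
    rw [List.mem_append, List.mem_map] at hu
    rcases hu with h | ⟨a, h, rfl⟩
    · have := h4 j hj u h
      omega
    · have := k4 j hj a h
      omega
  · intro j hj
    exact Pool.Agent.Y790.LG.one_chain (h3 j hj) (h5 j hj) (k5 j hj)
  · intro u h0 h8
    by_cases hu : u < W₀
    · obtain ⟨j, hj, h⟩ := h6 u h0 hu
      exact ⟨j, hj, List.mem_append_left _ h⟩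
    · obtain ⟨j, hj, h⟩ := k6 (u - W₀) (by omega) (by omega)
      exact ⟨j, hj, List.mem_append_right _ (List.mem_map.2 ⟨_, h, by ring⟩)⟩
  · intro v hv h8 h9 hv1
    by_cases hv2 : v < 2 * W₀ - (2 * n + 1)
    · obtain ⟨j, hj, h⟩ := h7 v hv h8 hv2 hv1
      exact ⟨j, hj, h.inFx Pool.Agent.Y790.LG.one_left⟩
    · obtain ⟨j, hj, h⟩ := k7 (v - 2 * W₀) (by omega) (by omega) (by omega)
      exact ⟨j, hj, h.shift.inFx (Pool.Agent.Y790.LG.one_mid (h3 j hj))⟩

theorem fwdS : FwdSStm := by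
  intro n x a p w t ht ha hs hod hcr hw hp
  obtain ⟨L, W₀, hW, hlen, hlast, hb, hch, hcov, hsum, hhd⟩ :=
    Pool.Agent.Y790.LG.StepAux.core Pool.Agent.Y790.LG.cls n x a p w t ht ha hs hod hw hp
  refine ⟨L, W₀, hW, hlen, hlast, hb, hch, hcov, ?_⟩
  intro v hv hv1 hv2 hv4
  by_cases hv3 : 2 * (n : ℤ) + 1 ≤ v
  · exact hsum v hv hv3 hv2
  · obtain ⟨j, hj, hj2⟩ := hcr ((v + (2 * n + 3)) / 2) (by omega) (by omega) (by omega)
    refine ⟨j, hj, ?_⟩
    have h3 := hhd j hj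
    rw [hj2] at h3
    have h4 : 2 * ((v + (2 * (n : ℤ) + 3)) / 2) - (2 * n + 3) = v := by omega
    rw [h4] at h3
    exact h3

end Pool.Agent.Y790.TG
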