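import Pool.Agent.Y790.TR.Def3

/-!
# Trees with few leaves: choice of the lags before a pause

Contributed by helper839.
-/

set_option autoImplicit false

namespace Pool.Agent.Y790.TG.TuneS

theorem res (n : ℕ) (h : ℤ) : ∃ x : ℕ, x < 2 * n + 1 ∧
    (2 * (n : ℤ) + 1) ∣ h - (2 * n + 3) * (2 * x) := by
  have hc : IsCoprime (4 : ℤ) (2 * n + 1) := by
    have h1 : IsCoprime (2 : ℤ) (2 * n + 1) := ⟨-n, 1, by ring⟩
    have h2 := h1.mul_left h1
    norm_num at h2
    exact h2
  obtain ⟨a, b, hab⟩ := hc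
  have hQ : (0 : ℤ) < 2 * n + 1 := by positivity
  have h1 := Int.emod_nonneg (a * h) hQ.ne'
  have h2 := Int.emod_lt_of_pos (a * h) hQ
  have h3 : ((a * h % (2 * n + 1)).toNat : ℤ) = a * h % (2 * n + 1) := Int.toNat_of_nonneg h1
  refine ⟨(a * h % (2 * n + 1)).toNat, by omega, ?_⟩
  rw [h3]
  have h4 := Int.emod_add_mul_ediv (a * h) (2 * n + 1)
  set x := a * h % (2 * n + 1) with hx
  set y := a * h / (2 * n + 1) with hy
  refine ⟨-2 * x + 4 * y + b * h, ?_⟩
  linear_combination (-h) * hab + (-4) * h4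

end Pool.Agent.Y790.TG.TuneS

namespace Pool.Agent.Y790.TG

open Pool.Agent.Y790.TR

theorem tuneS : TuneSStm := by
  intro n P μ g hμ hP hPl hg
  choose x hx1 hx2 using fun j => TuneS.res n (-(g j) - (2 * n + 3) * (8 * (2 * n + 1)))
  set f : ℕ → ℕ := fun j => 2 * (4 * (2 * n + 1) + x j) with hf
  set T : ℕ := ∑ j ∈ Finset.range (2 * n + 2), (if j = 2 * μ ∨ j = 2 * μ + 1 then 0 else f j)
    with hT
  obtain ⟨y, hy1, hy2⟩ := TuneS.res n (g (2 * n + 2) + (2 * n + 3) * ((P : ℤ) - T))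
  have hTle : T ≤ (2 * n + 2) * (10 * (2 * n + 1)) := by
    rw [hT]
    refine (Finset.sum_le_card_nsmul _ _ (10 * (2 * n + 1)) fun j _ => ?_).trans (le_of_eq ?_)
    · split_ifs
      · exact Nat.zero_le _
      · have := hx1 j
        simp only [hf]
        omega
    · rw [Finset.card_range, smul_eq_mul]
  have hTev : T % 2 = 0 := by
    have : 2 ∣ T := Finset.dvd_sum fun j _ => by
      split_ifs
      · exact dvd_zero _
      · exact ⟨_, rfl⟩
    omega
  have hP0 : T + 2 * y + 28 * (2 * n + 3) ^ 2 ≤ P := by nlinarith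
  set p : ℕ → ℕ := fun j => if j = 2 * μ then 0 else if j = 2 * μ + 1 then 2 * y else
    if j = 2 * n + 2 then P - T - 2 * y else f j with hp
  have hp0 : p (2 * n + 2) = P - T - 2 * y := by
    simp only [hp]
    rw [if_neg (by omega), if_neg (by omega), if_pos trivial]
  have hpf : ∀ j, j ≠ 2 * μ → j ≠ 2 * μ + 1 → j ≠ 2 * n + 2 → p j = f j := by
    intro j h1 h2 h3
    simp only [hp]
    rw [if_neg h1, if_neg h2, if_neg h3]
  have hps : ∑ j ∈ Finset.range (2 * n + 3), p j = P := by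
    rw [Finset.sum_range_succ, hp0]
    have h1 : ∑ j ∈ Finset.range (2 * n + 2), p j = T + 2 * y := by
      have h2 : ∀ j ∈ Finset.range (2 * n + 2), p j =
          (if j = 2 * μ ∨ j = 2 * μ + 1 then 0 else f j) + if j = 2 * μ + 1 then 2 * y else 0 := by
        intro j hj
        have hj' := Finset.mem_range.1 hj
        simp only [hp]
        by_cases h1 : j = 2 * μ
        · rw [if_pos h1, if_pos (Or.inl h1), if_neg (by omega)]
        · by_cases h2 : j = 2 * μ + 1
          · rw [if_neg h1, if_pos h2, if_pos (Or.inr h2), if_pos h2, zero_add]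
          · rw [if_neg h1, if_neg h2, if_neg (by omega), if_neg (by omega), if_neg h2, add_zero]
      rw [Finset.sum_congr rfl h2, Finset.sum_add_distrib, Finset.sum_ite_eq',
        if_pos (Finset.mem_range.2 (by omega))]
    rw [h1]
    omega
  have hpe : ∀ j, p j % 2 = 0 := by
    intro j
    simp only [hp]
    split_ifs
    · rfl
    · omega
    · omega
    · simp only [hf]
      omega
  have hn0 : (0 : ℤ) ≤ n := Int.natCast_nonneg n
  have hd : ∀ j ≤ 2 * n + 2, j ≠ 2 * μ → j ≠ 2 * μ + 1 →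
      (2 * (n : ℤ) + 1) ∣ g j + (2 * n + 3) * p j := by
    intro j hj h1 h2
    by_cases h3 : j = 2 * n + 2
    · subst h3
      rw [hp0]
      have h4 : ((P - T - 2 * y : ℕ) : ℤ) = (P : ℤ) - T - 2 * y := by
        have : T + 2 * y ≤ P := by omega
        omega
      rw [h4]
      have h5 : g (2 * n + 2) + (2 * n + 3) * ((P : ℤ) - T - 2 * y) =
          g (2 * n + 2) + (2 * n + 3) * ((P : ℤ) - T) - (2 * n + 3) * (2 * y) := by ring
      rw [h5]
      exact hy2
    · rw [hpf j h1 h2 h3]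
      have h4 : g j + (2 * n + 3) * ((f j : ℕ) : ℤ) =
          -(-(g j) - (2 * n + 3) * (8 * (2 * n + 1)) - (2 * n + 3) * (2 * x j)) := by
        simp only [hf]
        push_cast
        ring
      rw [h4]
      exact (dvd_neg).2 (hx2 j)
  have hpl : ∀ j ≤ 2 * n + 2, j ≠ 2 * μ → j ≠ 2 * μ + 1 → 8 * (2 * n + 1) ≤ p j := by
    intro j hj h1 h2
    by_cases h3 : j = 2 * n + 2
    · subst h3
      rw [hp0]
      have : 8 * (2 * n + 1) ≤ 28 * (2 * n + 3) ^ 2 := by nlinarith
      omega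
    · rw [hpf j h1 h2 h3]
      simp only [hf]
      omega
  have hpos : ∀ j ≤ 2 * n + 2, j ≠ 2 * μ → j ≠ 2 * μ + 1 → 0 ≤ g j + (2 * n + 3) * p j := by
    intro j hj h1 h2
    have h3 := (hg j hj h1 h2).2.1
    have h4 : (8 * (2 * (n : ℤ) + 1)) ≤ p j := by exact_mod_cast hpl j hj h1 h2
    nlinarith
  have hfin : ∀ j ≤ 2 * n + 2, j ≠ 2 * μ → j ≠ 2 * μ + 1 →
      (2 * (n : ℤ) + 1) * (((g j + (2 * n + 3) * p j) / (2 * n + 1)).toNat : ℤ) =
        g j + (2 * n + 3) * p j := by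
    intro j hj h1 h2
    have h3 : 0 ≤ (g j + (2 * n + 3) * p j) / (2 * n + 1) :=
      Int.ediv_nonneg (hpos j hj h1 h2) (by linarith)
    rw [Int.toNat_of_nonneg h3]
    exact Int.mul_ediv_cancel' (hd j hj h1 h2)
  refine ⟨p, fun j => ((g j + (2 * n + 3) * p j) / (2 * n + 1)).toNat, fun j _ => hpe j,
    fun j hj h1 h2 => ⟨?_, hfin j hj h1 h2⟩, hps, 2 * n + 2, le_rfl, by omega, by omega, ?_⟩
  · have h4 := hfin j hj h1 h2
    set y' := ((g j + (2 * n + 3) * p j) / (2 * n + 1)).toNat with hy'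
    have h5 : Even ((2 * (n : ℤ) + 1) * (y' : ℤ)) := by
      rw [h4]
      have e1 : Even (g j) := Int.even_iff.2 (hg j hj h1 h2).1
      have e2 : Even (p j : ℤ) := by
        rw [Int.even_coe_nat]
        exact Nat.even_iff.2 (hpe j)
      exact e1.add (e2.mul_left _)
    rw [Int.even_mul] at h5
    rcases h5 with h6 | h6
    · exfalso
      rw [Int.even_iff] at h6
      omega
    · rw [Int.even_coe_nat] at h6
      exact Nat.even_iff.1 h6
  · have h1 := hfin (2 * n + 2) le_rfl (by omega) (by omega)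
    have h2 := (hg (2 * n + 2) le_rfl (by omega) (by omega)).2.1
    have h3 : 28 * (2 * n + 3) ^ 2 ≤ p (2 * n + 2) := by
      rw [hp0]
      omega
    have h3' : 28 * (2 * (n : ℤ) + 3) ^ 2 ≤ p (2 * n + 2) := by exact_mod_cast h3
    simp only
    set y' := ((g (2 * n + 2) + (2 * n + 3) * p (2 * n + 2)) / (2 * n + 1)).toNat with hy'
    have h4 : (2 * (n : ℤ) + 1) * (4 * (2 * n + 3) * (2 * n + 1)) ≤ (2 * (n : ℤ) + 1) * y' := by
      rw [h1]
      have h5 : (2 * (n : ℤ) + 3) * (28 * (2 * (n : ℤ) + 3) ^ 2) ≤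
          (2 * (n : ℤ) + 3) * p (2 * n + 2) := mul_le_mul_of_nonneg_left h3' (by linarith)
      nlinarith [mul_nonneg hn0 hn0, mul_nonneg (mul_nonneg hn0 hn0) hn0]
    have h5 : 4 * (2 * (n : ℤ) + 3) * (2 * n + 1) ≤ y' :=
      le_of_mul_le_mul_left h4 (by linarith)
    exact_mod_cast h5

end Pool.Agent.Y790.TG
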