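import Pool.Agent.Y790.TR.All
import Pool.Agent.Y790.TG.ArrE
import Pool.Agent.Y790.TG.Edge
import Pool.Agent.Y790.TG.EvG
import Pool.Agent.Y790.TG.ExtG
import Pool.Agent.Y790.TG.GatherG
import Pool.Agent.Y790.TG.GrowG
import Pool.Agent.Y790.TG.Mid
import Pool.Agent.Y790.TG.OpenRG
import Pool.Agent.Y790.TG.OpenWG
import Pool.Agent.Y790.TG.OutG
import Pool.Agent.Y790.TG.Pause
import Pool.Agent.Y790.TG.SegS
import Pool.Agent.Y790.TG.TuneS

/-!
# Trees with few leaves: all outer parts can be grown
-/

set_option autoImplicit false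

namespace Pool.Agent.Y790.TG

open Pool.Agent.Y790.TR

theorem allGrowG : GrowG := by
  have hco := conn segCongr segTrans (wait fwd) (mov0 fwd segCongr segTrans)
  have hga0 := gather outSeg outCongr rel hco
  have hga := gatherG outSegG relG outCongrG
  exact growG (base evR hga0) outOf outCongrG (openRG outSegG evRG hga)
    (openWG outSegG outCongrG extWG hga)
    (edge outSegG relG outCongrG (mid pause segSTrans fwdS) tuneS arrE
      (gatherE outSegG relG outCongrG))

end Pool.Agent.Y790.TG
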