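import Pool.Agent.Y790.TR.Def3
import Pool.Agent.Y790.TR.Close

/-!
# Trees with few leaves: the outer part and the completion give a labelled network
-/

set_option autoImplicit false

namespace Pool.Agent.Y790.TG

open Pool.Agent.Y790.TR
open Pool.Agent.Y790.LG (Od Sm rt cst hd Lg Kst prd Cls ClsStm Lags)

namespace CloseG

open Pool.Agent.Y790.TR.Cl

theorem closeG : Pool.Agent.Y790.TR.CloseG := by
  classical
  intro e n m P A B c b I up sd C₀ hP hO hsd hc0 hPr hup hSt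
  obtain ⟨hAB, hA, hB, hnm, hIe, L, hL, hcov, hbI, hLI, hc, hch, hlast, hs⟩ := hO
  obtain ⟨S, hS⟩ : ∃ S : ℕ, S = ∑ j ∈ Finset.range (2 * n + 1), (L j).length := ⟨_, rfl⟩
  have hSj : ∀ j ≤ 2 * n, (L j).length ≤ S := by
    intro j hj
    rw [hS]
    exact Finset.single_le_sum (f := fun j => (L j).length) (fun _ _ => Nat.zero_le _)
      (Finset.mem_range.2 (by omega))
  have hex : ∀ i, ∃ l, 1 ≤ i → i ≤ m → i ∉ I → l < n ∧ ((c (2 * l) = i ∧ c (2 * l + 1) = up i) ∨
      (c (2 * l) = up i ∧ c (2 * l + 1) = i)) := by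
    intro i
    by_cases h : 1 ≤ i ∧ i ≤ m ∧ i ∉ I
    · obtain ⟨l, hl, h1⟩ := hPr i h.1 h.2.1 h.2.2
      exact ⟨l, fun _ _ _ => ⟨hl, h1⟩⟩
    · exact ⟨0, fun h1 h2 h3 => absurd ⟨h1, h2, h3⟩ h⟩
  choose μ hμ using hex
  obtain ⟨J, hJ⟩ : ∃ J : ℕ → ℕ, ∀ l, J l = max (c (2 * l)) (c (2 * l + 1)) := ⟨_, fun _ => rfl⟩
  have hJμ : ∀ i, 1 ≤ i → i ≤ m → i ∉ I → J (μ i) = i := by
    intro i h1 h2 h2'
    have h3 := hup i h1 h2
    rw [hJ]
    rcases (hμ i h1 h2 h2').2 with ⟨h4, h5⟩ | ⟨h4, h5⟩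
    · rw [h4, h5]
      omega
    · rw [h4, h5]
      omega
  obtain ⟨E, hE⟩ : ∃ E : Finset ℕ, E = Finset.Icc 1 m \ I := ⟨_, rfl⟩
  have hEm : ∀ i, i ∈ E ↔ 1 ≤ i ∧ i ≤ m ∧ i ∉ I := by
    intro i
    rw [hE, Finset.mem_sdiff, Finset.mem_Icc, and_assoc]
  have hIsub : I ⊆ Finset.Icc 1 m := by
    intro i hi
    have h1 := hIe i hi
    exact Finset.mem_Icc.2 ⟨h1.1, h1.2.1⟩
  have hEc : E.card = n := by
    rw [hE, Finset.card_sdiff_of_subset hIsub, Nat.card_Icc]
    omega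
  have hinj : Set.InjOn μ (E : Finset ℕ) := by
    intro i hi j hj hij
    have hi' := (hEm i).1 (Finset.mem_coe.1 hi)
    have hj' := (hEm j).1 (Finset.mem_coe.1 hj)
    rw [← hJμ i hi'.1 hi'.2.1 hi'.2.2, ← hJμ j hj'.1 hj'.2.1 hj'.2.2, hij]
  have himg : E.image μ = Finset.range n := by
    refine Finset.eq_of_subset_of_card_le ?_ ?_
    · intro l hl
      obtain ⟨i, hi, rfl⟩ := Finset.mem_image.1 hl
      have hi' := (hEm i).1 hi
      exact Finset.mem_range.2 (hμ i hi'.1 hi'.2.1 hi'.2.2).1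
    · rw [Finset.card_image_of_injOn hinj, hEc]
      simp
  have hmI : ∀ l < n, 1 ≤ J l ∧ J l ≤ m ∧ J l ∉ I ∧ μ (J l) = l := by
    intro l hl
    have h1 : l ∈ E.image μ := by
      rw [himg]
      exact Finset.mem_range.2 hl
    obtain ⟨i, hi, rfl⟩ := Finset.mem_image.1 h1
    have hi' := (hEm i).1 hi
    rw [hJμ i hi'.1 hi'.2.1 hi'.2.2]
    exact ⟨hi'.1, hi'.2.1, hi'.2.2, rfl⟩
  have hreidx : ∀ f : ℕ → ℤ, ∑ l ∈ Finset.range n, f (J l) = ∑ i ∈ E, f i := by
    intro f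
    rw [← himg, Finset.sum_image hinj]
    refine Finset.sum_congr rfl fun i hi => ?_
    have hi' := (hEm i).1 hi
    rw [hJμ i hi'.1 hi'.2.1 hi'.2.2]
  have hcc : ∀ l < n, (c (2 * l) = J l ∧ c (2 * l + 1) = up (J l)) ∨
      (c (2 * l) = up (J l) ∧ c (2 * l + 1) = J l) := by
    intro l hl
    obtain ⟨h1, h2, h2', h3⟩ := hmI l hl
    have h4 := (hμ (J l) h1 h2 h2').2
    rwa [h3] at h4
  refine ⟨C₀ + 2 * S + 2, ?_⟩
  intro len g hlI hlen hg
  have hpar : ∀ i, 1 ≤ i → i ≤ m → i ∉ I → ((len i : ℤ) + sd i + sd (up i)) % 2 = 0 :=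
    fun i h1 h2 h3 => (hlen i h1 h2 h3).1
  have hC : ∀ i, 1 ≤ i → i ≤ m → i ∉ I → C₀ + 2 * S + 2 ≤ len i :=
    fun i h1 h2 h3 => (hlen i h1 h2 h3).2.1
  have hCg : ∀ i, 1 ≤ i → i ≤ m → i ∉ I → len i + (C₀ + 2 * S + 2) ≤ 2 * g :=
    fun i h1 h2 h3 => (hlen i h1 h2 h3).2.2
  obtain ⟨ℓ, hℓdef⟩ : ∃ ℓ : ℕ → ℕ, ∀ l, ℓ l =
    len (J l) - 1 - (L (2 * l)).length - (L (2 * l + 1)).length := ⟨_, fun _ => rfl⟩
  have hℓ : ∀ l < n, ℓ l + 1 + (L (2 * l)).length + (L (2 * l + 1)).length = len (J l) := by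
    intro l hl
    have h1 := hmI l hl
    have h2 := hC (J l) h1.1 h1.2.1 h1.2.2.1
    have h3 := hSj (2 * l) (by omega)
    have h4 := hSj (2 * l + 1) (by omega)
    rw [hℓdef]
    omega
  obtain ⟨g', hg'⟩ : ∃ g' : ℕ, g' + (L (2 * n)).length = g := by
    have := hSj (2 * n) le_rfl
    exact ⟨g - (L (2 * n)).length, by omega⟩
  have hev : ∀ l < n, ℓ l % 2 = 0 := by
    intro l hl
    obtain ⟨h1, h2, h2', h3⟩ := hmI l hl
    have h4 := chain_par _ _ _ (hch (2 * l) (by omega)) (hlast (2 * l) (by omega))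
    have h5 := chain_par _ _ _ (hch (2 * l + 1) (by omega)) (hlast (2 * l + 1) (by omega))
    have h6 := em_par hAB (Kst n P 0 (2 * l))
    have h7 := em_par hAB (Kst n P 0 (2 * l + 1))
    have h8 := kst_par (n := n) hP (2 * l)
    have h9 := kst_par (n := n) hP (2 * l + 1)
    have h10 := hpar (J l) h1 h2 h2'
    have h11 := hℓ l hl
    have h12 := hsd (J l) h2
    have h13 := hsd (up (J l)) (by have := hup (J l) h1 h2; omega)
    push_cast at h8 h9
    rcases hcc l hl with ⟨h14, h15⟩ | ⟨h14, h15⟩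
    · rw [h14] at h4
      rw [h15] at h5
      omega
    · rw [h14] at h4
      rw [h15] at h5
      omega
  have hSt' := hSt ℓ g' hev
    (fun l hl => by
      have h1 := hmI l hl
      have h2 := hC (J l) h1.1 h1.2.1 h1.2.2.1
      have h3 := hSj (2 * l) (by omega)
      have h4 := hSj (2 * l + 1) (by omega)
      have h5 := hℓ l hl
      omega)
    (fun l hl => by
      have h1 := hmI l hl
      have h2 := hCg (J l) h1.1 h1.2.1 h1.2.2.1
      have h3 := hSj (2 * n) (by omega)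
      have h5 := hℓ l hl
      omega)
    (by
      have h3 := hSj (2 * n) (by omega)
      omega)
  obtain ⟨W, Q, G', hW, hQ, hG', hcv, hGb, hQb, hss, hGc, hQc, hGl⟩ := hSt'
  have hGl' : (Kst n P 0 (2 * n) :: G').getLast? = some (W - 1 - e) := hGl
  have hW0 : 0 ≤ W := by
    rw [hW]
    have : (0 : ℤ) ≤ ∑ l ∈ Finset.range n, (ℓ l : ℤ) := Finset.sum_nonneg fun j _ => by positivity
    omega
  obtain ⟨A', B', h⟩ : ∃ A' B' : ℤ, (W % 2 = 0 ∧ A' = A + W ∧ B' = B + W) ∨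
      (W % 2 = 1 ∧ A' = B + W ∧ B' = A + W) := by
    rcases Int.emod_two_eq_zero_or_one W with h | h
    · exact ⟨_, _, Or.inl ⟨h, rfl, rfl⟩⟩
    · exact ⟨_, _, Or.inr ⟨h, rfl, rfl⟩⟩
  have hem : ∀ u : ℤ, em A' B' u = em A B (u + W) := by
    intro u
    unfold Pool.Agent.Y790.TR.em
    rcases h with ⟨hw, rfl, rfl⟩ | ⟨hw, rfl, rfl⟩
    · split_ifs <;> omega
    · split_ifs <;> omega
  have hsum : A' + B' = A + B + 2 * W := by
    rcases h with ⟨hw, rfl, rfl⟩ | ⟨hw, rfl, rfl⟩ <;> ring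
  obtain ⟨Z, hZ⟩ : ∃ Z : ℕ → List ℤ, ∀ l, Z l = Zt A B (L (2 * l)) (Q l) (L (2 * l + 1)) :=
    ⟨_, fun _ => rfl⟩
  obtain ⟨D, hD⟩ : ∃ D : ℕ → List ℤ, ∀ l, D l =
    b (c (2 * l)) :: (Z l ++ [b (c (2 * l + 1))]) := ⟨_, fun _ => rfl⟩
  obtain ⟨T, hT⟩ : ∃ T : ℕ → List ℤ, ∀ i, T i =
    if i ∈ I then [] else if c (2 * μ i) = i then Z (μ i) else (Z (μ i)).reverse :=
    ⟨_, fun _ => rfl⟩
  have hTD : ∀ i, 1 ≤ i → i ≤ m → i ∉ I → (b i :: (T i ++ [b (up i)])) = D (μ i) ∨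
      (b i :: (T i ++ [b (up i)])) = (D (μ i)).reverse := by
    intro i h1 h2 h2'
    rw [hT, hD, if_neg h2']
    rcases (hμ i h1 h2 h2').2 with ⟨h3, h4⟩ | ⟨h3, h4⟩
    · left
      rw [if_pos h3, h3, h4]
    · right
      have := hup i h1 h2
      rw [if_neg (by omega), h3, h4]
      simp
  have hTI : ∀ i ∈ I, T i = [] := by
    intro i hi
    rw [hT, if_pos hi]
  have hTm : ∀ i z, i ∉ I → (z ∈ T i ↔ z ∈ Z (μ i)) := by
    intro i z hi
    rw [hT, if_neg hi]
    split_ifs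
    · rfl
    · exact List.mem_reverse
  have hTl : ∀ i, i ∉ I → (T i).length = (Z (μ i)).length := by
    intro i hi
    rw [hT, if_neg hi]
    split_ifs
    · rfl
    · exact List.length_reverse
  have hZT : ∀ l < n, ∀ z ∈ Z l, ∃ i, 1 ≤ i ∧ i ≤ m ∧ z ∈ T i := by
    intro l hl z hz
    obtain ⟨h1, h2, h2', h3⟩ := hmI l hl
    refine ⟨J l, h1, h2, (hTm _ _ h2').2 ?_⟩
    rwa [h3]
  have hDch : ∀ l < n, (D l).IsChain Od := by
    intro l hl
    rw [hD, hZ]
    exact tp_chain hAB (hlast (2 * l) (by omega)) (hlast (2 * l + 1) (by omega))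
      (hch (2 * l) (by omega)) (hch (2 * l + 1) (by omega)) (hQc l hl)
  have hDS : ∀ l < n, ∀ v, Sm (D l) v →
      ∃ i, 1 ≤ i ∧ i ≤ m ∧ Sm (b i :: (T i ++ [b (up i)])) v := by
    intro l hl v hv
    obtain ⟨h1, h2, h2', h3⟩ := hmI l hl
    refine ⟨J l, h1, h2, ?_⟩
    have h4 := hTD (J l) h1 h2 h2'
    rw [h3] at h4
    rcases h4 with h4 | h4
    · rw [h4]
      exact hv
    · rw [h4]
      exact hv.reverse
  obtain ⟨l', hl'⟩ := Pool.Agent.Y790.LG.exists_last (hlast (2 * n) le_rfl)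
  rw [hc0] at hl'
  have hGeq : b 0 :: (L (2 * n) ++ G'.map (em A B)) =
      l' ++ (Kst n P 0 (2 * n) :: G').map (em A B) := by
    rw [← List.cons_append, hl']
    simp
  have hsplit : ∑ i ∈ Finset.Icc 1 m, (len i : ℤ) = ∑ i ∈ E, (len i : ℤ) + I.card := by
    have h1 : Finset.Icc 1 m = E ∪ I := by
      rw [hE, Finset.sdiff_union_of_subset hIsub]
    have h2 : Disjoint E I := by
      rw [hE]
      exact Finset.sdiff_disjoint
    rw [h1, Finset.sum_union h2]
    congr 1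
    rw [Finset.sum_congr rfl (fun i hi => by rw [hlI i hi])]
    simp
  refine ⟨A', B', b, T, L (2 * n) ++ G'.map (em A B), ?_, ?_, ?_, ?_, ?_, ?_, ?_, ?_, ?_, ?_, ?_,
    ?_, ?_, ?_⟩
  · rcases h with ⟨hw, rfl, rfl⟩ | ⟨hw, rfl, rfl⟩ <;> omega
  · rcases h with ⟨hw, rfl, rfl⟩ | ⟨hw, rfl, rfl⟩ <;> omega
  · rcases h with ⟨hw, rfl, rfl⟩ | ⟨hw, rfl, rfl⟩ <;> omega
  · have h1 := hreidx (fun i => (len i : ℤ))
    have h2 : ∑ l ∈ Finset.range n, ((len (J l) : ℕ) : ℤ) =
        ∑ l ∈ Finset.range n, (ℓ l : ℤ) + n +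
          ∑ l ∈ Finset.range n, (((L (2 * l)).length : ℤ) + ((L (2 * l + 1)).length : ℤ)) := by
      have h3 : (n : ℤ) = ∑ l ∈ Finset.range n, (1 : ℤ) := by simp
      rw [h3, ← Finset.sum_add_distrib, ← Finset.sum_add_distrib]
      refine Finset.sum_congr rfl fun l hl => ?_
      rw [← hℓ l (Finset.mem_range.1 hl)]
      push_cast
      ring
    have h4 := Pool.Agent.Y790.LG.sum_pairs (fun j => ((L j).length : ℤ)) n
    have h5 : (g : ℤ) = g' + (L (2 * n)).length := by rw [← hg']; push_cast; ring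
    have h6 : (m : ℤ) = n + I.card := by rw [← hnm]; push_cast; ring
    rw [hsplit, hsum, hL, h4, hW, ← h1, h2, h5, h6]
    ring
  · intro i h1 h2
    by_cases hi : i ∈ I
    · rw [hTI i hi, hlI i hi]
      rfl
    · have h3 := (hμ i h1 h2 hi).1
      rw [hTl i hi, hZ, Zt_length, hQ _ h3]
      have h4 := hℓ _ h3
      rw [hJμ i h1 h2 hi] at h4
      omega
  · rw [List.length_append, List.length_map, hG']
    omega
  · intro z hz
    by_cases hz' : In A B z
    · rcases hcov z hz' with h1 | ⟨j, hj, h1⟩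
      · exact Or.inl h1
      · right
        by_cases hj2 : j = 2 * n
        · right
          subst hj2
          exact List.mem_append_left _ h1
        · left
          refine hZT (j / 2) (by omega) z ?_
          rw [hZ, mem_Zt]
          rcases Nat.mod_two_eq_zero_or_one j with h2 | h2
          · left
            rwa [show 2 * (j / 2) = j by omega]
          · right; right
            rwa [show 2 * (j / 2) + 1 = j by omega]
    · obtain ⟨u, hu, hu', rfl⟩ := new_em hAB h hz hz'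
      right
      rcases hcv u hu hu' with h1 | ⟨l, hl, h1⟩
      · exact Or.inr (List.mem_append_right _ (List.mem_map_of_mem h1))
      · left
        refine hZT l hl _ ?_
        rw [hZ, mem_Zt]
        exact Or.inr (Or.inl ⟨u, h1, rfl⟩)
  · intro i hi
    exact in_mono hAB hW0 h (hbI i hi)
  · intro i h1 h2 z hz
    by_cases hi : i ∈ I
    · rw [hTI i hi] at hz
      exact absurd hz List.not_mem_nil
    have h3 := (hμ i h1 h2 hi).1
    rw [hTm _ _ hi, hZ, mem_Zt] at hz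
    rcases hz with h4 | ⟨u, h4, rfl⟩ | h4
    · exact in_mono hAB hW0 h (hLI _ (by omega) z h4)
    · obtain ⟨h5, h6⟩ := hQb _ h3 u h4
      exact in_em hAB hA hB h h5 h6
    · exact in_mono hAB hW0 h (hLI _ (by omega) z h4)
  · intro z hz
    rcases List.mem_append.1 hz with h1 | h1
    · exact in_mono hAB hW0 h (hLI _ le_rfl z h1)
    · obtain ⟨u, hu, rfl⟩ := List.mem_map.1 h1
      obtain ⟨h2, h3⟩ := hGb u hu
      exact in_em hAB hA hB h h2 h3
  · intro i h1 h2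
    by_cases hi : i ∈ I
    · rw [hTI i hi]
      simpa using (hIe i hi).2.2.2
    have h3 := hDch _ (hμ i h1 h2 hi).1
    rcases hTD i h1 h2 hi with h4 | h4
    · rw [h4]
      exact h3
    · rw [h4]
      exact Pool.Agent.Y790.LG.chain_reverse h3
  · have c1 : (l' ++ [em A B (Kst n P 0 (2 * n))]).IsChain Od := by
      rw [← hl', ← hc0]
      exact hch (2 * n) le_rfl
    have c2 : ([em A B (Kst n P 0 (2 * n))] ++ G'.map (em A B)).IsChain Od := by
      have := chain_em hAB hGc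
      simpa using this
    have c3 := c1.append_overlap c2 (by simp)
    rw [← hl'] at c3
    simpa using c3
  · intro v hv h1 h2
    by_cases h3 : v < A + B - (2 * n + 1)
    · rcases hs v hv h1 h3 with ⟨i, hi, h4⟩ | ⟨j, hj, h4⟩
      · left
        have h5 := hIe i hi
        refine ⟨i, h5.1, h5.2.1, ?_⟩
        rw [hTI i hi]
        exact ⟨b i, b (up i), ⟨[], [], by simp⟩, h4⟩
      by_cases hj2 : j = 2 * n
      · right
        subst hj2
        rw [hc0] at h4
        refine h4.inFx ?_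
        rw [← List.cons_append]
        exact List.infix_append_left
      · left
        rcases Nat.mod_two_eq_zero_or_one j with h5 | h5
        · obtain ⟨l, rfl⟩ : ∃ l, j = 2 * l := ⟨j / 2, by omega⟩
          refine hDS l (by omega) v ?_
          rw [hD, hZ]
          exact h4.inFx tp_left
        · obtain ⟨l, rfl⟩ : ∃ l, j = 2 * l + 1 := ⟨j / 2, by omega⟩
          refine hDS l (by omega) v ?_
          rw [hD, hZ]
          exact h4.reverse.inFx tp_right
    · rcases hss (v - (A + B)) (by omega) (by omega) (by omega) with h4 | ⟨l, hl, h4⟩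
      · right
        rw [hGeq]
        exact (Sm_em hAB hGc h4).inFx List.infix_append_right
      · left
        refine hDS l hl v ?_
        rw [hD, hZ]
        exact (Sm_em hAB (hQc l hl) h4).inFx
          (tp_mid (hlast (2 * l) (by omega)) (hlast (2 * l + 1) (by omega)))
  · rw [hGeq, hem, List.getLast?_append, List.getLast?_map, hGl']
    have : W - 1 - e = -1 - e + W := by ring
    rw [this]
    rfl

end CloseG

theorem closeG : Pool.Agent.Y790.TR.CloseG := CloseG.closeG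

end Pool.Agent.Y790.TG
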