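import Pool.Agent.Y790.TR.Def3
import Pool.Agent.Y790.TR.Root
import Pool.Agent.Y790.TR.VD

/-!
# Large trees with few vertices of degree different from two: the decomposition into edges and long threads
-/

set_option autoImplicit false

namespace Pool.Agent.Y790.TG.GraphG

open Pool.Agent.Y790.TR

/-- two vertices of degree different from two -/
theorem two {V : Type} [Fintype V] (T : SimpleGraph V) (hT : T.IsTree) (h2 : 2 ≤ Fintype.card V) :
    ∃ x y : V, x ≠ y ∧ (T.neighborSet x).ncard ≠ 2 ∧ (T.neighborSet y).ncard ≠ 2 := by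
  classical
  have hdeg : ∀ x, (T.neighborSet x).ncard = T.degree x := by
    intro x
    rw [Set.ncard_eq_toFinset_card', SimpleGraph.degree, SimpleGraph.neighborFinset]
  have hsum := T.sum_degrees_eq_twice_card_edges
  have hE := hT.card_edgeFinset
  have : Nontrivial V := Fintype.one_lt_card_iff_nontrivial.1 (by omega)
  by_contra hcon
  push Not at hcon
  have hcon' : ∀ x y, x ≠ y → T.degree x ≠ 2 → T.degree y = 2 := by
    intro x y hxy hx
    have h1 := hcon x y hxy (by rw [hdeg]; exact hx)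
    rw [hdeg] at h1
    exact h1
  by_cases hall : ∀ x, T.degree x = 2
  · rw [Finset.sum_congr rfl (fun x _ => hall x), Finset.sum_const, Finset.card_univ, smul_eq_mul] at hsum
    omega
  · push Not at hall
    obtain ⟨x, hx⟩ := hall
    have h1 : ∑ y, T.degree y = T.degree x + ∑ y ∈ Finset.univ.erase x, T.degree y :=
      (Finset.add_sum_erase _ _ (Finset.mem_univ x)).symm
    have h3 : ∑ y ∈ Finset.univ.erase x, T.degree y = ∑ y ∈ Finset.univ.erase x, 2 :=
      Finset.sum_congr rfl (fun y hy => hcon' x y (Finset.ne_of_mem_erase hy).symm hx)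
    rw [Finset.sum_const, Finset.card_erase_of_mem (Finset.mem_univ x), Finset.card_univ, smul_eq_mul] at h3
    have h4 : 0 < T.degree x := hT.connected.preconnected.degree_pos_of_nontrivial x
    omega

/-- a vertex of degree two different from the root has a unique child -/
theorem child {V : Type} [Fintype V] {T : SimpleGraph V} {a : V} {par : V → V} (hR : Rt T a par) (x : V)
    (hxa : x ≠ a) (h2 : (T.neighborSet x).ncard = 2) :
    ∃ y, y ≠ a ∧ par y = x ∧ ∀ z, z ≠ a → par z = x → z = y := by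
  classical
  obtain ⟨R1, R2, R3⟩ := hR
  have pard : ∀ x, x ≠ a → T.dist a x = T.dist a (par x) + 1 := fun x hx => (R2 x hx).2
  obtain ⟨hadj, hd⟩ := R2 x hxa
  have hmem : par x ∈ T.neighborSet x := hadj.symm
  have h1 : 1 < (T.neighborSet x).ncard := by omega
  obtain ⟨y, hy, hyp⟩ := Set.exists_ne_of_one_lt_ncard h1 (par x)
  have hset : T.neighborSet x = {par x, y} := by
    refine (Set.eq_of_subset_of_ncard_le (s := {par x, y}) (t := T.neighborSet x) ?_ ?_
      (Set.toFinite _)).symm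
    · rintro z (rfl | hz)
      · exact hmem
      · rw [Set.mem_singleton_iff] at hz
        rw [hz]
        exact hy
    · rw [h2, Set.ncard_pair (fun h => hyp h.symm)]
  have hyc : y ≠ a ∧ par y = x := by
    rcases R3 x y hy with h | h
    · exact absurd h.2.symm hyp
    · exact h
  refine ⟨y, hyc.1, hyc.2, fun z hz hpz => ?_⟩
  have hzadj : T.Adj x z := by
    have := (R2 z hz).1
    rwa [hpz] at this
  have hz2 : z ∈ T.neighborSet x := hzadj
  rw [hset] at hz2
  rcases hz2 with h | h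
  · exfalso
    have e1 := pard z hz
    rw [hpz] at e1
    rw [h] at e1
    omega
  · exact h

/-- facts on the threads of a decomposition -/
theorem facts {V : Type} [Fintype V] {T : SimpleGraph V} (hT : T.IsTree) {a : V} {par : V → V}
    (hR : Rt T a par) {S : Set V} (haS : a ∈ S) {n : ℕ} {up len : ℕ → ℕ} {v : ℕ → ℕ → V}
    (hDec : Dec T n up len v) (hv0 : v 0 0 = a) (hvS : ∀ i ≤ n, v i 0 ∈ S)
    (hinj : ∀ i ≤ n, ∀ j ≤ n, v i 0 = v j 0 → i = j)
    (hpar : ∀ i, 1 ≤ i → i ≤ n → ∀ k < len i, v i (k + 1) = par (v i k) ∧ (1 ≤ k → v i k ∉ S)) :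
    (∀ i, 1 ≤ i → i ≤ n → ∀ j, j ≤ len i → v i j = par^[j] (v i 0)) ∧
    (∀ i, 1 ≤ i → i ≤ n → ∀ j, j < len i → v i j ≠ a) ∧
    (∀ i, 1 ≤ i → i ≤ n → T.dist a (v (up i) 0) + len i = T.dist a (v i 0) ∧
      T.dist (v i 0) (v (up i) 0) = len i) ∧
    (∀ i, 1 ≤ i → i ≤ n → v (up i) 0 ≠ v i 0) ∧
    (∀ i, 1 ≤ i → i ≤ n → Csc T S (v (up i) 0) (v i 0)) := by
  classical
  obtain ⟨D1, D2, D3⟩ := hDec
  obtain ⟨G1, G2⟩ := geo V T a par hT hR
  have hconn : T.Connected := hT.connected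
  have F1 : ∀ i, 1 ≤ i → i ≤ n → ∀ j, j ≤ len i → v i j = par^[j] (v i 0) := by
    intro i hi hi' j
    induction j with
    | zero => intro _; rfl
    | succ j ih =>
      intro hj
      rw [(hpar i hi hi' j (by omega)).1, ih (by omega), Function.iterate_succ_apply']
  have F0 : ∀ i, 1 ≤ i → i ≤ n → ∀ j, j < len i → v i j ≠ a := by
    intro i hi hi' j hj h
    rcases Nat.eq_zero_or_pos j with rfl | hj0
    · have h1 := hinj i hi' 0 (Nat.zero_le _) (h.trans hv0.symm)
      omega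
    · have h1 := (hpar i hi hi' j hj).2 hj0
      rw [h] at h1
      exact h1 haS
  have F2 : ∀ i, 1 ≤ i → i ≤ n → len i ≤ T.dist a (v i 0) := by
    intro i hi hi'
    by_contra h
    push Not at h
    have h2 := (G1 (v i 0) (T.dist a (v i 0)) le_rfl).1
    have h3 : T.dist a (par^[T.dist a (v i 0)] (v i 0)) = 0 := by omega
    have h4 : a = par^[T.dist a (v i 0)] (v i 0) := hconn.dist_eq_zero_iff.1 h3
    rw [← F1 i hi hi' _ h.le] at h4
    exact F0 i hi hi' _ h h4.symm
  have F3 : ∀ i, 1 ≤ i → i ≤ n → T.dist a (v (up i) 0) + len i = T.dist a (v i 0) ∧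
      T.dist (v i 0) (v (up i) 0) = len i := by
    intro i hi hi'
    have h1 := G1 (v i 0) (len i) (F2 i hi hi')
    rw [← F1 i hi hi' _ le_rfl, (D1 i hi hi').2.2.1] at h1
    exact h1
  have Fne : ∀ i, 1 ≤ i → i ≤ n → v (up i) 0 ≠ v i 0 := by
    intro i hi hi' h
    have h1 := (D1 i hi hi').1
    have h2 := hinj (up i) (by omega) i hi' h
    omega
  refine ⟨F1, F0, F3, Fne, ?_⟩
  intro i hi hi'
  have hup := (D1 i hi hi').1
  refine ⟨hvS _ (by omega), hvS i hi', Fne i hi hi', fun s hs hd => ?_⟩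
  obtain ⟨f1, f2⟩ := F3 i hi hi'
  rw [T.dist_comm (u := v (up i) 0) (v := v i 0), f2] at hd
  have t1 : T.dist a s ≤ T.dist a (v (up i) 0) + T.dist (v (up i) 0) s := hconn.dist_triangle
  have t2 : T.dist a (v i 0) ≤ T.dist a s + T.dist s (v i 0) := hconn.dist_triangle
  have e1 : T.dist a s + T.dist (v i 0) s = T.dist a (v i 0) := by
    rw [T.dist_comm (u := v i 0) (v := s)]
    omega
  have e2 := G2 (v i 0) s (T.dist (v i 0) s) rfl e1
  have hk : T.dist (v i 0) s ≤ len i := by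
    rw [T.dist_comm (u := v i 0) (v := s)]
    omega
  rw [← F1 i hi hi' _ hk] at e2
  rcases Nat.eq_zero_or_pos (T.dist (v i 0) s) with h0 | h0
  · right
    rw [h0] at e2
    exact e2
  · rcases hk.eq_or_lt with h1 | h1
    · left
      rw [h1, (D1 i hi hi').2.2.1] at e2
      exact e2
    · exfalso
      have h2 := (hpar i hi hi' _ h1).2 h0
      rw [← e2] at h2
      exact h2 hs

/-- positions are unique -/
theorem posu {V : Type} {a : V} {par : V → V} {S : Set V}
    (hch : ∀ x, x ∉ S → ∃ y, y ≠ a ∧ par y = x ∧ ∀ z, z ≠ a → par z = x → z = y)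
    {n : ℕ} {len : ℕ → ℕ} {v : ℕ → ℕ → V} (hvS : ∀ i ≤ n, v i 0 ∈ S)
    (hinj : ∀ i ≤ n, ∀ j ≤ n, v i 0 = v j 0 → i = j)
    (F0 : ∀ i, 1 ≤ i → i ≤ n → ∀ j, j < len i → v i j ≠ a)
    (hpar : ∀ i, 1 ≤ i → i ≤ n → ∀ k < len i, v i (k + 1) = par (v i k) ∧ (1 ≤ k → v i k ∉ S)) :
    ∀ c c' i i', 1 ≤ i → i ≤ n → 1 ≤ i' → i' ≤ n → c < len i → c' < len i' → v i c = v i' c' →
      i = i' ∧ c = c' := by
  intro c
  induction c with
  | zero =>
    intro c' i i' hi hi' hj hj' hc hc' h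
    have h1 : v i' c' ∈ S := by rw [← h]; exact hvS i hi'
    have h2 : c' = 0 := by
      by_contra hne
      exact (hpar i' hj hj' c' hc').2 (by omega) h1
    subst h2
    exact ⟨hinj i hi' i' hj' h, rfl⟩
  | succ c ih =>
    intro c' i i' hi hi' hj hj' hc hc' h
    have h1 : v i (c + 1) ∉ S := (hpar i hi hi' (c + 1) hc).2 (by omega)
    obtain ⟨c'', rfl⟩ : ∃ c'', c' = c'' + 1 := by
      rcases c' with _ | c''
      · exact absurd (h ▸ hvS i' hj') h1
      · exact ⟨c'', rfl⟩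
    obtain ⟨y, -, -, hy⟩ := hch _ h1
    have e1 := hy (v i c) (F0 i hi hi' c (by omega)) (hpar i hi hi' c (by omega)).1.symm
    have e2 := hy (v i' c'') (F0 i' hj hj' c'' (by omega))
      ((hpar i' hj hj' c'' (by omega)).1.symm.trans h.symm)
    obtain ⟨g1, g2⟩ := ih c'' i i' hi hi' hj hj' (by omega) (by omega) (e1.trans e2.symm)
    exact ⟨g1, by omega⟩

/-- the scales -/
def sc (f : ℕ → ℕ) (k : ℕ) : ℕ → ℕ
  | 0 => 1
  | j + 1 => max (sc f k j) (f (k + k * sc f k j)) + 1

theorem sc_mono (f : ℕ → ℕ) (k : ℕ) : StrictMono (sc f k) := by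
  refine strictMono_nat_of_lt_succ (fun j => ?_)
  have : sc f k (j + 1) = max (sc f k j) (f (k + k * sc f k j)) + 1 := rfl
  rw [this]
  omega

/-- the gap -/
theorem gap (f : ℕ → ℕ) (k n : ℕ) (len : ℕ → ℕ) (hn : n ≤ k) :
    ∃ j ≤ k, ∀ i, 1 ≤ i → i ≤ n → len i ≤ sc f k j ∨ sc f k (j + 1) < len i := by
  classical
  by_contra hcon
  push Not at hcon
  choose! g hg using hcon
  have hmono := sc_mono f k
  have h1 : (Finset.range (k + 1)).card ≤ (Finset.Icc 1 n).card := by
    refine Finset.card_le_card_of_injOn g ?_ ?_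
    · intro j hj
      have hj' : j ≤ k := by
        have := Finset.mem_range.1 (Finset.mem_coe.1 hj)
        omega
      have := hg j hj'
      exact Finset.mem_coe.2 (Finset.mem_Icc.2 ⟨this.1, this.2.1⟩)
    · intro j hj j' hj' he
      have hj1 : j ≤ k := by
        have := Finset.mem_range.1 (Finset.mem_coe.1 hj)
        omega
      have hj1' : j' ≤ k := by
        have := Finset.mem_range.1 (Finset.mem_coe.1 hj')
        omega
      have g1 := hg j hj1
      have g2 := hg j' hj1'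
      rw [he] at g1
      rcases lt_trichotomy j j' with h | h | h
      · exfalso
        have := hmono.monotone (show j + 1 ≤ j' by omega)
        omega
      · exact h
      · exfalso
        have := hmono.monotone (show j' + 1 ≤ j by omega)
        omega
  rw [Finset.card_range, Nat.card_Icc] at h1
  omega

end Pool.Agent.Y790.TG.GraphG

namespace Pool.Agent.Y790.TG

open Pool.Agent.Y790.TR
open Pool.Agent.Y790.TG.GraphG

theorem graphG (hp : PairG) : GraphG := by
  classical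
  intro f k
  refine ⟨k * sc f k (k + 1) + 3, ?_⟩
  intro V _ T hT hcard hbig
  have hmono := sc_mono f k
  set S₀ : Set V := {x : V | (T.neighborSet x).ncard ≠ 2} with hS₀def
  obtain ⟨a, b, hab, hmax⟩ := hp V T hT (two T hT (by omega))
  obtain ⟨haS, hbS, hne, hbet⟩ := hab
  obtain ⟨par, hRt⟩ := root V T hT a
  have hRt' := hRt
  obtain ⟨R1, R2, R3⟩ := hRt'
  obtain ⟨G1, G2⟩ := geo V T a par hT hRt
  have hconn : T.Connected := hT.connected
  have fixa : ∀ m, par^[m] a = a := fun m => Function.iterate_fixed R1 m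
  -- iterates which reach `b`
  have L1 : ∀ x m, par^[m] x = b → m ≤ T.dist a x ∧ T.dist a b + m = T.dist a x := by
    intro x m hm
    have h1 : m ≤ T.dist a x := by
      by_contra h
      push Not at h
      have h2 := (G1 x (T.dist a x) le_rfl).1
      have h3 : T.dist a (par^[T.dist a x] x) = 0 := by omega
      have h4 : a = par^[T.dist a x] x := hconn.dist_eq_zero_iff.1 h3
      have h5 : par^[m] x = a := by
        have e : m = (m - T.dist a x) + T.dist a x := by omega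
        rw [e, Function.iterate_add_apply, ← h4, fixa]
      exact hne (h5.symm.trans hm)
    have h2 := (G1 x m h1).1
    rw [hm] at h2
    exact ⟨h1, h2⟩
  have hDa : ¬ (∃ m, par^[m] a = b) := by
    rintro ⟨m, hm⟩
    rw [fixa] at hm
    exact hne hm
  have hDp : ∀ x, x ≠ a → (∃ m, par^[m] (par x) = b) → ∃ m, par^[m] x = b := by
    rintro x _ ⟨m, hm⟩
    exact ⟨m + 1, by rw [Function.iterate_succ_apply]; exact hm⟩
  have hchild₀ : ∀ x, x ∉ S₀ → ∃ y, y ≠ a ∧ par y = x ∧ ∀ z, z ≠ a → par z = x → z = y := by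
    intro x hx
    have h2 : (T.neighborSet x).ncard = 2 := by
      by_contra h
      exact hx h
    have hxa : x ≠ a := by
      rintro rfl
      exact hx haS
    exact child hRt x hxa h2
  -- the first decomposition
  obtain ⟨n₀, n₀', up₀, len₀, v₀, hDec₀, hnS₀, -, hv0₀, hvS₀, hinj₀, hsurj₀, hpar₀, -, -⟩ :=
    vd V T a par S₀ (fun _ => False) hT hRt haS (fun h => h) (fun _ _ h => h) hchild₀
  obtain ⟨F1₀, F0₀, F3₀, Fne₀, F4₀⟩ := facts hT hRt haS hDec₀ hv0₀ hvS₀ hinj₀ hpar₀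
  have hpos₀ := posu hchild₀ hvS₀ hinj₀ F0₀ hpar₀
  obtain ⟨D1₀, D2₀, D3₀⟩ := hDec₀
  have F6₀ : ∀ i, 1 ≤ i → i ≤ n₀ → len₀ i ≤ T.dist a b := by
    intro i hi hi'
    have h1 := hmax _ _ (F4₀ i hi hi')
    rw [T.dist_comm (u := v₀ (up₀ i) 0) (v := v₀ i 0), (F3₀ i hi hi').2] at h1
    exact h1
  have hLbig : sc f k (k + 1) < T.dist a b := by
    by_contra hcon
    push Not at hcon
    have h1 : ∑ i ∈ Finset.Icc 1 n₀, len₀ i ≤ ∑ i ∈ Finset.Icc 1 n₀, sc f k (k + 1) :=
      Finset.sum_le_sum (fun i hi => by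
        have := Finset.mem_Icc.1 hi
        exact (F6₀ i this.1 this.2).trans hcon)
    rw [Finset.sum_const, Nat.card_Icc, smul_eq_mul] at h1
    have h2 : (n₀ + 1 - 1) * sc f k (k + 1) ≤ k * sc f k (k + 1) :=
      Nat.mul_le_mul_right _ (by omega)
    omega
  obtain ⟨j, hjk, hgap⟩ := gap f k n₀ len₀ (by omega)
  have hsj1 : sc f k (j + 1) < T.dist a b :=
    lt_of_le_of_lt (hmono.monotone (by omega)) hLbig
  have hfN : f (k + k * sc f k j) < sc f k (j + 1) := by
    have : sc f k (j + 1) = max (sc f k j) (f (k + k * sc f k j)) + 1 := rfl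
    rw [this]
    omega
  have hsj : sc f k j < sc f k (j + 1) := hmono (by omega)
  have hsj0 : 1 ≤ sc f k j := by
    have := hmono.monotone (Nat.zero_le j)
    exact this
  -- the new set
  set S : Set V := S₀ ∪ {x | ∃ i, 1 ≤ i ∧ i ≤ n₀ ∧ len₀ i ≤ sc f k j ∧ ∃ c, 1 ≤ c ∧ c < len₀ i ∧
    x = v₀ i c} with hSdef
  have hSS : ∀ x, x ∈ S₀ → x ∈ S := fun x hx => Or.inl hx
  have hScard : S.ncard ≤ k + k * sc f k j := by
    have h1 : S ⊆ S₀ ∪ (((Finset.Icc 1 n₀ ×ˢ Finset.Icc 1 (sc f k j)).image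
        (fun p : ℕ × ℕ => v₀ p.1 p.2) : Finset V) : Set V) := by
      rintro x (hx | ⟨i, hi, hi', hl, c, hc, hc', rfl⟩)
      · exact Or.inl hx
      · right
        refine Finset.mem_coe.2 (Finset.mem_image.2 ⟨(i, c), ?_, rfl⟩)
        exact Finset.mem_product.2 ⟨Finset.mem_Icc.2 ⟨hi, hi'⟩, Finset.mem_Icc.2 ⟨hc, by omega⟩⟩
    have h2 := Set.ncard_le_ncard h1 (Set.toFinite _)
    have h3 := Set.ncard_union_le S₀ (((Finset.Icc 1 n₀ ×ˢ Finset.Icc 1 (sc f k j)).image
        (fun p : ℕ × ℕ => v₀ p.1 p.2) : Finset V) : Set V)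
    rw [Set.ncard_coe_finset] at h3
    have h4 : ((Finset.Icc 1 n₀ ×ˢ Finset.Icc 1 (sc f k j)).image
        (fun p : ℕ × ℕ => v₀ p.1 p.2)).card ≤ n₀ * sc f k j := by
      refine Finset.card_image_le.trans ?_
      rw [Finset.card_product, Nat.card_Icc, Nat.card_Icc]
      simp
    have h5 : n₀ * sc f k j ≤ k * sc f k j := Nat.mul_le_mul_right _ (by omega)
    omega
  have hchild : ∀ x, x ∉ S → ∃ y, y ≠ a ∧ par y = x ∧ ∀ z, z ≠ a → par z = x → z = y :=
    fun x hx => hchild₀ x (fun h => hx (hSS x h))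
  obtain ⟨n, n₁, up, len, v, hDec, hnS, hn1, hv0, hvS, hinj, hsurj, hpar, hD, hord⟩ :=
    vd V T a par S (fun x => ∃ m, par^[m] x = b) hT hRt (hSS a haS) hDa hDp hchild
  obtain ⟨F1, F0, F3, Fne, F4⟩ := facts hT hRt (hSS a haS) hDec hv0 hvS hinj hpar
  obtain ⟨D1, D2, D3⟩ := hDec
  -- the inner vertices of the long threads are not in `S`
  have hlong : ∀ i, 1 ≤ i → i ≤ n₀ → sc f k (j + 1) < len₀ i → ∀ c, 1 ≤ c → c < len₀ i →
      v₀ i c ∉ S := by
    rintro i hi hi' hl c hc hc' (h | ⟨i', hi1, hi1', hl', c', hd, hd', he⟩)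
    · exact (hpar₀ i hi hi' c hc').2 hc h
    · obtain ⟨h1, -⟩ := hpos₀ c c' i i' hi hi' hi1 hi1' hc' hd' he
      subst h1
      omega
  -- the new threads
  have hcl : ∀ i, 1 ≤ i → i ≤ n → (len i = 1 ∧ par (v i 0) ∈ S) ∨
      ∃ i', 1 ≤ i' ∧ i' ≤ n₀ ∧ v₀ i' 0 = v i 0 ∧ len i = len₀ i' ∧ sc f k (j + 1) < len₀ i' := by
    intro i hi hi'
    obtain ⟨d1, d2, d3, d4⟩ := D1 i hi hi'
    have hp0 : par (v i 0) = v i 1 := (hpar i hi hi' 0 (by omega)).1.symm
    by_cases hl : len i = 1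
    · left
      refine ⟨hl, ?_⟩
      rw [hp0, ← hl, d3]
      exact hvS _ (by omega)
    · right
      have hy : v i 1 ∉ S := (hpar i hi hi' 1 (by omega)).2 le_rfl
      rcases D2₀ (v i 1) with h | ⟨i', hi1, hi1', c, hc, he⟩
      · exfalso
        rw [h, hv0₀] at hy
        exact hy (hSS a haS)
      · have hc1 : 1 ≤ c := by
          by_contra h
          have h0 : c = 0 := by omega
          rw [he, h0] at hy
          exact hy (hSS _ (hvS₀ i' hi1'))
        have hnl : sc f k (j + 1) < len₀ i' := by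
          rcases hgap i' hi1 hi1' with h | h
          · exfalso
            exact hy (Or.inr ⟨i', hi1, hi1', h, c, hc1, hc, he⟩)
          · exact h
        obtain ⟨y, -, -, hyu⟩ := hchild _ hy
        have e1 := hyu (v i 0) (F0 i hi hi' 0 (by omega)) hp0
        have e2 := hyu (v₀ i' (c - 1)) (F0₀ i' hi1 hi1' (c - 1) (by omega)) (by
          have := (hpar₀ i' hi1 hi1' (c - 1) (by omega)).1
          rw [show c - 1 + 1 = c by omega] at this
          rw [← this, he])
        have hc0 : c - 1 = 0 := by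
          by_contra h
          apply hlong i' hi1 hi1' hnl (c - 1) (by omega) (by omega)
          rw [e2, ← e1]
          exact hvS i hi'
        rw [hc0] at e2
        have e3 : v₀ i' 0 = v i 0 := e2.trans e1.symm
        refine ⟨i', hi1, hi1', e3, ?_, hnl⟩
        rcases lt_trichotomy (len i) (len₀ i') with h | h | h
        · exfalso
          apply hlong i' hi1 hi1' hnl (len i) (by omega) h
          rw [F1₀ i' hi1 hi1' _ h.le, e3, ← F1 i hi hi' _ le_rfl, d3]
          exact hvS _ (by omega)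
        · exact h
        · exfalso
          apply (hpar i hi hi' (len₀ i') h).2 (by omega)
          rw [F1 i hi hi' _ h.le, ← e3, ← F1₀ i' hi1 hi1' _ le_rfl, (D1₀ i' hi1 hi1').2.2.1]
          exact hSS _ (hvS₀ _ (by have := (D1₀ i' hi1 hi1').1; omega))
  have hl1 : 1 ≤ T.dist a b := by omega
  have F6 : ∀ i, 1 ≤ i → i ≤ n → len i ≤ T.dist a b := by
    intro i hi hi'
    rcases hcl i hi hi' with h | ⟨i', hi1, hi1', -, h, -⟩
    · omega
    · rw [h]
      exact F6₀ i' hi1 hi1'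
  -- the thread of `b` in the first decomposition
  obtain ⟨i₂, hi₂, hb₂⟩ := hsurj₀ b hbS
  have hi₂' : 1 ≤ i₂ := by
    by_contra h
    have h0 : i₂ = 0 := by omega
    rw [h0, hv0₀] at hb₂
    exact hne hb₂
  obtain ⟨f1, f2⟩ := F3₀ i₂ hi₂' hi₂
  rw [hb₂] at f1 f2
  have hu₂ : v₀ (up₀ i₂) 0 = a := by
    rcases hbet (v₀ (up₀ i₂) 0) (hvS₀ _ (by have := (D1₀ i₂ hi₂' hi₂).1; omega))
      (by rw [T.dist_comm (u := v₀ (up₀ i₂) 0) (v := b), f2]; exact f1) with h | h
    · exact h
    · exfalso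
      exact Fne₀ i₂ hi₂' hi₂ (h.trans hb₂.symm)
  have hL₂ : len₀ i₂ = T.dist a b := by
    rw [← f2, hu₂, T.dist_comm]
  -- the node `b`
  obtain ⟨i0, hi0, hb0⟩ := hsurj b (hSS b hbS)
  have hn1i : n₁ < i0 := (hD i0 hi0).1 ⟨0, hb0⟩
  have hn1n : n₁ < n := by omega
  have hb1 : v (n₁ + 1) 0 = b := by
    rcases Nat.eq_or_lt_of_le (show n₁ + 1 ≤ i0 by omega) with h | h
    · rw [h]; exact hb0
    · exfalso
      obtain ⟨m, hm⟩ := (hD (n₁ + 1) (by omega)).2 (by omega)
      have h1 := (L1 _ m hm).2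
      have h2 := hord (n₁ + 1) i0 h hi0 (Or.inr (by omega))
      rw [hb0] at h2
      have h3 : m = 0 := by omega
      rw [h3, Function.iterate_zero, id] at hm
      have h4 := hinj (n₁ + 1) (by omega) i0 hi0 (hm.trans hb0.symm)
      omega
  have hL : len (n₁ + 1) = T.dist a b := by
    rcases hcl (n₁ + 1) (by omega) (by omega) with ⟨-, h⟩ | ⟨i', hi1, hi1', h1, h2, -⟩
    · exfalso
      rw [hb1, ← hb₂, ← (hpar₀ i₂ hi₂' hi₂ 0 (by omega)).1] at h
      exact hlong i₂ hi₂' hi₂ (by omega) (0 + 1) (by omega) (by omega) h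
    · have h3 := hinj₀ i' hi1' i₂ hi₂ ((h1.trans hb1).trans hb₂.symm)
      rw [h2, h3, hL₂]
  have hup0 : up (n₁ + 1) = 0 := by
    have h1 := (D1 (n₁ + 1) (by omega) (by omega)).1
    have h2 := (D1 (n₁ + 1) (by omega) (by omega)).2.2.1
    rw [F1 (n₁ + 1) (by omega) (by omega) _ le_rfl, hb1, hL, ← hL₂, ← hb₂,
      ← F1₀ i₂ hi₂' hi₂ _ le_rfl, (D1₀ i₂ hi₂' hi₂).2.2.1, hu₂] at h2
    exact hinj _ (by omega) 0 (Nat.zero_le _) (h2.symm.trans hv0.symm)
  refine ⟨k + k * sc f k j, n, n₁, up, len, v, ⟨D1, D2, D3⟩, by omega, hn1n, hup0, ?_, ?_, ?_, ?_⟩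
  · intro i hi hi'
    rcases hcl i hi hi' with h | ⟨i', hi1, hi1', -, h, h2⟩
    · exact Or.inl h.1
    · right
      omega
  · intro i hi hi'
    rw [hL]
    exact F6 i hi hi'
  · omega
  · intro i hi hi'
    by_contra h
    push Not at h
    obtain ⟨m, hm⟩ := (hD i hi').2 (by omega)
    have hnD : ¬ ∃ m, par^[m] (v (up i) 0) = b := fun hh => by
      have := (hD (up i) (by omega)).1 hh
      omega
    have hm0 : 1 ≤ m := by
      rcases Nat.eq_zero_or_pos m with h0 | h0
      · exfalso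
        rw [h0, Function.iterate_zero, id] at hm
        have h4 := hinj i hi' (n₁ + 1) (by omega) (hm.trans hb1.symm)
        omega
      · exact h0
    rcases Nat.lt_or_ge m (len i) with h1 | h1
    · have h2 := (hpar i (by omega) hi' m h1).2 hm0
      rw [F1 i (by omega) hi' m h1.le, hm] at h2
      exact h2 (hSS b hbS)
    · apply hnD
      refine ⟨m - len i, ?_⟩
      rw [← (D1 i (by omega) hi').2.2.1, F1 i (by omega) hi' _ le_rfl,
        ← Function.iterate_add_apply, Nat.sub_add_cancel h1]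
      exact hm

end Pool.Agent.Y790.TG
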