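import Pool.Agent.Y790.TR.Def3
import Pool.Agent.Y790.TR.MainNet
import Pool.Agent.Y790.TR.PK

/-!
# All networks with threads which are edges or long, uniform constants (job TR3-MAIN)
-/

set_option autoImplicit false

namespace Pool.Agent.Y790.TG

open Pool.Agent.Y790.TR
open Pool.Agent.Y790.LG (Od Sm rt cst hd Lg Kst prd Cls ClsStm Lags)

namespace MainG

open Pool.Agent.Y790.TR.MainNet (netL_congr exists_sides odd_prod)

/-- finitely many data -/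
abbrev Dt (N : ℕ) : Type :=
  Fin (N + 1) × (Fin (N + 1) → Fin (N + 1)) × (Fin (N + 1) → Bool) × Finset (Fin (N + 1))

def dup {N : ℕ} (d : Dt N) (i : ℕ) : ℕ := if h : i < N + 1 then (d.2.1 ⟨i, h⟩ : ℕ) else 0

def dsd {N : ℕ} (d : Dt N) (i : ℕ) : ℤ :=
  if h : i < N + 1 then (if d.2.2.1 ⟨i, h⟩ then 1 else 0) else 0

def dI {N : ℕ} (d : Dt N) : Finset ℕ := d.2.2.2.image (fun i : Fin (N + 1) => (i : ℕ))

theorem dsd_or {N : ℕ} (d : Dt N) (i : ℕ) : dsd d i = 0 ∨ dsd d i = 1 := by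
  unfold dsd
  split_ifs <;> simp

/-- admissible data -/
def Adm {N : ℕ} (d : Dt N) : Prop :=
  2 ≤ (d.1 : ℕ) ∧ (∀ i, 1 ≤ i → i ≤ (d.1 : ℕ) → dup d i < i) ∧ dsd d 0 = 1 ∧
    ∀ i ∈ dI d, 3 ≤ i ∧ i ≤ (d.1 : ℕ) ∧ dsd d i + dsd d (dup d i) = 1

theorem adm_card {N : ℕ} {d : Dt N} (h : Adm d) :
    ((d.1 : ℕ) - (dI d).card) + (dI d).card = (d.1 : ℕ) := by
  have h1 : dI d ⊆ Finset.Icc 1 (d.1 : ℕ) := by
    intro i hi
    have h2 := h.2.2.2 i hi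
    exact Finset.mem_Icc.2 ⟨by omega, h2.2.1⟩
  have h2 := Finset.card_le_card h1
  rw [Nat.card_Icc] at h2
  omega

theorem exists_data {N m : ℕ} (hm2 : 2 ≤ m) (hm : m ≤ N) (up : ℕ → ℕ) (sd : ℕ → ℤ)
    (I : Finset ℕ) (hup : ∀ i, 1 ≤ i → i ≤ m → up i < i) (s0 : sd 0 = 1)
    (s1 : ∀ i, sd i = 0 ∨ sd i = 1)
    (hI : ∀ i ∈ I, 3 ≤ i ∧ i ≤ m ∧ sd i + sd (up i) = 1) :
    ∃ d : Dt N, Adm d ∧ (d.1 : ℕ) = m ∧ (∀ i, 1 ≤ i → i ≤ m → dup d i = up i) ∧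
      (∀ i ≤ m, dsd d i = sd i) ∧ dI d = I := by
  classical
  obtain ⟨u, hu⟩ : ∃ u : Fin (N + 1) → Fin (N + 1), ∀ i : Fin (N + 1), 1 ≤ (i : ℕ) →
      (i : ℕ) ≤ m → (u i : ℕ) = up i := by
    refine ⟨fun i => if h : 1 ≤ (i : ℕ) ∧ (i : ℕ) ≤ m then ⟨up i, by
      have := hup i h.1 h.2
      omega⟩ else 0, fun i h1 h2 => ?_⟩
    simp only [h1, h2, and_self, dif_pos]
  obtain ⟨d, hd⟩ : ∃ d : Dt N, d = ((⟨m, by omega⟩ : Fin (N + 1)), u,
      (fun i : Fin (N + 1) => decide (sd i = 1)),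
      Finset.univ.filter (fun i : Fin (N + 1) => (i : ℕ) ∈ I)) := ⟨_, rfl⟩
  have e1 : (d.1 : ℕ) = m := by rw [hd]
  have e2 : ∀ i, 1 ≤ i → i ≤ m → dup d i = up i := by
    intro i hi1 hi
    rw [hd]
    unfold dup
    rw [dif_pos (by omega)]
    exact hu ⟨i, by omega⟩ hi1 hi
  have e3 : ∀ i ≤ m, dsd d i = sd i := by
    intro i hi
    rw [hd]
    unfold dsd
    rw [dif_pos (by omega)]
    simp only
    rcases s1 i with h | h <;> simp [h]
  have e4 : dI d = I := by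
    ext i
    unfold dI
    rw [hd, Finset.mem_image]
    constructor
    · rintro ⟨j, hj, rfl⟩
      exact (Finset.mem_filter.1 hj).2
    · intro hi
      have h1 := hI i hi
      exact ⟨⟨i, by omega⟩, Finset.mem_filter.2 ⟨Finset.mem_univ _, hi⟩, rfl⟩
  refine ⟨d, ⟨?_, ?_, ?_, ?_⟩, e1, e2, e3, e4⟩
  · rw [e1]
    exact hm2
  · intro i hi1 hi
    rw [e1] at hi
    rw [e2 i hi1 hi]
    exact hup i hi1 hi
  · rw [e3 0 (Nat.zero_le _)]
    exact s0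
  · intro i hi
    rw [e4] at hi
    have h1 := hI i hi
    have h2 := hup i (by omega) h1.2.1
    rw [e1, e2 i (by omega) h1.2.1, e3 i h1.2.1, e3 (up i) (by omega)]
    exact h1

end MainG

open MainG in
open Pool.Agent.Y790.TR.MainNet (netL_congr exists_sides odd_prod) in
theorem mainG (hg : GrowG) (hc : CloseG) : Pool.Agent.Y790.TR.MainG := by
  intro N
  classical
  obtain ⟨Q, hQ⟩ : ∃ Q, Q = ∏ i ∈ Finset.range (N + 1), (2 * i + 1) := ⟨_, rfl⟩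
  have hQ1 : Q % 2 = 1 := by rw [hQ]; exact odd_prod N
  have hQd : ∀ i ≤ N, 2 * i + 1 ∣ Q := fun i hi => by
    rw [hQ]
    exact Finset.dvd_prod_of_mem (fun i => 2 * i + 1) (Finset.mem_range.2 (by omega))
  obtain ⟨M, hM⟩ : ∃ M, M = 1001 * (2 * N + 5) ^ 3 * Q := ⟨_, rfl⟩
  have hM1 : M % 2 = 1 := by
    have h1 : Odd M := by
      rw [hM]
      refine (Odd.mul (by decide) (Odd.pow ⟨N + 2, by ring⟩)).mul (Nat.odd_iff.2 hQ1)
    exact Nat.odd_iff.1 h1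
  have hMd : ∀ i ≤ N, 2 * i + 1 ∣ M := fun i hi => by
    rw [hM]
    exact (hQd i hi).mul_left _
  have hMge : 1001 * (2 * N + 5) ^ 3 ≤ M := by
    rw [hM]
    exact Nat.le_mul_of_pos_right _ (by omega)
  have hMge' : 1000 * (2 * N + 5) ^ 3 ≤ M := by
    have : 1000 * (2 * N + 5) ^ 3 ≤ 1001 * (2 * N + 5) ^ 3 := Nat.mul_le_mul_right _ (by omega)
    omega
  -- the uniform invariant
  have hK1 : ∀ d : Dt N, ∃ K₁ : ℕ, Adm d → ∀ K ≥ K₁, K % (16 * M) = M * M % (16 * M) →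
      ∃ (A B : ℤ) (c : ℕ → ℕ) (b : ℕ → ℤ),
        OutG ((d.1 : ℕ) - (dI d).card) (d.1 : ℕ) A B
          (Kst ((d.1 : ℕ) - (dI d).card) (PK K ((d.1 : ℕ) - (dI d).card)) 0) c b (dI d) (dup d) ∧
        (∀ i ≤ (d.1 : ℕ), b i % 2 = dsd d i) ∧ c (2 * ((d.1 : ℕ) - (dI d).card)) = 0 ∧
        PrG ((d.1 : ℕ) - (dI d).card) (d.1 : ℕ) (dI d) (dup d) c := by
    intro d
    by_cases hd : Adm d
    · obtain ⟨K₁, h1⟩ := hg N M hM1 hMd hMge' ((d.1 : ℕ) - (dI d).card) (d.1 : ℕ) hd.1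
        (by have := d.1.2; omega) (dI d) (dup d) (dsd d) (adm_card hd) hd.2.2.2 hd.2.1
        (fun i _ => dsd_or d i) hd.2.2.1
      exact ⟨K₁, fun _ => h1⟩
    · exact ⟨0, fun h => absurd h hd⟩
  choose K₁ hK₁ using hK1
  obtain ⟨K, hK⟩ : ∃ K, K = M * M + 16 * M * Finset.univ.sup K₁ := ⟨_, rfl⟩
  have hMpos : 1 ≤ M := by omega
  have hKge : ∀ d : Dt N, K₁ d ≤ K := by
    intro d
    have h1 : K₁ d ≤ Finset.univ.sup K₁ := Finset.le_sup (Finset.mem_univ d)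
    have h2 : Finset.univ.sup K₁ ≤ 16 * M * Finset.univ.sup K₁ :=
      Nat.le_mul_of_pos_left _ (by omega)
    rw [hK]
    omega
  have hKmod : K % (16 * M) = M * M % (16 * M) := by
    rw [hK, Nat.add_mul_mod_self_left]
  have hK8 : K % 8 = 1 := by
    have h1 : K % 8 = M * M % 8 := by
      rw [hK, show 16 * M * Finset.univ.sup K₁ = 8 * (2 * M * Finset.univ.sup K₁) by ring,
        Nat.add_mul_mod_self_left]
    rw [h1, Nat.mul_mod]
    have h2 : M % 8 = 1 ∨ M % 8 = 3 ∨ M % 8 = 5 ∨ M % 8 = 7 := by omega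
    rcases h2 with h | h | h | h <;> rw [h]
  have hKd : ∀ i ≤ N, 2 * i + 1 ∣ K := by
    intro i hi
    have h1 : M ∣ K := by
      rw [hK]
      exact (Dvd.intro _ rfl).add ((Dvd.intro_left 16 rfl).mul_right _)
    exact (hMd i hi).trans h1
  have hKbig : ∀ n ≤ N, (2 * n + 1) ^ 2 + 8 * (2 * n + 1) ≤ K := by
    intro n hn
    have h1 : (2 * n + 1) ^ 3 ≤ (2 * N + 5) ^ 3 := Nat.pow_le_pow_left (by omega) 3
    have h2 : M ≤ K := by
      have : M ≤ M * M := Nat.le_mul_of_pos_left _ hMpos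
      rw [hK]
      omega
    have h3 : (2 * n + 1) ^ 2 ≤ (2 * n + 1) ^ 3 := Nat.pow_le_pow_right (by omega) (by omega)
    have h4 : 2 * n + 1 ≤ (2 * n + 1) ^ 3 := Nat.le_self_pow (by omega) _
    omega
  have hpN := pkLags K N hK8 hKd (hKbig N le_rfl)
  -- the constants for the data
  have hC1 : ∀ d : Dt N, ∃ C : ℕ, Adm d → ∀ (len : ℕ → ℕ) (g : ℕ),
      (∀ i ∈ dI d, len i = 1) →
      (∀ i, 1 ≤ i → i ≤ (d.1 : ℕ) → i ∉ dI d →
        ((len i : ℤ) + dsd d i + dsd d (dup d i)) % 2 = 0 ∧ C ≤ len i ∧ len i + C ≤ 2 * g) →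
      C ≤ g → NetL (PK K 0 : ℤ) (d.1 : ℕ) (dup d) len g := by
    intro d
    by_cases hd : Adm d
    · have hdN : (d.1 : ℕ) - (dI d).card ≤ N := by have := d.1.2; omega
      obtain ⟨A, B, c, b, o1, o2, o3, o4⟩ := hK₁ d hd K (hKge d) hKmod
      obtain ⟨l1, l2, l3⟩ := pkLags K ((d.1 : ℕ) - (dI d).card) hK8
        (fun i hi => hKd i (hi.trans hdN)) (hKbig _ hdN)
      obtain ⟨C₀, hC₀⟩ := @Pool.Agent.Y790.LE.allTop ⟨(PK K 0 : ℤ)⟩
        ((d.1 : ℕ) - (dI d).card) (PK K) l1 rfl l2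
      obtain ⟨C, hC⟩ := hc (PK K 0 : ℤ) ((d.1 : ℕ) - (dI d).card) (d.1 : ℕ)
        (PK K ((d.1 : ℕ) - (dI d).card)) A B c b (dI d) (dup d) (dsd d) C₀
        (l3 _ le_rfl) o1 o2 o3 o4 hd.2.1 (fun ℓ g => hC₀ 0 (Nat.zero_le _) ℓ g)
      exact ⟨C, fun _ => hC⟩
    · exact ⟨0, fun h => absurd h hd⟩
  choose C hC using hC1
  refine ⟨(PK K 0 : ℤ), max 2 (Finset.univ.sup C), ?_, ?_, le_max_left _ _, ?_⟩
  · have := hpN.2.2 0 (Nat.zero_le _)
    omega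
  · positivity
  · intro m hm2 hm up len g hup hl1 hl2 hlen hCg
    obtain ⟨sd, s0, s1, s2⟩ := exists_sides m up len hup
    have hI : ∀ i ∈ (Finset.Icc 1 m).filter (fun i => len i = 1),
        3 ≤ i ∧ i ≤ m ∧ sd i + sd (up i) = 1 := by
      intro i hi
      obtain ⟨h1, h2⟩ := Finset.mem_filter.1 hi
      obtain ⟨h3, h4⟩ := Finset.mem_Icc.1 h1
      have h5 := s2 i h3 h4
      rw [h2] at h5
      refine ⟨?_, h4, ?_⟩
      · by_contra h6
        have h7 : i = 1 ∨ i = 2 := by omega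
        rcases h7 with rfl | rfl
        · omega
        · omega
      · rcases s1 i with h6 | h6 <;> rcases s1 (up i) with h7 | h7 <;>
          rw [h6, h7] at h5 ⊢ <;> omega
    obtain ⟨d, ha, hdm, hdu, hds, hdI⟩ := exists_data hm2 hm up sd _ hup s0 s1 hI
    have hCd : C d ≤ Finset.univ.sup C := Finset.le_sup (Finset.mem_univ d)
    have h1 := hC d ha len g
    rw [hdm, hdI] at h1
    refine netL_congr hdu (h1 ?_ ?_ (by omega))
    · intro i hi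
      exact (Finset.mem_filter.1 hi).2
    · intro i hi1 hi hiI
      have h2 := hup i hi1 hi
      have h3 : len i ≠ 1 := fun h => hiI (Finset.mem_filter.2 ⟨Finset.mem_Icc.2 ⟨hi1, hi⟩, h⟩)
      rcases hlen i hi1 hi with h4 | ⟨h4, h5⟩
      · exact absurd h4 h3
      · refine ⟨?_, by omega, by omega⟩
        rw [hdu i hi1 hi, hds i hi, hds (up i) (by omega)]
        exact s2 i hi1 hi

end Pool.Agent.Y790.TG
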