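import Pool.Agent.Y790.TR.Def3
import Pool.Agent.Y790.TR.Net

/-!
# The network theorem with threads which are edges or long
-/

set_option autoImplicit false

namespace Pool.Agent.Y790.TG.NetG

open Pool.Agent.Y790.TR
open Pool.Agent.Y790.LG (Od Sm rt cst hd Lg Kst prd Cls ClsStm Lags)

/-- numbers of the old nodes when the nodes with the property `lg` get a predecessor -/
def fN (lg : ℕ → Bool) : ℕ → ℕ
  | 0 => 0
  | i + 1 => fN lg i + (if lg (i + 1) then 2 else 1)

theorem fN_lt (lg : ℕ → Bool) (i : ℕ) : fN lg i < fN lg (i + 1) := by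
  show fN lg i < fN lg i + (if lg (i + 1) then 2 else 1)
  split_ifs <;> omega

theorem fN_mono (lg : ℕ → Bool) : StrictMono (fN lg) := strictMono_nat_of_lt_succ (fN_lt lg)

theorem fN_ge (lg : ℕ → Bool) (i : ℕ) : i ≤ fN lg i := (fN_mono lg).id_le i

theorem fN_le (lg : ℕ → Bool) (i : ℕ) : fN lg i ≤ 2 * i := by
  induction i with
  | zero => exact le_rfl
  | succ i ih =>
    show fN lg i + (if lg (i + 1) then 2 else 1) ≤ 2 * (i + 1)
    split_ifs <;> omega

theorem fN_step (lg : ℕ → Bool) (i : ℕ) (hi : 1 ≤ i) :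
    fN lg i = fN lg (i - 1) + (if lg i then 2 else 1) := by
  obtain ⟨k, rfl⟩ : ∃ k, i = k + 1 := ⟨i - 1, by omega⟩
  rfl

/-- the old node to which the new node `j` belongs -/
theorem ex_idx (lg : ℕ → Bool) (j : ℕ) : ∃ i, j ≤ fN lg i := ⟨j, fN_ge lg j⟩

noncomputable def idx (lg : ℕ → Bool) (j : ℕ) : ℕ := Nat.find (ex_idx lg j)

theorem idx_spec (lg : ℕ → Bool) (j : ℕ) : j ≤ fN lg (idx lg j) := Nat.find_spec (ex_idx lg j)

theorem idx_pos (lg : ℕ → Bool) (j : ℕ) (hj : 1 ≤ j) : 1 ≤ idx lg j := by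
  by_contra h
  have h0 : idx lg j = 0 := by omega
  have := idx_spec lg j
  rw [h0] at this
  have e : fN lg 0 = 0 := rfl
  omega

theorem idx_lt (lg : ℕ → Bool) (j : ℕ) (hj : 1 ≤ j) : fN lg (idx lg j - 1) < j := by
  have h1 := idx_pos lg j hj
  have := Nat.find_min (ex_idx lg j) (m := idx lg j - 1) (by
    show idx lg j - 1 < idx lg j
    omega)
  omega

theorem idx_eq (lg : ℕ → Bool) (i j : ℕ) (hi : 1 ≤ i) (h1 : fN lg (i - 1) < j) (h2 : j ≤ fN lg i) :
    idx lg j = i := by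
  have hj : 1 ≤ j := by omega
  have a1 := idx_spec lg j
  have a2 := idx_lt lg j hj
  have a3 := idx_pos lg j hj
  rcases Nat.lt_trichotomy (idx lg j) i with h | h | h
  · have := (fN_mono lg).monotone (show idx lg j ≤ i - 1 by omega)
    omega
  · exact h
  · have := (fN_mono lg).monotone (show i ≤ idx lg j - 1 by omega)
    omega

theorem idx_le (lg : ℕ → Bool) (j k : ℕ) (hj : 1 ≤ j) (h : j ≤ fN lg k) : idx lg j ≤ k := by
  by_contra hc
  have := (fN_mono lg).monotone (show k ≤ idx lg j - 1 by omega)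
  have a2 := idx_lt lg j hj
  omega

/-- new parents -/
noncomputable def upN (lg : ℕ → Bool) (up1 : ℕ → ℕ) (j : ℕ) : ℕ :=
  if j = fN lg (idx lg j) ∧ lg (idx lg j) = true then j - 1 else fN lg (up1 (idx lg j))

/-- new lengths -/
noncomputable def lenN (lg : ℕ → Bool) (len1 : ℕ → ℕ) (j : ℕ) : ℕ :=
  if lg (idx lg j) = true then
    (if j = fN lg (idx lg j) then len1 (idx lg j) / 2 else len1 (idx lg j) - len1 (idx lg j) / 2)
  else len1 (idx lg j)

/-- the key lemma -/
theorem key (hs : SubdivG) (hr : RerootG) (N : ℕ) (e : ℤ) (C' L : ℕ) (hC2 : 2 ≤ C')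
    (hL : 12 * C' + 20 ≤ L)
    (hM : ∀ m, 2 ≤ m → m ≤ 2 * N + 4 →
      ∀ (up len : ℕ → ℕ) (g : ℕ), (∀ i, 1 ≤ i → i ≤ m → up i < i) → C' ≤ len 1 → C' ≤ len 2 →
      (∀ i, 1 ≤ i → i ≤ m → len i = 1 ∨ (C' ≤ len i ∧ len i + C' ≤ 2 * g)) → C' ≤ g → NetL e m up len g)
    (m : ℕ) (u l : ℕ → ℕ) (g : ℕ) (hm : m ≤ N) (hu : ∀ i, 1 ≤ i → i ≤ m → u i < i)
    (hl : ∀ i, 1 ≤ i → i ≤ m → l i = 1 ∨ 12 * C' + 20 ≤ l i) (hlL : ∀ i, 1 ≤ i → i ≤ m → l i ≤ L)
    (hg : L ≤ 2 * g + 2) : NetL e m u l g := by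
  set up1 : ℕ → ℕ := fun j => if j ≤ 2 then j - 1 else u (j - 2) + 2 with hup1
  set len1 : ℕ → ℕ := fun j => if j ≤ 2 then C' else l (j - 2) with hlen1
  have a1 : up1 1 = 0 := rfl
  have a2 : up1 2 = 1 := rfl
  have a3 : len1 1 = C' := rfl
  have a4 : len1 2 = C' := rfl
  have a5 : ∀ i, 1 ≤ i → up1 (i + 2) = u i + 2 := by
    intro i hi
    show (if i + 2 ≤ 2 then i + 2 - 1 else u (i + 2 - 2) + 2) = _
    rw [if_neg (by omega), Nat.add_sub_cancel]
  have a6 : ∀ i, 1 ≤ i → len1 (i + 2) = l i := by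
    intro i hi
    show (if i + 2 ≤ 2 then C' else l (i + 2 - 2)) = _
    rw [if_neg (by omega), Nat.add_sub_cancel]
  have hup1lt : ∀ i, 1 ≤ i → i ≤ m + 2 → up1 i < i := by
    intro i h1 h2
    by_cases h3 : i ≤ 2
    · show (if i ≤ 2 then i - 1 else u (i - 2) + 2) < i
      rw [if_pos h3]; omega
    · obtain ⟨k, rfl⟩ : ∃ k, i = k + 2 := ⟨i - 2, by omega⟩
      rw [a5 k (by omega)]
      have := hu k (by omega) (by omega)
      omega
  -- reduction to the network with two more nodes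
  obtain ⟨g2, rfl⟩ : ∃ g2, g = len1 1 + len1 2 + g2 := ⟨g - 2 * C', by rw [a3, a4]; omega⟩
  rw [a3, a4] at hg
  refine hr e m u l up1 len1 g2 hu a1 a2 (by rw [a3]; omega) (by rw [a4]; omega)
    (fun i h1 _ => ⟨a5 i h1, a6 i h1⟩) ?_
  -- the long threads
  set lg : ℕ → Bool := fun i => decide (3 ≤ i ∧ len1 i ≠ 1) with hlg
  have hlgT : ∀ i, lg i = true ↔ 3 ≤ i ∧ len1 i ≠ 1 := fun i => by simp [hlg]
  have hf0 : fN lg 0 = 0 := rfl
  have hlg1 : ¬ lg 1 = true := by rw [hlgT]; omega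
  have hlg2 : ¬ lg 2 = true := by rw [hlgT]; omega
  have hf1 : fN lg 1 = 1 := by
    show fN lg 0 + (if lg (0 + 1) then 2 else 1) = 1
    rw [if_neg hlg1, hf0]
  have hf2 : fN lg 2 = 2 := by
    show fN lg 1 + (if lg (1 + 1) then 2 else 1) = 2
    rw [if_neg hlg2, hf1]
  have hlong : ∀ i, i ≤ m + 2 → lg i = true → 12 * C' + 20 ≤ len1 i ∧ len1 i ≤ L := by
    intro i h2 h
    obtain ⟨h3, h4⟩ := (hlgT i).1 h
    obtain ⟨k, rfl⟩ : ∃ k, i = k + 2 := ⟨i - 2, by omega⟩
    rw [a6 k (by omega)] at h4 ⊢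
    rcases hl k (by omega) (by omega) with h5 | h5
    · exact absurd h5 h4
    · exact ⟨h5, hlL k (by omega) (by omega)⟩
  have hshort : ∀ i, 1 ≤ i → ¬ lg i = true → len1 i = 1 ∨ (i ≤ 2 ∧ len1 i = C') := by
    intro i h1 h
    rw [hlgT] at h
    by_cases h3 : i ≤ 2
    · right
      refine ⟨h3, ?_⟩
      show (if i ≤ 2 then C' else l (i - 2)) = C'
      rw [if_pos h3]
    · left
      by_contra h4
      exact h ⟨by omega, h4⟩
  refine hs e (m + 2) up1 len1 (fN lg) (upN lg up1) (lenN lg len1) g2 hf0 hup1lt ?_ ?_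
  · intro i h1 h2
    have st := fN_step lg i h1
    by_cases h : lg i = true
    · right
      rw [if_pos h] at st
      have i1 : idx lg (fN lg i) = i := idx_eq lg i _ h1 (by omega) le_rfl
      have i2 : idx lg (fN lg i - 1) = i := idx_eq lg i _ h1 (by omega) (by omega)
      have hlo := hlong i h2 h
      have b1 : upN lg up1 (fN lg i) = fN lg i - 1 := by
        unfold upN
        rw [i1, if_pos ⟨rfl, h⟩]
      have b2 : upN lg up1 (fN lg i - 1) = fN lg (up1 i) := by
        unfold upN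
        rw [i2, if_neg (by omega)]
      have b3 : lenN lg len1 (fN lg i) = len1 i / 2 := by
        unfold lenN
        rw [i1, if_pos h, if_pos rfl]
      have b4 : lenN lg len1 (fN lg i - 1) = len1 i - len1 i / 2 := by
        unfold lenN
        rw [i2, if_pos h, if_neg (by omega)]
      refine ⟨st, b1, b2, ?_, ?_, ?_⟩
      · rw [b3, b4]; omega
      · rw [b3]; omega
      · rw [b4]; omega
    · left
      rw [if_neg h] at st
      have i1 : idx lg (fN lg i) = i := idx_eq lg i _ h1 (by omega) le_rfl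
      refine ⟨st, ?_, ?_⟩
      · unfold upN
        rw [i1, if_neg (fun h' => h h'.2)]
      · unfold lenN
        rw [i1, if_neg h]
  · have hge := fN_ge lg (m + 2)
    have hle := fN_le lg (m + 2)
    refine hM (fN lg (m + 2)) (by omega) (by omega) _ _ g2 ?_ ?_ ?_ ?_ (by omega)
    · intro j h1 h2
      have c1 := idx_pos lg j h1
      have c2 := idx_lt lg j h1
      have c3 := idx_spec lg j
      have c4 := idx_le lg j (m + 2) h1 h2
      unfold upN
      split_ifs with h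
      · omega
      · have c5 := hup1lt (idx lg j) c1 c4
        have c6 := (fN_mono lg).monotone (show up1 (idx lg j) ≤ idx lg j - 1 by omega)
        omega
    · have i1 : idx lg 1 = 1 := idx_eq lg 1 1 le_rfl (by rw [show (1 : ℕ) - 1 = 0 from rfl, hf0]; omega)
        (by rw [hf1])
      unfold lenN
      rw [i1, if_neg hlg1, a3]
    · have i2 : idx lg 2 = 2 := idx_eq lg 2 2 (by omega) (by rw [show (2 : ℕ) - 1 = 1 from rfl, hf1]; omega)
        (by rw [hf2])
      unfold lenN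
      rw [i2, if_neg hlg2, a4]
    · intro j h1 h2
      have c1 := idx_pos lg j h1
      have c4 := idx_le lg j (m + 2) h1 h2
      unfold lenN
      by_cases h : lg (idx lg j) = true
      · rw [if_pos h]
        obtain ⟨d1, d2⟩ := hlong _ c4 h
        right
        split_ifs with h'
        · constructor <;> omega
        · constructor <;> omega
      · rw [if_neg h]
        rcases hshort _ c1 h with h' | ⟨_, h'⟩
        · exact Or.inl h'
        · right
          rw [h']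
          constructor <;> omega

end Pool.Agent.Y790.TG.NetG

namespace Pool.Agent.Y790.TG

open Pool.Agent.Y790.TR

theorem netG (hm : MainG) (hs : SubdivG) (hr : RerootG) (hj : JoinStm) : NetThmG := by
  intro N
  obtain ⟨e, C', he2, he0, hC2, hM⟩ := hm (2 * N + 4)
  refine ⟨12 * C' + 20, ?_⟩
  intro n n₁ up len hnN hn1n hup hup0 hC hmax hL hside
  obtain ⟨n₂, rfl⟩ : ∃ n₂, n = n₁ + 1 + n₂ := ⟨n - (n₁ + 1), by omega⟩
  have k1 : NetL e n₁ up len ((len (n₁ + 1) - 1) / 2) :=
    NetG.key hs hr N e C' (len (n₁ + 1)) hC2 hL hM n₁ up len _ (by omega)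
      (fun i h1 h2 => hup i h1 (by omega)) (fun i h1 h2 => hC i h1 (by omega))
      (fun i h1 h2 => hmax i h1 (by omega)) (by omega)
  have hupp : ∀ i, 1 ≤ i → i ≤ n₂ → up (i + (n₁ + 1)) - (n₁ + 1) < i := by
    intro i h1 h2
    have a1 := hup (i + (n₁ + 1)) (by omega) (by omega)
    omega
  have k2 : NetL e n₂ (fun i => up (i + (n₁ + 1)) - (n₁ + 1)) (fun i => len (i + (n₁ + 1)))
      (len (n₁ + 1) - 1 - (len (n₁ + 1) - 1) / 2) :=
    NetG.key hs hr N e C' (len (n₁ + 1)) hC2 hL hM n₂ _ _ _ (by omega) hupp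
      (fun i h1 h2 => hC (i + (n₁ + 1)) (by omega) (by omega))
      (fun i h1 h2 => hmax (i + (n₁ + 1)) (by omega) (by omega)) (by omega)
  have h3 := hj e n₁ n₂ up len _ _ _ _ he2 (fun i h1 h2 => hup i h1 (by omega)) hupp k1 k2
  refine net_NetF_congr ?_ ?_ h3
  · intro i h1 h2
    beta_reduce
    by_cases h : i ≤ n₁
    · rw [if_pos h]
    · rw [if_neg h]
      by_cases h' : i = n₁ + 1
      · rw [if_pos h', h', hup0]
      · rw [if_neg h']
        have a1 := hside i (by omega) h2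
        have a2 : i - (n₁ + 1) + (n₁ + 1) = i := by omega
        rw [a2]
        omega
  · intro i h1 h2
    beta_reduce
    by_cases h : i ≤ n₁
    · rw [if_pos h]
    · rw [if_neg h]
      by_cases h' : i = n₁ + 1
      · rw [if_pos h', h']
        omega
      · rw [if_neg h']
        have a2 : i - (n₁ + 1) + (n₁ + 1) = i := by omega
        rw [a2]

end Pool.Agent.Y790.TG
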