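import Pool.Agent.Y790.TR.Def3

/-!
# The longest thread, and the number of leaves (helper350)
-/

set_option autoImplicit false

namespace Pool.Agent.Y790.TG

open Pool.Agent.Y790.TR

theorem pairG : PairG := by
  intro V _ T hT hx
  classical
  obtain ⟨x, y, hxy, hx2, hy2⟩ := hx
  have hex : ∃ b : V, Csc T {x | (T.neighborSet x).ncard ≠ 2} x b := by
    have hne : (Finset.univ.filter fun b : V => (T.neighborSet b).ncard ≠ 2 ∧ b ≠ x).Nonempty :=
      ⟨y, Finset.mem_filter.2 ⟨Finset.mem_univ _, hy2, fun h => hxy h.symm⟩⟩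
    obtain ⟨b, hb, hmin⟩ := Finset.exists_min_image _ (fun b => T.dist x b) hne
    obtain ⟨_, hb2, hbx⟩ := Finset.mem_filter.1 hb
    refine ⟨b, hx2, hb2, fun h => hbx h.symm, ?_⟩
    intro s hs hd
    by_cases hsx : s = x
    · exact Or.inl hsx
    · right
      have h1 := hmin s (Finset.mem_filter.2 ⟨Finset.mem_univ _, hs, hsx⟩)
      have h2 : T.dist s b = 0 := by omega
      exact (hT.connected.dist_eq_zero_iff).1 h2
  obtain ⟨b, hb⟩ := hex
  have hne : (Finset.univ.filter fun p : V × V =>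
      Csc T {x | (T.neighborSet x).ncard ≠ 2} p.1 p.2).Nonempty :=
    ⟨(x, b), Finset.mem_filter.2 ⟨Finset.mem_univ _, hb⟩⟩
  obtain ⟨p, hp, hmax⟩ := Finset.exists_max_image _ (fun p => T.dist p.1 p.2) hne
  obtain ⟨_, hp1⟩ := Finset.mem_filter.1 hp
  refine ⟨p.1, p.2, hp1, ?_⟩
  intro a' b' h1
  exact hmax (a', b') (Finset.mem_filter.2 ⟨Finset.mem_univ _, h1⟩)

theorem leafG : LeafStm := by
  intro V _ T hT hV
  classical
  have hdeg : ∀ x : V, (T.neighborSet x).ncard = T.degree x := by
    intro x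
    rw [← Nat.card_coe_set_eq, Nat.card_eq_fintype_card, SimpleGraph.card_neighborSet_eq_degree]
  have hpos : ∀ x : V, 1 ≤ (T.neighborSet x).ncard := by
    intro x
    obtain ⟨y, hy⟩ := Fintype.exists_ne_of_one_lt_card (by omega : 1 < Fintype.card V) x
    obtain ⟨p⟩ := hT.connected.preconnected x y
    rw [Nat.one_le_iff_ne_zero, ← Nat.pos_iff_ne_zero, Set.ncard_pos (Set.toFinite _)]
    cases p with
    | nil => exact absurd rfl hy
    | cons h _ => exact ⟨_, h⟩
  have hsum : ∑ x : V, (T.neighborSet x).ncard + 2 = 2 * Fintype.card V := by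
    have h1 := SimpleGraph.sum_degrees_eq_twice_card_edges T
    have h2 := hT.card_edgeFinset
    have h3 : ∑ x : V, (T.neighborSet x).ncard = ∑ x : V, T.degree x :=
      Finset.sum_congr rfl fun x _ => hdeg x
    omega
  have hcard : ∀ (P : V → Prop) [DecidablePred P], ({x : V | P x}.ncard : ℕ) =
      ∑ x : V, (if P x then 1 else 0 : ℕ) := by
    intro P _
    rw [Set.ncard_eq_toFinset_card', ← Finset.card_filter]
    congr 1
    ext x
    simp
  have e1 := hcard (fun x => (T.neighborSet x).ncard ≠ 2)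
  have e2 := hcard (fun x => (T.neighborSet x).ncard = 1)
  have hterm : ∀ x ∈ (Finset.univ : Finset V),
      (if (T.neighborSet x).ncard ≠ 2 then 1 else 0 : ℕ) + 2 ≤
        2 * (if (T.neighborSet x).ncard = 1 then 1 else 0 : ℕ) + (T.neighborSet x).ncard := by
    intro x _
    have := hpos x
    split_ifs <;> omega
  have h4 := Finset.sum_le_sum hterm
  rw [Finset.sum_add_distrib, Finset.sum_add_distrib, Finset.sum_const, Finset.card_univ,
    smul_eq_mul, ← Finset.mul_sum] at h4
  omega

end Pool.Agent.Y790.TG
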