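import Pool.Agent.Y790.TR.Def3
import Pool.Agent.Y790.LG.Core

/-!
# TR3-SUBDIV, TR3-REROOT (job 7008, helper542): dividing threads, removing nodes on the free path
-/

set_option autoImplicit false

namespace Pool.Agent.Y790.TG

open Pool.Agent.Y790.TR
open Pool.Agent.Y790.LG (Od Sm rt cst hd Lg Kst prd Cls ClsStm Lags)

namespace Subdiv

/-- the cases of `SubdivG` -/
def Cs (up len f up' len' : ℕ → ℕ) (i : ℕ) : Prop :=
  (f i = f (i - 1) + 1 ∧ up' (f i) = f (up i) ∧ len' (f i) = len i) ∨
    (f i = f (i - 1) + 2 ∧ up' (f i) = f i - 1 ∧ up' (f i - 1) = f (up i) ∧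
      len' (f i) + len' (f i - 1) = len i ∧ 1 ≤ len' (f i) ∧ 1 ≤ len' (f i - 1))

variable {m : ℕ} {up len f up' len' : ℕ → ℕ}

theorem mono (h : ∀ i, 1 ≤ i → i ≤ m → Cs up len f up' len' i) :
    ∀ n ≤ m, ∀ j ≤ n, f j ≤ f n := by
  intro n
  induction n with
  | zero =>
    intro _ j hj
    rw [Nat.le_zero.1 hj]
  | succ n ih =>
    intro hn j hj
    rcases Nat.lt_or_ge n j with h1 | h1
    · rw [show j = n + 1 by omega]
    · have h2 := ih (by omega) j h1
      have h3 : f (n + 1) = f n + 1 ∨ f (n + 1) = f n + 2 := by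
        rcases h (n + 1) (by omega) hn with h | h
        · left; simpa using h.1
        · right; simpa using h.1
      omega

theorem idx (h0 : f 0 = 0) (h : ∀ i, 1 ≤ i → i ≤ m → Cs up len f up' len' i) :
    ∀ n ≤ m, ∀ j, 1 ≤ j → j ≤ f n → ∃ i, 1 ≤ i ∧ i ≤ n ∧
      (j = f i ∨ (f i = f (i - 1) + 2 ∧ j = f i - 1)) := by
  intro n
  induction n with
  | zero =>
    intro _ j h1 h2
    omega
  | succ n ih =>
    intro hn j h1 h2
    rcases Nat.lt_or_ge (f n) j with h3 | h3
    · refine ⟨n + 1, by omega, le_rfl, ?_⟩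
      rcases h (n + 1) (by omega) hn with h | h
      · have := h.1
        simp only [Nat.add_sub_cancel] at this
        left; omega
      · have := h.1
        simp only [Nat.add_sub_cancel] at this ⊢
        omega
    · obtain ⟨i, i1, i2, i3⟩ := ih (by omega) j h1 h3
      exact ⟨i, i1, by omega, i3⟩

theorem sum (h0 : f 0 = 0) (h : ∀ i, 1 ≤ i → i ≤ m → Cs up len f up' len' i) :
    ∀ n ≤ m, ∑ i ∈ Finset.Icc 1 (f n), (len' i : ℤ) = ∑ i ∈ Finset.Icc 1 n, (len i : ℤ) := by
  intro n
  induction n with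
  | zero =>
    intro _
    rw [h0]
    simp
  | succ n ih =>
    intro hn
    rw [Finset.sum_Icc_succ_top (by omega), ← ih (by omega)]
    rcases h (n + 1) (by omega) hn with h | h
    · obtain ⟨h1, -, h2⟩ := h
      simp only [Nat.add_sub_cancel] at h1
      rw [← h2, h1, Finset.sum_Icc_succ_top (by omega)]
    · obtain ⟨h1, -, -, h2, -, -⟩ := h
      simp only [Nat.add_sub_cancel] at h1
      rw [← h2, h1, show f n + 2 - 1 = f n + 1 by omega, show f n + 2 = (f n + 1) + 1 by ring,
        Finset.sum_Icc_succ_top (by omega), Finset.sum_Icc_succ_top (by omega)]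
      push_cast
      ring

theorem sum2 (h : ∀ i, 1 ≤ i → i ≤ m → len' (i + 2) = len i) :
    ∀ n ≤ m, ∑ i ∈ Finset.Icc 1 (n + 2), (len' i : ℤ) =
      len' 1 + len' 2 + ∑ i ∈ Finset.Icc 1 n, (len i : ℤ) := by
  intro n
  induction n with
  | zero =>
    intro _
    rw [show 0 + 2 = 1 + 1 by norm_num, Finset.sum_Icc_succ_top (by omega)]
    simp
  | succ n ih =>
    intro hn
    rw [show n + 1 + 2 = (n + 2) + 1 by ring, Finset.sum_Icc_succ_top (by omega), ih (by omega),
      Finset.sum_Icc_succ_top (by omega), show n + 2 + 1 = (n + 1) + 2 by ring, h (n + 1) (by omega) hn]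
    ring

end Subdiv

open Subdiv in
/-- some of the threads are divided into two parts by new nodes -/
theorem subdivG : SubdivG := by
  intro e m up len f up' len' g f0 hup h' ⟨A, B, b, T, G, hpar, hA, hB, hAB, hT, hG, hcov, hb, hTb, hGb,
    hch, hGch, hs, hlast⟩
  have h : ∀ i, 1 ≤ i → i ≤ m → Cs up len f up' len' i := h'
  have hm := mono h
  have hi0 := idx f0 h m le_rfl
  have hpos : ∀ i, 1 ≤ i → i ≤ m → 1 ≤ f i := by
    intro i i1 i2
    rcases h i i1 i2 with h | h
    · have := h.1; omega
    · have := h.1; omega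
  have hle : ∀ i ≤ m, f i ≤ f m := hm m le_rfl
  refine ⟨A, B, fun i => b (f i),
    fun i => if f i = f (i - 1) + 1 then T (f i) else T (f i) ++ (b (f i - 1) :: T (f i - 1)), G, hpar,
    hA, hB, ?_, ?_, hG, ?_, ?_, ?_, hGb, ?_, by simpa only [f0] using hGch, ?_,
    by simpa only [f0] using hlast⟩
  · rw [hAB, sum f0 h m le_rfl]
  · intro i i1 i2
    have a0 := hpos i i1 i2
    have a00 := hle i i2
    rcases h i i1 i2 with ⟨c1, c2, c3⟩ | ⟨c1, c2, c3, c4, c5, c6⟩
    · simp only [if_pos c1]
      rw [← c3]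
      exact hT _ a0 a00
    · simp only [if_neg (show f i ≠ f (i - 1) + 1 by omega)]
      have a1 := hT (f i) a0 a00
      have a2 := hT (f i - 1) (by omega) (by omega)
      simp only [List.length_append, List.length_cons]
      omega
  · intro z hz
    rcases hcov z hz with ⟨i, hi, hbi⟩ | ⟨i, h1, h2, hzi⟩ | hzG
    · rcases Nat.eq_zero_or_pos i with h0 | h0
      · subst h0
        refine Or.inl ⟨0, Nat.zero_le _, ?_⟩
        simp only [f0]
        exact hbi
      · obtain ⟨j, j1, j2, j3 | ⟨j3, j4⟩⟩ := hi0 i h0 hi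
        · exact Or.inl ⟨j, j2, by simp only [← j3]; exact hbi⟩
        · refine Or.inr (Or.inl ⟨j, j1, j2, ?_⟩)
          simp only [if_neg (show f j ≠ f (j - 1) + 1 by omega)]
          rw [← hbi, j4]
          simp
    · obtain ⟨j, j1, j2, j3 | ⟨j3, j4⟩⟩ := hi0 i h1 h2
      · refine Or.inr (Or.inl ⟨j, j1, j2, ?_⟩)
        rw [j3] at hzi
        simp only
        split_ifs
        · exact hzi
        · exact List.mem_append_left _ hzi
      · refine Or.inr (Or.inl ⟨j, j1, j2, ?_⟩)
        simp only [if_neg (show f j ≠ f (j - 1) + 1 by omega)]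
        rw [j4] at hzi
        exact List.mem_append_right _ (List.mem_cons_of_mem _ hzi)
    · exact Or.inr (Or.inr hzG)
  · intro i hi
    exact hb _ (hle i hi)
  · intro i i1 i2 z hz
    have a0 := hpos i i1 i2
    have a00 := hle i i2
    by_cases c : f i = f (i - 1) + 1
    · simp only [if_pos c] at hz
      exact hTb _ a0 a00 z hz
    · have c1 : f i = f (i - 1) + 2 := by
        rcases h i i1 i2 with h | h
        · exact absurd h.1 c
        · exact h.1
      simp only [if_neg c] at hz
      rw [List.mem_append, List.mem_cons] at hz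
      rcases hz with hz | rfl | hz
      · exact hTb _ a0 a00 z hz
      · exact hb _ (by omega)
      · exact hTb _ (by omega) (by omega) z hz
  · intro i i1 i2
    have a0 := hpos i i1 i2
    have a00 := hle i i2
    rcases h i i1 i2 with ⟨c1, c2, c3⟩ | ⟨c1, u1, u2, c4, c5, c6⟩
    · simp only [if_pos c1]
      have := hch (f i) a0 a00
      rw [c2] at this
      exact this
    · simp only [if_neg (show f i ≠ f (i - 1) + 1 by omega)]
      have g1 := hch (f i) a0 a00
      have g2 := hch (f i - 1) (by omega) (by omega)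
      rw [u1] at g1
      rw [u2] at g2
      have g1' : ((b (f i) :: T (f i)) ++ [b (f i - 1)]).IsChain Od := by simpa using g1
      have g2' : ([b (f i - 1)] ++ (T (f i - 1) ++ [b (f (up i))])).IsChain Od := by
        simpa using g2
      have d1 := g1'.append_overlap g2' (by simp)
      simpa using d1
  · intro v hv h1 h2
    rcases hs v hv h1 h2 with ⟨i, i1, i2, hi⟩ | hi
    · left
      obtain ⟨j, j1, j2, j3 | ⟨j3, j4⟩⟩ := hi0 i i1 i2
      · refine ⟨j, j1, j2, ?_⟩
        rw [j3] at hi
        rcases h j j1 j2 with ⟨c1, c2, c3⟩ | ⟨c1, u1, u2, c4, c5, c6⟩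
        · simp only [if_pos c1]
          rw [c2] at hi
          exact hi
        · simp only [if_neg (show f j ≠ f (j - 1) + 1 by omega)]
          refine hi.inFx ?_
          rw [u1]
          refine List.IsPrefix.isInfix ⟨T (f j - 1) ++ [b (f (up j))], ?_⟩
          simp
      · refine ⟨j, j1, j2, ?_⟩
        rw [j4] at hi
        rcases h j j1 j2 with ⟨c1, c2, c3⟩ | ⟨c1, u1, u2, c4, c5, c6⟩
        · omega
        · simp only [if_neg (show f j ≠ f (j - 1) + 1 by omega)]
          refine hi.inFx ?_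
          rw [u2]
          refine List.IsSuffix.isInfix ⟨b (f j) :: T (f j), ?_⟩
          simp
    · exact Or.inr (by simpa only [f0] using hi)

open Subdiv in
/-- two nodes on the free path are removed -/
theorem rerootG : RerootG := by
  intro e m up len up' len' g hup u1 u2 l1 l2 h ⟨A, B, b, T, G, hpar, hA, hB, hAB, hT, hG, hcov, hb, hTb,
    hGb, hch, hGch, hs, hlast⟩
  have c1 := hch 1 le_rfl (by omega)
  have c2 := hch 2 (by omega) (by omega)
  rw [u1] at c1
  rw [u2] at c2
  have hchain : (b 2 :: (T 2 ++ (b 1 :: (T 1 ++ (b 0 :: G))))).IsChain Od := by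
    have c2' : ((b 2 :: T 2) ++ [b 1]).IsChain Od := by simpa using c2
    have c1' : ((b 1 :: T 1) ++ [b 0]).IsChain Od := by simpa using c1
    have c0' : ([b 0] ++ G).IsChain Od := by simpa using hGch
    have d1 := c1'.append_overlap c0' (by simp)
    have d1' : ([b 1] ++ (T 1 ++ ([b 0] ++ G))).IsChain Od := by simpa using d1
    have d2 := c2'.append_overlap d1' (by simp)
    simpa using d2
  have i2 : (b 2 :: (T 2 ++ [b 1])) <:+: (b 2 :: (T 2 ++ (b 1 :: (T 1 ++ (b 0 :: G))))) := by
    refine List.IsPrefix.isInfix ⟨T 1 ++ (b 0 :: G), ?_⟩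
    simp
  have i1 : (b 1 :: (T 1 ++ [b 0])) <:+: (b 2 :: (T 2 ++ (b 1 :: (T 1 ++ (b 0 :: G))))) := by
    refine ⟨b 2 :: T 2, G, ?_⟩
    simp
  have i0 : (b 0 :: G) <:+: (b 2 :: (T 2 ++ (b 1 :: (T 1 ++ (b 0 :: G))))) := by
    refine List.IsSuffix.isInfix ⟨b 2 :: (T 2 ++ (b 1 :: T 1)), ?_⟩
    simp
  refine ⟨A, B, fun i => b (i + 2), fun i => T (i + 2), T 2 ++ (b 1 :: (T 1 ++ (b 0 :: G))), hpar,
    hA, hB, ?_, ?_, ?_, ?_, ?_, ?_, ?_, ?_, hchain, ?_, ?_⟩
  · rw [hAB, sum2 (fun i j1 j2 => (h i j1 j2).2) m le_rfl]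
    push_cast
    ring
  · intro i j1 j2
    rw [← (h i j1 j2).2]
    exact hT _ (by omega) (by omega)
  · have a1 := hT 1 le_rfl (by omega)
    have a2 := hT 2 (by omega) (by omega)
    simp only [List.length_append, List.length_cons]
    omega
  · intro z hz
    rcases hcov z hz with ⟨i, hi, hbi⟩ | ⟨i, h1, h2, hzi⟩ | hzG
    · rcases Nat.lt_or_ge i 2 with h3 | h3
      · right; right
        rcases (show i = 0 ∨ i = 1 by omega) with rfl | rfl
        · rw [← hbi]; simp
        · rw [← hbi]; simp
      · refine Or.inl ⟨i - 2, by omega, ?_⟩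
        simp only [show i - 2 + 2 = i by omega]
        exact hbi
    · rcases Nat.lt_or_ge 2 i with h3 | h3
      · refine Or.inr (Or.inl ⟨i - 2, by omega, by omega, ?_⟩)
        simp only [show i - 2 + 2 = i by omega]
        exact hzi
      · right; right
        rcases (show i = 1 ∨ i = 2 by omega) with rfl | rfl
        · simp [hzi]
        · simp [hzi]
    · right; right
      simp [hzG]
  · intro i hi
    exact hb _ (by omega)
  · intro i j1 j2 z hz
    exact hTb _ (by omega) (by omega) z hz
  · intro z hz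
    rw [List.mem_append, List.mem_cons, List.mem_append, List.mem_cons] at hz
    rcases hz with hz | rfl | hz | rfl | hz
    · exact hTb 2 (by omega) (by omega) z hz
    · exact hb 1 (by omega)
    · exact hTb 1 (by omega) (by omega) z hz
    · exact hb 0 (by omega)
    · exact hGb z hz
  · intro i j1 j2
    have := hch (i + 2) (by omega) (by omega)
    rw [(h i j1 j2).1] at this
    exact this
  · intro v hv h1 h2
    rcases hs v hv h1 h2 with ⟨i, j1, j2, hi⟩ | hi
    · rcases Nat.lt_or_ge 2 i with h3 | h3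
      · left
        refine ⟨i - 2, by omega, by omega, ?_⟩
        have e1 := (h (i - 2) (by omega) (by omega)).1
        rw [show i - 2 + 2 = i by omega] at e1
        simp only [show i - 2 + 2 = i by omega]
        rw [e1] at hi
        exact hi
      · right
        rcases (show i = 1 ∨ i = 2 by omega) with rfl | rfl
        · rw [u1] at hi
          exact hi.inFx i1
        · rw [u2] at hi
          exact hi.inFx i2
    · exact Or.inr (hi.inFx i0)
  · rw [← hlast]
    show (b 2 :: (T 2 ++ (b 1 :: (T 1 ++ (b 0 :: G))))).getLast? = _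
    rw [show (b 2 :: (T 2 ++ (b 1 :: (T 1 ++ (b 0 :: G))))) = (b 2 :: (T 2 ++ (b 1 :: T 1))) ++ (b 0 :: G) by
      simp]
    exact List.getLast?_append_of_ne_nil _ (by simp)

end Pool.Agent.Y790.TG
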