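import Pool.Agent.Y790.TG.All
import Pool.Agent.Y790.TG.CloseG
import Pool.Agent.Y790.TG.DecA
import Pool.Agent.Y790.TG.GraphG
import Pool.Agent.Y790.TG.MainG
import Pool.Agent.Y790.TG.NetG
import Pool.Agent.Y790.TG.PairG
import Pool.Agent.Y790.TG.Subdiv
import Pool.Agent.Y790.TR.Join

/-!
# Trees with few leaves: assembly
-/

set_option autoImplicit false

namespace Pool.Agent.Y790.TG

open Pool.Agent.Y790.TR

theorem allNetG : NetThmG := netG (mainG allGrowG closeG) subdivG rerootG join

/-- for every `k` all but finitely many trees with at most `k` leaves have an `α`-labelling -/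
theorem allTreeG : TreeG := by
  intro k
  choose f hf using allNetG
  obtain ⟨N₀, hN₀⟩ := graphG pairG f (2 * k)
  refine ⟨max 2 N₀, fun V _ T hT hk hN => ?_⟩
  have h2 : 2 ≤ Fintype.card V := le_trans (le_max_left _ _) hN
  have h3 : N₀ ≤ Fintype.card V := le_trans (le_max_right _ _) hN
  have h4 := leafG V T hT h2
  obtain ⟨N, n, n₁, up, len, v, hD, hn, hn₁, hup, hl, hmax, hL, hside⟩ :=
    hN₀ V T hT (by omega) h3
  exact decA V T n up len v hT hD
    (hf N n n₁ up len hn hn₁ (fun i h1 h2 => (hD.1 i h1 h2).1) hup hl hmax hL hside)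

end Pool.Agent.Y790.TG
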